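import Mathlib
import Pool.Agent.Run7.h971.Cert

/-!
The cluster argument: vanishing of linear syzygies for the special configuration.
-/

set_option linter.unusedSectionVars false

open Finset

namespace Run7.h971

/-- The combinatorial form of the absence of linear syzygies. -/
def Core {ι κ K : Type*} [Fintype ι] [DecidableEq ι] [Field K] (α : κ → ι → K) : Prop :=
  ∀ ω : ι → ι → ι → K, (∀ u a b, ω u a b = ω u b a) → (∀ u a, ω u a a = 0) →
    (∀ u a, ω u u a = 0) → (∀ u a b, ω u a b + ω a b u + ω b u a = 0) →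
    (∀ j u a, ∑ b ∈ univ.erase a, ω u a b * ∏ c ∈ (univ.erase a).erase b, (α j a - α j c) = 0) →
    ∀ u a b, ω u a b = 0

theorem sum_div_eq_zero {ι K : Type*} [Fintype ι] [DecidableEq ι] [Field K] (α : ι → K)
    (hα : Function.Injective α) (w : ι → K) (a : ι)
    (h : ∑ b ∈ univ.erase a, w b * ∏ c ∈ (univ.erase a).erase b, (α a - α c) = 0) :
    ∑ b ∈ univ.erase a, w b / (α a - α b) = 0 := by
  have hP : ∏ c ∈ univ.erase a, (α a - α c) ≠ 0 := by
    rw [Finset.prod_ne_zero_iff]
    intro c hc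
    exact sub_ne_zero.mpr fun h => (Finset.ne_of_mem_erase hc) (hα h).symm
  have h2 : (∏ c ∈ univ.erase a, (α a - α c)) * ∑ b ∈ univ.erase a, w b / (α a - α b) = 0 := by
    rw [← h, Finset.mul_sum]
    refine Finset.sum_congr rfl fun b hb => ?_
    rw [← Finset.mul_prod_erase _ _ hb]
    have : α a - α b ≠ 0 := sub_ne_zero.mpr fun h => (Finset.ne_of_mem_erase hb) (hα h).symm
    field_simp
  exact (mul_eq_zero.mp h2).resolve_left hP

/-- The special configuration: curve `none` is the base curve, curve `some J` is modified on the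
cluster `J` only. -/
def clusterParam {C K : Type*} [DecidableEq C] (α : (C × Fin 3) ⊕ Fin 2 → K)
    (α' : C × Fin 3 → K) : Option C → (C × Fin 3) ⊕ Fin 2 → K
  | none, b => α b
  | some J, .inl t => if t.1 = J then α' t else α (.inl t)
  | some _, .inr w => α (.inr w)

section algebra

variable {ι K : Type*} [Field K]

/-- The totally skew function attached to `ω`. -/
def skewF (α : ι → K) (ω : ι → ι → ι → K) (u a b : ι) (f : Fin 2) : K :=
  -(if f = 0 then α a * α b * ω u a b + α b * α u * ω a b u + α u * α a * ω b u a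
    else α u * ω u a b + α a * ω a b u + α b * ω b u a) /
    ((α u - α a) * (α a - α b) * (α b - α u))

variable (α : ι → K) (ω : ι → ι → ι → K)

theorem skewF_cyc (u a b : ι) (f : Fin 2) : skewF α ω a b u f = skewF α ω u a b f := by
  unfold skewF
  have h1 : (α a - α b) * (α b - α u) * (α u - α a) = (α u - α a) * (α a - α b) * (α b - α u) := by
    ring
  rw [h1]
  congr 1
  split_ifs <;> ring

theorem skewF_swap (hsym : ∀ u a b, ω u a b = ω u b a) (u a b : ι) (f : Fin 2) :
    skewF α ω u b a f = - skewF α ω u a b f := by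
  unfold skewF
  have h1 : (α u - α b) * (α b - α a) * (α a - α u) = -((α u - α a) * (α a - α b) * (α b - α u)) := by
    ring
  rw [h1, div_neg]
  congr 2
  rw [hsym u b a, hsym b a u, hsym a u b]
  split_ifs <;> ring

theorem skewF_rel (hα : Function.Injective α) (hsym : ∀ u a b, ω u a b = ω u b a)
    (haa : ∀ u a, ω u a a = 0) (huu : ∀ u a, ω u u a = 0)
    (hcyc : ∀ u a b, ω u a b + ω a b u + ω b u a = 0) (u a b : ι) :
    ω u a b = (α a - α b) * (skewF α ω u a b 0 + α u * skewF α ω u a b 1) := by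
  by_cases hab : a = b
  · subst hab; simp [haa]
  by_cases hua : u = a
  · subst hua; simp [skewF, huu]
  by_cases hub : u = b
  · subst hub; simp [skewF, hsym u a u, huu]
  have h1 : α u - α a ≠ 0 := sub_ne_zero.mpr fun h => hua (hα h)
  have h2 : α a - α b ≠ 0 := sub_ne_zero.mpr fun h => hab (hα h)
  have h3 : α b - α u ≠ 0 := sub_ne_zero.mpr fun h => hub (hα h).symm
  have h4 : ω b u a = - (ω u a b + ω a b u) := by linear_combination hcyc u a b
  simp only [skewF, if_pos, one_ne_zero, if_neg, not_false_eq_true]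
  rw [h4]
  field_simp
  ring

end algebra

section cluster

variable {C K : Type} [Fintype C] [DecidableEq C] [Field K]

/-- Parameters of the three cluster system inside the global configuration. -/
def t1par (α : (C × Fin 3) ⊕ Fin 2 → K) (α' : C × Fin 3 → K) (c : Fin 3 → C) :
    Fin 2 × Fin 3 × Fin 3 → K :=
  fun t => if t.1 = 0 then α (.inl (c t.2.1, t.2.2)) else α' (c t.2.1, t.2.2)

/-- Parameters of the two cluster system inside the global configuration. -/
def p2par (α : (C × Fin 3) ⊕ Fin 2 → K) (α' : C × Fin 3 → K) (c : Fin 2 → C) : P2par → K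
  | .inl t => if t.1 = 0 then α (.inl (c t.2.1, t.2.2)) else α' (c t.2.1, t.2.2)
  | .inr w => α (.inr w)

/-- Parameters of the one cluster system inside the global configuration. -/
def p1par (α : (C × Fin 3) ⊕ Fin 2 → K) (α' : C × Fin 3 → K) (c : C) : P1par → K
  | .inl t => if t.1 = 0 then α (.inl (c, t.2)) else α' (c, t.2)
  | .inr w => α (.inr w)

theorem fin3_cases (i j : Fin 3) : j = i ∨ j = i + 1 ∨ j = i + 2 := by
  revert i j; decide

/-- Totally skew functions satisfying the base equations and the equations of the modified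
curves. -/
structure FSys (α : (C × Fin 3) ⊕ Fin 2 → K) (α' : C × Fin 3 → K)
    (F : (C × Fin 3) ⊕ Fin 2 → (C × Fin 3) ⊕ Fin 2 → (C × Fin 3) ⊕ Fin 2 → Fin 2 → K) : Prop where
  cyc : ∀ u a b f, F a b u f = F u a b f
  sw : ∀ u a b f, F u b a f = - F u a b f
  aa : ∀ u a f, F u a a f = 0
  row : ∀ u a, u ≠ a → ∀ f, ∑ b, F u a b f = 0
  R : ∀ (L : C) (a : (C × Fin 3) ⊕ Fin 2), (∀ i, a ≠ .inl (L, i)) → ∀ u,
      ∑ b : Fin 3, mm (fun i => α (.inl (L, i))) (fun i => α' (L, i)) b (α a) *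
        (F u a (.inl (L, b)) 0 + α u * F u a (.inl (L, b)) 1) = 0

namespace FSys

variable {α : (C × Fin 3) ⊕ Fin 2 → K} {α' : C × Fin 3 → K}
  {F : (C × Fin 3) ⊕ Fin 2 → (C × Fin 3) ⊕ Fin 2 → (C × Fin 3) ⊕ Fin 2 → Fin 2 → K}

theorem sw' (h : FSys α α' F) (u a b f) : F a u b f = - F u a b f := by
  rw [← h.cyc a u b f, h.sw]

theorem uu (h : FSys α α' F) (u a f) : F u u a f = 0 := by
  rw [h.cyc a u u, h.aa]

theorem uau (h : FSys α α' F) (u a f) : F u a u f = 0 := by
  rw [← h.cyc, h.aa]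

theorem perm1 (h : FSys α α' F) (u a b f) : F u a b f = F b u a f := h.cyc b u a f
theorem perm2 (h : FSys α α' F) (u a b f) : F u a b f = - F u b a f := h.sw u b a f
theorem perm3 (h : FSys α α' F) (u a b f) : F u a b f = - F a u b f := h.sw' a u b f
theorem perm4 (h : FSys α α' F) (u a b f) : F u a b f = F a b u f := (h.cyc u a b f).symm
theorem perm5 (h : FSys α α' F) (u a b f) : F u a b f = - F b a u f := by
  rw [h.perm2, ← h.cyc u b a]

theorem Rs (h : FSys α α' F) (L : C) (a : (C × Fin 3) ⊕ Fin 2) (ha : ∀ i, a ≠ .inl (L, i)) (u)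
    (G : Fin 3 → Fin 2 → K) (σ : K) (hG : ∀ b f, G b f = σ * F u a (.inl (L, b)) f) :
      ∑ b : Fin 3, mm (fun i => α (.inl (L, i))) (fun i => α' (L, i)) b (α a) *
        (G b 0 + α u * G b 1) = 0 := by
  have h := h.R L a ha u
  simp only [hG]
  have h' : σ * ∑ b : Fin 3, mm (fun i => α (.inl (L, i))) (fun i => α' (L, i)) b (α a) *
      (F u a (.inl (L, b)) 0 + α u * F u a (.inl (L, b)) 1) = 0 := by rw [h, mul_zero]
  rw [← h', Finset.mul_sum]
  exact Finset.sum_congr rfl fun b _ => by ring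

theorem Rc (h : FSys α α' F) (L : C) (a : (C × Fin 3) ⊕ Fin 2) (ha : ∀ i, a ≠ .inl (L, i))
    (i : Fin 3) (G : Fin 3 → Fin 2 → K) (σ : K)
    (h1 : ∀ f, G (i + 2) f = σ * F (.inl (L, i)) a (.inl (L, i + 1)) f)
    (h2 : ∀ f, G (i + 1) f = - σ * F (.inl (L, i)) a (.inl (L, i + 2)) f) :
      - mm (fun i => α (.inl (L, i))) (fun i => α' (L, i)) (i + 1) (α a) *
          (G (i + 2) 0 + α (.inl (L, i)) * G (i + 2) 1) +
        mm (fun i => α (.inl (L, i))) (fun i => α' (L, i)) (i + 2) (α a) *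
          (G (i + 1) 0 + α (.inl (L, i)) * G (i + 1) 1) = 0 := by
  have h := h.R L a ha (.inl (L, i))
  have h3 : ∑ b : Fin 3, mm (fun i => α (.inl (L, i))) (fun i => α' (L, i)) b (α a) *
      (F (.inl (L, i)) a (.inl (L, b)) 0 + α (.inl (L, i)) * F (.inl (L, i)) a (.inl (L, b)) 1) =
      mm (fun i => α (.inl (L, i))) (fun i => α' (L, i)) (i + 1) (α a) *
      (F (.inl (L, i)) a (.inl (L, i + 1)) 0 +
        α (.inl (L, i)) * F (.inl (L, i)) a (.inl (L, i + 1)) 1) +
      mm (fun i => α (.inl (L, i))) (fun i => α' (L, i)) (i + 2) (α a) *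
      (F (.inl (L, i)) a (.inl (L, i + 2)) 0 +
        α (.inl (L, i)) * F (.inl (L, i)) a (.inl (L, i + 2)) 1) := by
    have h0 : ∀ f, F (.inl (L, i)) a (.inl (L, i)) f = 0 := fun f => by
      rw [← (‹FSys α α' F›).cyc, (‹FSys α α' F›).aa]
    have hs : ∀ g : Fin 3 → K, ∑ b, g b = g i + g (i + 1) + g (i + 2) := by
      intro g
      rw [Fin.sum_univ_three]
      fin_cases i <;> simp <;> ring
    rw [hs, h0, h0]
    ring
  rw [h3] at h
  rw [h1, h1, h2, h2]
  linear_combination (- σ) * h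

theorem hne {J L : C} (i : Fin 3) (h : J ≠ L) (i' : Fin 3) :
    (Sum.inl (J, i) : (C × Fin 3) ⊕ Fin 2) ≠ .inl (L, i') := by
  intro h'
  simp only [Sum.inl.injEq, Prod.mk.injEq] at h'
  exact h h'.1

theorem hneinr (L : C) (w : Fin 2) (i : Fin 3) :
    (Sum.inr w : (C × Fin 3) ⊕ Fin 2) ≠ .inl (L, i) := by
  intro h; exact absurd h (by simp)

theorem three (h : FSys α α' F) (c : Fin 3 → C) (hc : Function.Injective c)
    (hT1 : ∀ v : T1 → K, (∀ e, rowEval (t1sys K (t1par α α' c) e) v = 0) → v = 0)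
    (x y z : Fin 3) (f : Fin 2) :
    F (.inl (c 0, x)) (.inl (c 1, y)) (.inl (c 2, z)) f = 0 := by
  have h01 : c 0 ≠ c 1 := fun h => by simpa using hc h
  have h02 : c 0 ≠ c 2 := fun h => by simpa using hc h
  have h12 : c 1 ≠ c 2 := fun h => by simpa using hc h
  have key := hT1
    (fun t => F (.inl (c 0, t.1)) (.inl (c 1, t.2.1)) (.inl (c 2, t.2.2.1)) t.2.2.2) ?_
  · exact congrFun key (x, y, z, f)
  rintro ⟨l, i, j, w⟩
  fin_cases l <;> fin_cases w <;> simp only [t1sys] <;>
    simp only [Fin.zero_eta, Fin.isValue, Fin.mk_one, if_true, one_ne_zero, if_false,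
      rowEval_rowM, t1par]
  · exact h.Rs (c 0) (.inl (c 2, j)) (hne j h02.symm) (.inl (c 1, i))
      (fun b f => F (.inl (c 0, b)) (.inl (c 1, i)) (.inl (c 2, j)) f) 1
      (fun b f => by rw [one_mul]; exact h.perm4 _ _ _ _)
  · exact h.Rs (c 0) (.inl (c 1, i)) (hne i h01.symm) (.inl (c 2, j))
      (fun b f => F (.inl (c 0, b)) (.inl (c 1, i)) (.inl (c 2, j)) f) (-1)
      (fun b f => by rw [neg_one_mul]; exact h.perm5 _ _ _ _)
  · exact h.Rs (c 1) (.inl (c 2, j)) (hne j h12.symm) (.inl (c 0, i))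
      (fun b f => F (.inl (c 0, i)) (.inl (c 1, b)) (.inl (c 2, j)) f) (-1)
      (fun b f => by rw [neg_one_mul]; exact h.perm2 _ _ _ _)
  · exact h.Rs (c 1) (.inl (c 0, i)) (hne i h01) (.inl (c 2, j))
      (fun b f => F (.inl (c 0, i)) (.inl (c 1, b)) (.inl (c 2, j)) f) 1
      (fun b f => by rw [one_mul]; exact h.perm1 _ _ _ _)
  · exact h.Rs (c 2) (.inl (c 1, j)) (hne j h12) (.inl (c 0, i))
      (fun b f => F (.inl (c 0, i)) (.inl (c 1, j)) (.inl (c 2, b)) f) 1
      (fun b f => by rw [one_mul])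
  · exact h.Rs (c 2) (.inl (c 0, i)) (hne i h02) (.inl (c 1, j))
      (fun b f => F (.inl (c 0, i)) (.inl (c 1, j)) (.inl (c 2, b)) f) (-1)
      (fun b f => by rw [neg_one_mul]; exact h.perm3 _ _ _ _)

theorem three' (h : FSys α α' F)
    (hT1 : ∀ c : Fin 3 → C, Function.Injective c →
      ∀ v : T1 → K, (∀ e, rowEval (t1sys K (t1par α α' c) e) v = 0) → v = 0)
    (J K' L : C) (h1 : J ≠ K') (h2 : J ≠ L) (h3 : K' ≠ L) (x y z : Fin 3) (f : Fin 2) :
    F (.inl (J, x)) (.inl (K', y)) (.inl (L, z)) f = 0 := by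
  have hc : Function.Injective ![J, K', L] := by
    intro i j
    fin_cases i <;> fin_cases j <;> simp [h1, h2, h3, h1.symm, h2.symm, h3.symm]
  exact h.three ![J, K', L] hc (hT1 _ hc) x y z f

/-- The vector of unknowns of the two cluster system. -/
def p2vec (F : (C × Fin 3) ⊕ Fin 2 → (C × Fin 3) ⊕ Fin 2 → (C × Fin 3) ⊕ Fin 2 → Fin 2 → K)
    (c : Fin 2 → C) : P2 → K := fun t =>
  ![F (.inl (c 0, t.2.1)) (.inl (c 1, t.2.2.1)) (.inr 0) t.2.2.2,
    F (.inl (c 0, t.2.1)) (.inl (c 1, t.2.2.1)) (.inr 1) t.2.2.2,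
    F (.inl (c 0, t.2.1 + 1)) (.inl (c 0, t.2.1 + 2)) (.inl (c 1, t.2.2.1)) t.2.2.2,
    F (.inl (c 0, t.2.1)) (.inl (c 1, t.2.2.1 + 1)) (.inl (c 1, t.2.2.1 + 2)) t.2.2.2] t.1

theorem two (h : FSys α α' F) (c : Fin 2 → C) (hc : Function.Injective c)
    (hT : ∀ L, c 0 ≠ L → c 1 ≠ L → ∀ x y z f,
      F (.inl (c 0, x)) (.inl (c 1, y)) (.inl (L, z)) f = 0)
    (hP2 : ∀ v : P2 → K, (∀ e, rowEval (p2sys K (p2par α α' c) e) v = 0) → v = 0) (t : P2) :
    p2vec F c t = 0 := by
  have h01 : c 0 ≠ c 1 := fun h => by simpa using hc h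
  refine congrFun (hP2 (p2vec F c) ?_) t
  rintro ⟨l, i, j, w⟩
  have hl : l = 0 ∨ l = 1 ∨ l = 2 ∨ l = 3 := by revert l; decide
  have v01 : ∀ (w : Fin 2) x y f, p2vec F c (w.castLE (by norm_num), x, y, f) =
      F (.inl (c 0, x)) (.inl (c 1, y)) (.inr w) f := by
    intro w x y f; fin_cases w <;> rfl
  have v2 : ∀ x y f, p2vec F c (2, x, y, f) =
      F (.inl (c 0, x + 1)) (.inl (c 0, x + 2)) (.inl (c 1, y)) f := fun _ _ _ => rfl
  have v3 : ∀ x y f, p2vec F c (3, x, y, f) =
      F (.inl (c 0, x)) (.inl (c 1, y + 1)) (.inl (c 1, y + 2)) f := fun _ _ _ => rfl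
  have i22 : ∀ i : Fin 3, i + 2 + 1 = i := by decide
  have i22' : ∀ i : Fin 3, i + 2 + 2 = i + 1 := by decide
  have i11 : ∀ i : Fin 3, i + 1 + 1 = i + 2 := by decide
  have i12 : ∀ i : Fin 3, i + 1 + 2 = i := by decide
  rcases hl with rfl | rfl | rfl | rfl
  · simp only [p2sys]
    split_ifs with h1 h2 h3
    · rw [rowEval_rowM]
      simp only [p2par, if_true, one_ne_zero, if_false, v01]
      exact h.Rs (c 0) (.inl (c 1, j)) (hne j h01.symm) (.inr w)
        (fun b f => F (.inl (c 0, b)) (.inl (c 1, j)) (.inr w) f) (-1)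
        (fun b f => by rw [neg_one_mul]; exact h.perm5 _ _ _ _)
    · rw [rowEval_rowM]
      simp only [p2par, if_true, one_ne_zero, if_false, v01]
      exact h.Rs (c 0) (.inr w) (hneinr _ _) (.inl (c 1, j))
        (fun b f => F (.inl (c 0, b)) (.inl (c 1, j)) (.inr w) f) 1
        (fun b f => by rw [one_mul]; exact h.perm4 _ _ _ _)
    · rw [rowEval_rowM]
      simp only [p2par, if_true, one_ne_zero, if_false, v3]
      exact h.Rs (c 0) (.inl (c 1, j + 1)) (hne _ h01.symm) (.inl (c 1, j + 2))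
        (fun b f => F (.inl (c 0, b)) (.inl (c 1, j + 1)) (.inl (c 1, j + 2)) f) (-1)
        (fun b f => by rw [neg_one_mul]; exact h.perm5 _ _ _ _)
    · rw [rowEval_rowM]
      simp only [p2par, if_true, one_ne_zero, if_false, v3]
      exact h.Rs (c 0) (.inl (c 1, j + 2)) (hne _ h01.symm) (.inl (c 1, j + 1))
        (fun b f => F (.inl (c 0, b)) (.inl (c 1, j + 1)) (.inl (c 1, j + 2)) f) 1
        (fun b f => by rw [one_mul]; exact h.perm4 _ _ _ _)
  · simp only [p2sys]
    split_ifs with h1 h2 h3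
    · rw [rowEval_rowM]
      simp only [p2par, if_true, one_ne_zero, if_false, v01]
      exact h.Rs (c 1) (.inl (c 0, j)) (hne j h01) (.inr w)
        (fun b f => F (.inl (c 0, j)) (.inl (c 1, b)) (.inr w) f) 1
        (fun b f => by rw [one_mul]; exact h.perm1 _ _ _ _)
    · rw [rowEval_rowM]
      simp only [p2par, if_true, one_ne_zero, if_false, v01]
      exact h.Rs (c 1) (.inr w) (hneinr _ _) (.inl (c 0, j))
        (fun b f => F (.inl (c 0, j)) (.inl (c 1, b)) (.inr w) f) (-1)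
        (fun b f => by rw [neg_one_mul]; exact h.perm2 _ _ _ _)
    · rw [rowEval_rowM]
      simp only [p2par, if_true, one_ne_zero, if_false, v2]
      exact h.Rs (c 1) (.inl (c 0, j + 1)) (hne _ h01) (.inl (c 0, j + 2))
        (fun b f => F (.inl (c 0, j + 1)) (.inl (c 0, j + 2)) (.inl (c 1, b)) f) (-1)
        (fun b f => by rw [neg_one_mul]; exact h.perm3 _ _ _ _)
    · rw [rowEval_rowM]
      simp only [p2par, if_true, one_ne_zero, if_false, v2]
      exact h.Rs (c 1) (.inl (c 0, j + 2)) (hne _ h01) (.inl (c 0, j + 1))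
        (fun b f => F (.inl (c 0, j + 1)) (.inl (c 0, j + 2)) (.inl (c 1, b)) f) 1
        (fun b f => by rw [one_mul])
  · simp only [p2sys]
    split_ifs with h1
    · rw [rowEval_rowC]
      simp only [p2par, if_true, one_ne_zero, if_false, v2]
      refine h.Rc (c 0) (.inl (c 1, j)) (hne j h01.symm) i
        (fun b f => F (.inl (c 0, b + 1)) (.inl (c 0, b + 2)) (.inl (c 1, j)) f) (-1) ?_ ?_
      · intro f
        rw [i22, i22', neg_one_mul]
        exact h.perm2 _ _ _ _
      · intro f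
        rw [i11, i12, neg_neg, one_mul]
        exact h.perm4 _ _ _ _
    · rw [rowEval_rowC]
      simp only [p2par, if_true, one_ne_zero, if_false, v3]
      refine h.Rc (c 1) (.inl (c 0, i)) (hne i h01) j
        (fun b f => F (.inl (c 0, i)) (.inl (c 1, b + 1)) (.inl (c 1, b + 2)) f) (-1) ?_ ?_
      · intro f
        rw [i22, i22', neg_one_mul]
        exact h.perm3 _ _ _ _
      · intro f
        rw [i11, i12, neg_neg, one_mul]
        exact h.perm1 _ _ _ _
  · simp only [p2sys, rowEval_cons, rowEval_nil, v2, v3, i22, i22', i11, i12]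
    have v0 : ∀ x y f, p2vec F c (0, x, y, f) =
      F (.inl (c 0, x)) (.inl (c 1, y)) (.inr 0) f := fun _ _ _ => rfl
    have v1 : ∀ x y f, p2vec F c (1, x, y, f) =
      F (.inl (c 0, x)) (.inl (c 1, y)) (.inr 1) f := fun _ _ _ => rfl
    rw [v0, v1]
    have h5 := h.row (.inl (c 0, i)) (.inl (c 1, j)) (hne i h01 j) w
    rw [Fintype.sum_sum_type, Fintype.sum_prod_type, Fin.sum_univ_two] at h5
    have h6 : ∑ L : C, ∑ z : Fin 3, F (.inl (c 0, i)) (.inl (c 1, j)) (.inl (L, z)) w =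
        (∑ z : Fin 3, F (.inl (c 0, i)) (.inl (c 1, j)) (.inl (c 0, z)) w) +
        ∑ z : Fin 3, F (.inl (c 0, i)) (.inl (c 1, j)) (.inl (c 1, z)) w := by
      rw [← Finset.sum_subset (Finset.subset_univ {c 0, c 1}), Finset.sum_pair h01]
      intro L _ hL
      simp only [Finset.mem_insert, Finset.mem_singleton, not_or] at hL
      exact Finset.sum_eq_zero fun z _ => hT L (Ne.symm hL.1) (Ne.symm hL.2) i j z w
    have hs : ∀ (i : Fin 3) (g : Fin 3 → K), ∑ b, g b = g i + g (i + 1) + g (i + 2) := by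
      intro i g
      rw [Fin.sum_univ_three]
      fin_cases i <;> simp <;> ring
    rw [h6, hs i, hs j, h.aa, h.uau] at h5
    have e1 : F (.inl (c 0, i)) (.inl (c 0, i + 1)) (.inl (c 1, j)) w =
      - F (.inl (c 0, i)) (.inl (c 1, j)) (.inl (c 0, i + 1)) w := h.perm2 _ _ _ _
    have e2 : F (.inl (c 0, i + 2)) (.inl (c 0, i)) (.inl (c 1, j)) w =
      F (.inl (c 0, i)) (.inl (c 1, j)) (.inl (c 0, i + 2)) w := h.perm4 _ _ _ _
    have e3 : F (.inl (c 0, i)) (.inl (c 1, j + 2)) (.inl (c 1, j)) w =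
      - F (.inl (c 0, i)) (.inl (c 1, j)) (.inl (c 1, j + 2)) w := h.perm2 _ _ _ _
    rw [e1, e2, e3]
    linear_combination h5

/-- The vector of unknowns of the one cluster system. -/
def p1vec (F : (C × Fin 3) ⊕ Fin 2 → (C × Fin 3) ⊕ Fin 2 → (C × Fin 3) ⊕ Fin 2 → Fin 2 → K)
    (J : C) : P1 → K
  | (none, f) => F (.inl (J, 0)) (.inl (J, 1)) (.inl (J, 2)) f
  | (some (i, 0), f) => F (.inl (J, i + 1)) (.inl (J, i + 2)) (.inr 0) f
  | (some (i, 1), f) => F (.inl (J, i + 1)) (.inl (J, i + 2)) (.inr 1) f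
  | (some (i, 2), f) => F (.inl (J, i)) (.inr 0) (.inr 1) f

theorem one (h : FSys α α' F) (J : C)
    (hD : ∀ L, L ≠ J → ∀ x y z f, F (.inl (J, x)) (.inl (J, y)) (.inl (L, z)) f = 0)
    (hE : ∀ L, L ≠ J → ∀ x w z f, F (.inl (J, x)) (.inr w) (.inl (L, z)) f = 0)
    (hP1 : ∀ v : P1 → K, (∀ e, rowEval (p1sys K (p1par α α' J) e) v = 0) → v = 0) (t : P1) :
    p1vec F J t = 0 := by
  refine congrFun (hP1 (p1vec F J) ?_) t
  have v01 : ∀ (w : Fin 2) x f, p1vec F J (some (x, w.castLE (by norm_num)), f) =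
      F (.inl (J, x + 1)) (.inl (J, x + 2)) (.inr w) f := by
    intro w x f; fin_cases w <;> rfl
  have v0 : ∀ x f, p1vec F J (some (x, 0), f) =
      F (.inl (J, x + 1)) (.inl (J, x + 2)) (.inr 0) f := fun _ _ => rfl
  have v1 : ∀ x f, p1vec F J (some (x, 1), f) =
      F (.inl (J, x + 1)) (.inl (J, x + 2)) (.inr 1) f := fun _ _ => rfl
  have v2 : ∀ x f, p1vec F J (some (x, 2), f) =
      F (.inl (J, x)) (.inr 0) (.inr 1) f := fun _ _ => rfl
  have vn : ∀ f, p1vec F J (none, f) = F (.inl (J, 0)) (.inl (J, 1)) (.inl (J, 2)) f :=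
    fun _ => rfl
  have i22 : ∀ i : Fin 3, i + 2 + 1 = i := by decide
  have i22' : ∀ i : Fin 3, i + 2 + 2 = i + 1 := by decide
  have i11 : ∀ i : Fin 3, i + 1 + 1 = i + 2 := by decide
  have i12 : ∀ i : Fin 3, i + 1 + 2 = i := by decide
  have hs : ∀ (i : Fin 3) (g : Fin 3 → K), ∑ b, g b = g i + g (i + 1) + g (i + 2) := by
    intro i g
    rw [Fin.sum_univ_three]
    fin_cases i <;> simp <;> ring
  rintro ⟨o, w⟩
  match o with
  | none =>
    simp only [p1sys]
    rw [rowEval_rowM]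
    simp only [p1par, if_true, one_ne_zero, if_false, v2]
    fin_cases w
    · exact h.Rs J (.inr 0) (hneinr _ _) (.inr 1)
        (fun b f => F (.inl (J, b)) (.inr 0) (.inr 1) f) (-1)
        (fun b f => by rw [neg_one_mul]; exact h.perm5 _ _ _ _)
    · exact h.Rs J (.inr 1) (hneinr _ _) (.inr 0)
        (fun b f => F (.inl (J, b)) (.inr 0) (.inr 1) f) 1
        (fun b f => by rw [one_mul]; exact h.perm4 _ _ _ _)
  | some (i, 0) =>
    simp only [p1sys]
    rw [rowEval_rowC]
    simp only [p1par, if_true, one_ne_zero, if_false, v01]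
    refine h.Rc J (.inr w) (hneinr _ _) i
      (fun b f => F (.inl (J, b + 1)) (.inl (J, b + 2)) (.inr w) f) (-1) ?_ ?_
    · intro f
      rw [i22, i22', neg_one_mul]
      exact h.perm2 _ _ _ _
    · intro f
      rw [i11, i12, neg_neg, one_mul]
      exact h.perm4 _ _ _ _
  | some (i, 1) =>
    simp only [p1sys, rowEval_cons, rowEval_nil, v0, v1, vn, i22, i22']
    have h5 := h.row (.inl (J, i)) (.inl (J, i + 1)) (by simp) w
    rw [Fintype.sum_sum_type, Fintype.sum_prod_type, Fin.sum_univ_two,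
      Finset.sum_eq_single J (fun L _ hL => Finset.sum_eq_zero fun z _ => hD L hL i (i + 1) z w)
        (by simp), hs i, h.aa, h.uau] at h5
    have e1 : F (.inl (J, 0)) (.inl (J, 1)) (.inl (J, 2)) w =
        F (.inl (J, i)) (.inl (J, i + 1)) (.inl (J, i + 2)) w := by
      fin_cases i
      · rfl
      · exact h.perm4 _ _ _ _
      · exact h.perm1 _ _ _ _
    rw [e1]
    linear_combination h5
  | some (i, 2) =>
    simp only [p1sys, rowEval_cons, rowEval_nil, v0, v2, i22, i22', i11, i12]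
    have h5 := h.row (.inl (J, i)) (.inr 0) (by simp) w
    rw [Fintype.sum_sum_type, Fintype.sum_prod_type, Fin.sum_univ_two,
      Finset.sum_eq_single J (fun L _ hL => Finset.sum_eq_zero fun z _ => hE L hL i 0 z w)
        (by simp), hs i, h.aa, h.uau] at h5
    have e1 : F (.inl (J, i)) (.inl (J, i + 1)) (.inr 0) w =
      - F (.inl (J, i)) (.inr 0) (.inl (J, i + 1)) w := h.perm2 _ _ _ _
    have e2 : F (.inl (J, i + 2)) (.inl (J, i)) (.inr 0) w =
      F (.inl (J, i)) (.inr 0) (.inl (J, i + 2)) w := h.perm4 _ _ _ _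
    rw [e1, e2]
    linear_combination h5

/-- All values vanish. -/
theorem all_zero (h : FSys α α' F)
    (hT1 : ∀ c : Fin 3 → C, Function.Injective c →
      ∀ v : T1 → K, (∀ e, rowEval (t1sys K (t1par α α' c) e) v = 0) → v = 0)
    (hP2 : ∀ c : Fin 2 → C, Function.Injective c →
      ∀ v : P2 → K, (∀ e, rowEval (p2sys K (p2par α α' c) e) v = 0) → v = 0)
    (hP1 : ∀ c : C,
      ∀ v : P1 → K, (∀ e, rowEval (p1sys K (p1par α α' c) e) v = 0) → v = 0)
    (u a b : (C × Fin 3) ⊕ Fin 2) (f : Fin 2) : F u a b f = 0 := by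
  have n0 : ∀ {x : K}, x = 0 → -x = 0 := fun hx => by rw [hx, neg_zero]
  -- three distinct clusters
  have h3 := h.three' hT1
  -- two distinct clusters
  have h2 : ∀ J L : C, J ≠ L → ∀ t, p2vec F ![J, L] t = 0 := by
    intro J L hJL
    have hc : Function.Injective ![J, L] := by
      intro i j
      fin_cases i <;> fin_cases j <;> simp [hJL, hJL.symm]
    exact h.two ![J, L] hc (fun M h1 h2 x y z f => h3 J L M hJL h1 h2 x y z f) (hP2 _ hc)
  have i22 : ∀ i : Fin 3, i + 2 + 1 = i := by decide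
  have i22' : ∀ i : Fin 3, i + 2 + 2 = i + 1 := by decide
  have i11 : ∀ i : Fin 3, i + 1 + 1 = i + 2 := by decide
  have i12 : ∀ i : Fin 3, i + 1 + 2 = i := by decide
  have hJJL : ∀ J L : C, J ≠ L → ∀ x y z f,
      F (.inl (J, x)) (.inl (J, y)) (.inl (L, z)) f = 0 := by
    intro J L hJL x y z f
    rcases fin3_cases x y with rfl | rfl | rfl
    · exact h.uu _ _ _
    · have h4 := h2 J L hJL (2, x + 2, z, f)
      have h5 : p2vec F ![J, L] (2, x + 2, z, f) =
        F (.inl (J, x + 2 + 1)) (.inl (J, x + 2 + 2)) (.inl (L, z)) f := rfl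
      rw [h5, i22, i22'] at h4
      exact h4
    · have h4 := h2 J L hJL (2, x + 1, z, f)
      have h5 : p2vec F ![J, L] (2, x + 1, z, f) =
        F (.inl (J, x + 1 + 1)) (.inl (J, x + 1 + 2)) (.inl (L, z)) f := rfl
      rw [h5, i11, i12] at h4
      rw [h.perm3, h4, neg_zero]
  have hJLw : ∀ J L : C, J ≠ L → ∀ x y w f,
      F (.inl (J, x)) (.inl (L, y)) (.inr w) f = 0 := by
    intro J L hJL x y w f
    fin_cases w
    · exact h2 J L hJL (0, x, y, f)
    · exact h2 J L hJL (1, x, y, f)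
  -- one cluster
  have h1 : ∀ J : C, ∀ t, p1vec F J t = 0 := by
    intro J
    refine h.one J (fun L hL => hJJL J L hL.symm) ?_ (hP1 J)
    intro L hL x w z f
    rw [h.perm2, hJLw J L hL.symm, neg_zero]
  have hJJw : ∀ J : C, ∀ x y w f, F (.inl (J, x)) (.inl (J, y)) (.inr w) f = 0 := by
    intro J x y w f
    rcases fin3_cases x y with rfl | rfl | rfl
    · exact h.uu _ _ _
    · fin_cases w
      · have h4 : F (.inl (J, x + 2 + 1)) (.inl (J, x + 2 + 2)) (.inr 0) f = 0 :=
          h1 J (some (x + 2, 0), f)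
        rw [i22, i22'] at h4
        exact h4
      · have h4 : F (.inl (J, x + 2 + 1)) (.inl (J, x + 2 + 2)) (.inr 1) f = 0 :=
          h1 J (some (x + 2, 1), f)
        rw [i22, i22'] at h4
        exact h4
    · rw [h.perm3]
      refine n0 ?_
      fin_cases w
      · have h4 : F (.inl (J, x + 1 + 1)) (.inl (J, x + 1 + 2)) (.inr 0) f = 0 :=
          h1 J (some (x + 1, 0), f)
        rw [i11, i12] at h4
        exact h4
      · have h4 : F (.inl (J, x + 1 + 1)) (.inl (J, x + 1 + 2)) (.inr 1) f = 0 :=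
          h1 J (some (x + 1, 1), f)
        rw [i11, i12] at h4
        exact h4
  have hJww : ∀ J : C, ∀ x w w' f, F (.inl (J, x)) (.inr w) (.inr w') f = 0 := by
    intro J x w w' f
    have h4 : F (.inl (J, x)) (.inr 0) (.inr 1) f = 0 := h1 J (some (x, 2), f)
    fin_cases w <;> fin_cases w'
    · exact h.aa _ _ _
    · exact h4
    · exact (h.perm2 _ _ _ _).trans (n0 h4)
    · exact h.aa _ _ _
  have hwww : ∀ w w' w'' : Fin 2, ∀ f, F (.inr w) (.inr w') (.inr w'') f = 0 := by
    intro w w' w'' f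
    have : w = w' ∨ w = w'' ∨ w' = w'' := by revert w w' w''; decide
    rcases this with rfl | rfl | rfl
    · exact h.uu _ _ _
    · exact h.uau _ _ _
    · exact h.aa _ _ _
  have hJJJ : ∀ J : C, ∀ x y z f, F (.inl (J, x)) (.inl (J, y)) (.inl (J, z)) f = 0 := by
    intro J x y z f
    have h4 : F (.inl (J, 0)) (.inl (J, 1)) (.inl (J, 2)) f = 0 := h1 J (none, f)
    have e : ∀ x y z : Fin 3, x = y ∨ x = z ∨ y = z ∨ (x = 0 ∧ y = 1 ∧ z = 2) ∨
      (x = 1 ∧ y = 2 ∧ z = 0) ∨ (x = 2 ∧ y = 0 ∧ z = 1) ∨ (x = 0 ∧ y = 2 ∧ z = 1) ∨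
      (x = 1 ∧ y = 0 ∧ z = 2) ∨ (x = 2 ∧ y = 1 ∧ z = 0) := by decide
    rcases e x y z with rfl | rfl | rfl | ⟨rfl, rfl, rfl⟩ | ⟨rfl, rfl, rfl⟩ | ⟨rfl, rfl, rfl⟩ |
      ⟨rfl, rfl, rfl⟩ | ⟨rfl, rfl, rfl⟩ | ⟨rfl, rfl, rfl⟩
    · exact h.uu _ _ _
    · exact h.uau _ _ _
    · exact h.aa _ _ _
    · exact h4
    · rw [h.perm1]; exact h4
    · rw [h.perm4]; exact h4
    · rw [h.perm2]; exact n0 h4
    · rw [h.perm3]; exact n0 h4
    · rw [h.perm5]; exact n0 h4
  have hccc : ∀ J L M : C, ∀ x y z f, F (.inl (J, x)) (.inl (L, y)) (.inl (M, z)) f = 0 := by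
    intro J L M x y z f
    by_cases hJL : J = L
    · subst hJL
      by_cases hJM : J = M
      · subst hJM; exact hJJJ J x y z f
      · exact hJJL J M hJM x y z f
    · by_cases hJM : J = M
      · subst hJM
        rw [h.perm2]
        exact n0 (hJJL J L hJL x z y f)
      · by_cases hLM : L = M
        · subst hLM
          rw [h.perm4]
          exact hJJL L J (Ne.symm hJL) y z x f
        · exact h3 J L M hJL hJM hLM x y z f
  have hccw : ∀ J L : C, ∀ x y w f, F (.inl (J, x)) (.inl (L, y)) (.inr w) f = 0 := by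
    intro J L x y w f
    by_cases hJL : J = L
    · subst hJL; exact hJJw J x y w f
    · exact hJLw J L hJL x y w f
  rcases u with ⟨J, x⟩ | w <;> rcases a with ⟨L, y⟩ | w' <;> rcases b with ⟨M, z⟩ | w''
  · exact hccc J L M x y z f
  · exact hccw J L x y w'' f
  · rw [h.perm2]; exact n0 (hccw J M x z w' f)
  · exact hJww J x w' w'' f
  · rw [h.perm4]; exact hccw L M y z w f
  · rw [h.perm4]; exact hJww L y w'' w f
  · rw [h.perm1]; exact hJww M z w w' f
  · exact hwww w w' w'' f

end FSys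


theorem fsys_of_core_eqs (α : (C × Fin 3) ⊕ Fin 2 → K) (α' : C × Fin 3 → K)
    (hα : Function.Injective α) (hα' : ∀ J, Function.Injective (clusterParam α α' (some J)))
    (ω : (C × Fin 3) ⊕ Fin 2 → (C × Fin 3) ⊕ Fin 2 → (C × Fin 3) ⊕ Fin 2 → K)
    (hsym : ∀ u a b, ω u a b = ω u b a) (haa : ∀ u a, ω u a a = 0) (huu : ∀ u a, ω u u a = 0)
    (hcyc : ∀ u a b, ω u a b + ω a b u + ω b u a = 0)
    (heq : ∀ j u a, ∑ b ∈ univ.erase a, ω u a b *
      ∏ c ∈ (univ.erase a).erase b, (clusterParam α α' j a - clusterParam α α' j c) = 0) :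
    FSys α α' (skewF α ω) := by
  set F := skewF α ω with hF
  have Fcyc : ∀ u a b f, F a b u f = F u a b f := skewF_cyc α ω
  have Fsw : ∀ u a b f, F u b a f = - F u a b f := skewF_swap α ω hsym
  have Fsw' : ∀ u a b f, F a u b f = - F u a b f := by
    intro u a b f
    rw [← Fcyc a u b f, Fsw]
  have Faa : ∀ u a f, F u a a f = 0 := by
    intro u a f; simp [hF, skewF]
  have Frel : ∀ u a b, ω u a b = (α a - α b) * (F u a b 0 + α u * F u a b 1) :=
    skewF_rel α ω hα hsym haa huu hcyc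
  -- base equations
  have hbase : ∀ u a, ∑ b, (F u a b 0 + α u * F u a b 1) = 0 := by
    intro u a
    have h1 := sum_div_eq_zero α hα (fun b => ω u a b) a (heq none u a)
    rw [← Finset.add_sum_erase _ _ (Finset.mem_univ a), Faa, Faa, mul_zero, add_zero, zero_add]
    refine Eq.trans (Finset.sum_congr rfl fun b hb => ?_) h1
    have : α a - α b ≠ 0 := sub_ne_zero.mpr fun h => (Finset.ne_of_mem_erase hb) (hα h).symm
    rw [Frel u a b]
    field_simp
  have hrow1 : ∀ u a, u ≠ a → ∑ b, F u a b 1 = 0 := by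
    intro u a hua
    have h1 := hbase u a
    have h2 := hbase a u
    rw [Finset.sum_add_distrib, ← Finset.mul_sum] at h1 h2
    have h3 : ∀ f, ∑ b, F a u b f = - ∑ b, F u a b f := by
      intro f
      rw [← Finset.sum_neg_distrib]
      exact Finset.sum_congr rfl fun b _ => Fsw' u a b f
    rw [h3, h3] at h2
    have h4 : (α u - α a) * ∑ b, F u a b 1 = 0 := by linear_combination h1 + h2
    exact (mul_eq_zero.mp h4).resolve_left (sub_ne_zero.mpr fun h => hua (hα h))
  have hrow0 : ∀ u a, u ≠ a → ∑ b, F u a b 0 = 0 := by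
    intro u a hua
    have h1 := hbase u a
    rw [Finset.sum_add_distrib, ← Finset.mul_sum, hrow1 u a hua] at h1
    simpa using h1
  refine ⟨Fcyc, Fsw, Faa, ?_, ?_⟩
  · intro u a hua f
    fin_cases f
    · exact hrow0 u a hua
    · exact hrow1 u a hua
  -- the equations of the modified curves
  · intro L a ha u
    set β := clusterParam α α' (some L) with hβ
    have hβa : β a = α a := by
      rcases a with ⟨c, i⟩ | w
      · have : c ≠ L := fun h => ha i (by rw [h])
        simp [hβ, clusterParam, this]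
      · rfl
    have h0 := sum_div_eq_zero α hα (fun b => ω u a b) a (heq none u a)
    have h1 := sum_div_eq_zero β (hα' L) (fun b => ω u a b) a (heq (some L) u a)
    rw [hβa] at h1
    have h2 : ∑ b, ω u a b * (1 / (α a - α b) - 1 / (α a - β b)) = 0 := by
      rw [← Finset.add_sum_erase _ _ (Finset.mem_univ a), haa, zero_mul, zero_add]
      rw [← sub_eq_zero.mpr (h0.trans h1.symm), ← Finset.sum_sub_distrib]
      refine Finset.sum_congr rfl fun b _ => ?_
      ring
    rw [Fintype.sum_sum_type, Fintype.sum_prod_type] at h2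
    have h3 : ∑ w : Fin 2, ω u a (.inr w) * (1 / (α a - α (.inr w)) - 1 / (α a - β (.inr w))) = 0 := by
      refine Finset.sum_eq_zero fun w _ => ?_
      simp [hβ, clusterParam]
    rw [h3, add_zero, Finset.sum_eq_single L] at h2
    · have hP : ∀ i : Fin 3, α a - α' (L, i) ≠ 0 := by
        intro i
        rw [← hβa]
        have : α' (L, i) = β (.inl (L, i)) := by simp [hβ, clusterParam]
        rw [this]
        exact sub_ne_zero.mpr fun h => ha i (hα' L h)
      have hQ : ∀ i : Fin 3, α a - α (.inl (L, i)) ≠ 0 := by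
        intro i
        exact sub_ne_zero.mpr fun h => ha i (hα h)
      have hβL : ∀ i, β (.inl (L, i)) = α' (L, i) := by
        intro i; simp [hβ, clusterParam]
      simp only [hβL, Frel] at h2
      simp only [Fin.sum_univ_three, mm] at h2 ⊢
      have hP0 := hP 0
      have hP1 := hP 1
      have hP2 := hP 2
      have hQ0 := hQ 0
      have hQ1 := hQ 1
      have hQ2 := hQ 2
      have e1 : (0 + 1 : Fin 3) = 1 := rfl
      have e2 : (0 + 2 : Fin 3) = 2 := rfl
      have e3 : (1 + 1 : Fin 3) = 2 := rfl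
      have e4 : (1 + 2 : Fin 3) = 0 := rfl
      have e5 : (2 + 1 : Fin 3) = 0 := rfl
      have e6 : (2 + 2 : Fin 3) = 1 := rfl
      rw [e1, e2, e3, e4, e5, e6]
      have key : ∀ X x y : K, α a - x ≠ 0 → α a - y ≠ 0 →
          (α a - x) * X * (1 / (α a - x) - 1 / (α a - y)) = (x - y) * X / (α a - y) := by
        intro X x y hx hy
        field_simp
        ring
      rw [key _ _ _ hQ0 hP0, key _ _ _ hQ1 hP1, key _ _ _ hQ2 hP2] at h2
      rw [div_add_div _ _ hP0 hP1, div_add_div _ _ (mul_ne_zero hP0 hP1) hP2, div_eq_zero_iff] at h2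
      have h4 := h2.resolve_right (mul_ne_zero (mul_ne_zero hP0 hP1) hP2)
      linear_combination h4
    · intro c _ hc
      refine Finset.sum_eq_zero fun i _ => ?_
      simp [hβ, clusterParam, hc]
    · simp

theorem core_cluster (α : (C × Fin 3) ⊕ Fin 2 → K) (α' : C × Fin 3 → K)
    (hα : Function.Injective α) (hα' : ∀ J, Function.Injective (clusterParam α α' (some J)))
    (hT1 : ∀ c : Fin 3 → C, Function.Injective c →
      ∀ v : T1 → K, (∀ e, rowEval (t1sys K (t1par α α' c) e) v = 0) → v = 0)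
    (hP2 : ∀ c : Fin 2 → C, Function.Injective c →
      ∀ v : P2 → K, (∀ e, rowEval (p2sys K (p2par α α' c) e) v = 0) → v = 0)
    (hP1 : ∀ c : C,
      ∀ v : P1 → K, (∀ e, rowEval (p1sys K (p1par α α' c) e) v = 0) → v = 0) :
    Core (clusterParam α α') := by
  intro ω hsym haa huu hcyc heq u a b
  have h := fsys_of_core_eqs α α' hα hα' ω hsym haa huu hcyc heq
  rw [skewF_rel α ω hα hsym haa huu hcyc u a b, h.all_zero hT1 hP2 hP1,
    h.all_zero hT1 hP2 hP1]
  ring

theorem aeval_intCast {σ : Type*} {R : Type*} [CommRing R] (y : σ → ℤ) (Φ : MvPolynomial σ ℤ) :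
    MvPolynomial.aeval (fun i => (y i : R)) Φ = ((MvPolynomial.eval y Φ : ℤ) : R) := by
  induction Φ using MvPolynomial.induction_on with
  | C a => simp
  | add p q hp hq => rw [map_add, map_add, Int.cast_add, hp, hq]
  | mul_X p n hp => rw [map_mul, map_mul, Int.cast_mul, hp]; simp

/-- Variables of the special configuration. -/
abbrev SVar (C : Type) := ((C × Fin 3) ⊕ Fin 2) ⊕ (C × Fin 3)

/-- There is a rational special configuration satisfying the core statement. -/
theorem exists_core_cluster (C : Type) [Fintype C] [DecidableEq C] :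
    ∃ (α : (C × Fin 3) ⊕ Fin 2 → ℚ) (α' : C × Fin 3 → ℚ),
      (∀ j, Function.Injective (clusterParam α α' j)) ∧ Core (clusterParam α α') := by
  obtain ⟨Φ1, hΦ1, h1⟩ := t1_generic
  obtain ⟨Φ2, hΦ2, h2⟩ := p2_generic
  obtain ⟨Φ3, hΦ3, h3⟩ := p1_generic
  -- generic polynomials
  let g1 : (Fin 3 → C) → Fin 2 × Fin 3 × Fin 3 → SVar C := fun c t =>
    if t.1 = 0 then .inl (.inl (c t.2.1, t.2.2)) else .inr (c t.2.1, t.2.2)
  let g2 : (Fin 2 → C) → P2par → SVar C := fun c t => match t with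
    | .inl t => if t.1 = 0 then .inl (.inl (c t.2.1, t.2.2)) else .inr (c t.2.1, t.2.2)
    | .inr w => .inl (.inr w)
  let g3 : C → P1par → SVar C := fun c t => match t with
    | .inl t => if t.1 = 0 then .inl (.inl (c, t.2)) else .inr (c, t.2)
    | .inr w => .inl (.inr w)
  have hg1 : ∀ c, Function.Injective c → Function.Injective (g1 c) := by
    rintro c hc ⟨a, l, i⟩ ⟨a', l', i'⟩ h
    fin_cases a <;> fin_cases a' <;> simp [g1] at h ⊢
    · exact ⟨hc h.1, h.2⟩
    · exact ⟨hc h.1, h.2⟩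
  have hg2 : ∀ c, Function.Injective c → Function.Injective (g2 c) := by
    rintro c hc (⟨a, l, i⟩ | w) (⟨a', l', i'⟩ | w') h
    · fin_cases a <;> fin_cases a' <;> simp [g2] at h ⊢
      · exact ⟨hc h.1, h.2⟩
      · exact ⟨hc h.1, h.2⟩
    · fin_cases a <;> simp [g2] at h
    · fin_cases a' <;> simp [g2] at h
    · simpa [g2] using h
  have hg3 : ∀ c, Function.Injective (g3 c) := by
    rintro c (⟨a, i⟩ | w) (⟨a', i'⟩ | w') h
    · fin_cases a <;> fin_cases a' <;> simp [g3] at h ⊢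
      · exact h
      · exact h
    · fin_cases a <;> simp [g3] at h
    · fin_cases a' <;> simp [g3] at h
    · simpa [g3] using h
  let X' : SVar C → MvPolynomial (SVar C) ℤ := MvPolynomial.X
  let Ψ : MvPolynomial (SVar C) ℤ :=
    (∏ c : {c : Fin 3 → C // Function.Injective c}, MvPolynomial.rename (g1 c) Φ1) *
    (∏ c : {c : Fin 2 → C // Function.Injective c}, MvPolynomial.rename (g2 c) Φ2) *
    (∏ c : C, MvPolynomial.rename (g3 c) Φ3) *
    (∏ q : {q : SVar C × SVar C // q.1 ≠ q.2}, (X' q.1.1 - X' q.1.2))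
  have hΨ : Ψ ≠ 0 := by
    refine mul_ne_zero (mul_ne_zero (mul_ne_zero ?_ ?_) ?_) ?_ <;>
      rw [Finset.prod_ne_zero_iff]
    · intro c _ h
      exact hΦ1 ((MvPolynomial.rename_injective _ (hg1 c c.2)) (by rw [h, map_zero]))
    · intro c _ h
      exact hΦ2 ((MvPolynomial.rename_injective _ (hg2 c c.2)) (by rw [h, map_zero]))
    · intro c _ h
      exact hΦ3 ((MvPolynomial.rename_injective _ (hg3 c)) (by rw [h, map_zero]))
    · intro q _
      rw [sub_ne_zero]
      intro h
      exact q.2 (MvPolynomial.X_injective h)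
  obtain ⟨x, hx⟩ : ∃ x : SVar C → ℤ, MvPolynomial.eval x Ψ ≠ 0 := by
    by_contra hcon
    push Not at hcon
    exact hΨ (MvPolynomial.funext fun x => by rw [hcon x, map_zero])
  simp only [Ψ, map_mul, map_prod, mul_ne_zero_iff, Finset.prod_ne_zero_iff,
    MvPolynomial.eval_rename, map_sub] at hx
  obtain ⟨⟨⟨hx1, hx2⟩, hx3⟩, hx4⟩ := hx
  have hinj : ∀ p q : SVar C, p ≠ q → (x p : ℚ) ≠ x q := by
    intro p q hpq h
    have h' : x p = x q := by exact_mod_cast h
    refine hx4 ⟨(p, q), hpq⟩ (Finset.mem_univ _) ?_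
    simp [X', h']
  have hev : ∀ {σ : Type} (Φ : MvPolynomial σ ℤ) (y : σ → ℤ), MvPolynomial.eval y Φ ≠ 0 →
      MvPolynomial.aeval (fun i => (y i : ℚ)) Φ ≠ 0 := by
    intro σ Φ y hy h
    apply hy
    rw [aeval_intCast] at h
    exact_mod_cast h
  have hα : Function.Injective (fun b : (C × Fin 3) ⊕ Fin 2 => (x (.inl b) : ℚ)) := by
    intro p q h
    by_contra hpq
    exact hinj (.inl p) (.inl q) (fun h => hpq (Sum.inl_injective h)) h
  have hinj' : ∀ j, Function.Injective (clusterParam (fun b => (x (.inl b) : ℚ))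
      (fun t => (x (.inr t) : ℚ)) j) := by
    intro j
    match j with
    | none => exact hα
    | some J =>
      let e : (C × Fin 3) ⊕ Fin 2 → SVar C := fun b => match b with
        | .inl t => if t.1 = J then .inr t else .inl (.inl t)
        | .inr w => .inl (.inr w)
      have he : Function.Injective e := by
        rintro (t | w) (t' | w') h
        · by_cases h1 : t.1 = J <;> by_cases h2 : t'.1 = J <;> simp [e, h1, h2] at h ⊢
          · exact h
          · exact h
        · by_cases h1 : t.1 = J <;> simp [e, h1] at h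
        · by_cases h1 : t'.1 = J <;> simp [e, h1] at h
        · simpa [e] using h
      have hcl : ∀ b, clusterParam (fun b => (x (.inl b) : ℚ)) (fun t => (x (.inr t) : ℚ)) (some J) b
          = (x (e b) : ℚ) := by
        rintro (t | w)
        · by_cases h1 : t.1 = J <;> simp [e, h1, clusterParam]
        · rfl
      intro p q h
      rw [hcl, hcl] at h
      by_contra hpq
      exact hinj _ _ (fun h' => hpq (he h')) h
  refine ⟨fun b => x (.inl b), fun t => x (.inr t), hinj', ?_⟩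
  refine core_cluster _ _ hα (fun J => hinj' (some J)) ?_ ?_ ?_
  · intro c hc v
    refine h1 ℚ _ ?_ v
    have h5 := hev Φ1 (x ∘ g1 c) (hx1 ⟨c, hc⟩ (Finset.mem_univ _))
    have h6 : (fun i => (((x ∘ g1 c) i : ℤ) : ℚ)) =
        t1par (fun b => (x (.inl b) : ℚ)) (fun t => (x (.inr t) : ℚ)) c := by
      funext t
      by_cases ht : t.1 = 0 <;> simp [g1, t1par, ht]
    rwa [h6] at h5
  · intro c hc v
    refine h2 ℚ _ ?_ v
    have h5 := hev Φ2 (x ∘ g2 c) (hx2 ⟨c, hc⟩ (Finset.mem_univ _))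
    have h6 : (fun i => (((x ∘ g2 c) i : ℤ) : ℚ)) =
        p2par (fun b => (x (.inl b) : ℚ)) (fun t => (x (.inr t) : ℚ)) c := by
      funext t
      rcases t with t | w
      · by_cases ht : t.1 = 0 <;> simp [g2, p2par, ht]
      · simp [g2, p2par]
    rwa [h6] at h5
  · intro c v
    refine h3 ℚ _ ?_ v
    have h5 := hev Φ3 (x ∘ g3 c) (hx3 c (Finset.mem_univ _))
    have h6 : (fun i => (((x ∘ g3 c) i : ℤ) : ℚ)) =
        p1par (fun b => (x (.inl b) : ℚ)) (fun t => (x (.inr t) : ℚ)) c := by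
      funext t
      rcases t with t | w
      · by_cases ht : t.1 = 0 <;> simp [g3, p1par, ht]
      · simp [g3, p1par]
    rwa [h6] at h5

end cluster

end Run7.h971
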