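import Mathlib
import Pool.Agent.Run7.h971.Cluster

/-!
From one rational point to a generic statement: the core statement is a Zariski open condition
defined over the integers.
-/

set_option linter.unusedSectionVars false

open Finset MvPolynomial

namespace Run7.h971

section

variable {ι κ : Type} [Fintype ι] [DecidableEq ι] [Fintype κ] [DecidableEq κ]

/-- Index type of the equations of the core system. -/
abbrev CoreEq (ι κ : Type) := (ι × ι × ι) ⊕ (ι × ι) ⊕ (ι × ι) ⊕ (ι × ι × ι) ⊕ (κ × ι × ι)

/-- The coefficient matrix of the core system. -/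
def coreMat {R : Type*} [CommRing R] (α : κ → ι → R) : Matrix (CoreEq ι κ) (ι × ι × ι) R :=
  Matrix.of fun e t => match e with
    | .inl e => (if t = (e.1, e.2.1, e.2.2) then 1 else 0) - if t = (e.1, e.2.2, e.2.1) then 1 else 0
    | .inr (.inl e) => if t = (e.1, e.2, e.2) then 1 else 0
    | .inr (.inr (.inl e)) => if t = (e.1, e.1, e.2) then 1 else 0
    | .inr (.inr (.inr (.inl e))) => (if t = (e.1, e.2.1, e.2.2) then 1 else 0) +
        (if t = (e.2.1, e.2.2, e.1) then 1 else 0) + if t = (e.2.2, e.1, e.2.1) then 1 else 0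
    | .inr (.inr (.inr (.inr e))) => if t.1 = e.2.1 ∧ t.2.1 = e.2.2 ∧ t.2.2 ≠ e.2.2 then
        ∏ c ∈ (univ.erase e.2.2).erase t.2.2, (α e.1 e.2.2 - α e.1 c) else 0

theorem coreMat_map {R S : Type*} [CommRing R] [CommRing S] (φ : R →+* S) (α : κ → ι → R) :
    (coreMat α).map φ = coreMat (fun j a => φ (α j a)) := by
  ext e t
  rcases e with e | e | e | e | e <;>
    simp only [coreMat, Matrix.map_apply, Matrix.of_apply, map_sub, map_add, apply_ite φ, map_one,
      map_zero, map_prod]

theorem coreMat_mulVec_eq {R : Type*} [CommRing R] (α : κ → ι → R) (v : ι × ι × ι → R) (j : κ)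
    (u a : ι) : (coreMat α).mulVec v (.inr (.inr (.inr (.inr (j, u, a))))) =
      ∑ b ∈ univ.erase a, v (u, a, b) * ∏ c ∈ (univ.erase a).erase b, (α j a - α j c) := by
  simp only [Matrix.mulVec, dotProduct, coreMat, Matrix.of_apply]
  rw [Fintype.sum_prod_type, Finset.sum_eq_single u, Fintype.sum_prod_type,
    Finset.sum_eq_single a, ← Finset.add_sum_erase _ _ (Finset.mem_univ a)]
  · simp only [true_and, ne_eq, not_true_eq_false, if_false, zero_mul, zero_add]
    refine Finset.sum_congr rfl fun b hb => ?_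
    rw [if_pos (Finset.ne_of_mem_erase hb), mul_comm]
  · intro b _ hb
    refine Finset.sum_eq_zero fun c _ => ?_
    simp [hb]
  · simp
  · intro b _ hb
    refine Finset.sum_eq_zero fun c _ => ?_
    simp [hb]
  · simp

theorem core_iff {K : Type*} [Field K] (α : κ → ι → K) :
    Core α ↔ ∀ v : ι × ι × ι → K, (coreMat α).mulVec v = 0 → v = 0 := by
  have h1 : ∀ (v : ι × ι × ι → K) u a b, (coreMat α).mulVec v (.inl (u, a, b)) =
      v (u, a, b) - v (u, b, a) := by
    intro v u a b
    simp [Matrix.mulVec, dotProduct, coreMat, sub_mul, Finset.sum_sub_distrib]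
  have h2 : ∀ (v : ι × ι × ι → K) u a, (coreMat α).mulVec v (.inr (.inl (u, a))) =
      v (u, a, a) := by
    intro v u a
    simp [Matrix.mulVec, dotProduct, coreMat]
  have h3 : ∀ (v : ι × ι × ι → K) u a, (coreMat α).mulVec v (.inr (.inr (.inl (u, a)))) =
      v (u, u, a) := by
    intro v u a
    simp [Matrix.mulVec, dotProduct, coreMat]
  have h4 : ∀ (v : ι × ι × ι → K) u a b,
      (coreMat α).mulVec v (.inr (.inr (.inr (.inl (u, a, b))))) =
      v (u, a, b) + v (a, b, u) + v (b, u, a) := by
    intro v u a b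
    simp [Matrix.mulVec, dotProduct, coreMat, add_mul, Finset.sum_add_distrib]
  constructor
  · intro h v hv
    have := h (fun u a b => v (u, a, b)) ?_ ?_ ?_ ?_ ?_
    · funext t
      exact this t.1 t.2.1 t.2.2
    · intro u a b
      have := congrFun hv (.inl (u, a, b))
      rw [h1] at this
      exact sub_eq_zero.mp this
    · intro u a
      have := congrFun hv (.inr (.inl (u, a)))
      rwa [h2] at this
    · intro u a
      have := congrFun hv (.inr (.inr (.inl (u, a))))
      rwa [h3] at this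
    · intro u a b
      have := congrFun hv (.inr (.inr (.inr (.inl (u, a, b)))))
      rwa [h4] at this
    · intro j u a
      have := congrFun hv (.inr (.inr (.inr (.inr (j, u, a)))))
      rwa [coreMat_mulVec_eq] at this
  · intro h ω hsym haa huu hcyc heq u a b
    have := h (fun t => ω t.1 t.2.1 t.2.2) ?_
    · exact congrFun this (u, a, b)
    · funext e
      rcases e with ⟨u, a, b⟩ | ⟨u, a⟩ | ⟨u, a⟩ | ⟨u, a, b⟩ | ⟨j, u, a⟩
      · rw [h1, Pi.zero_apply]; exact sub_eq_zero.mpr (hsym u a b)
      · rw [h2, Pi.zero_apply]; exact haa u a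
      · rw [h3, Pi.zero_apply]; exact huu u a
      · rw [h4, Pi.zero_apply]; exact hcyc u a b
      · rw [coreMat_mulVec_eq, Pi.zero_apply]; exact heq j u a

/-- The Gram determinant of the core system. -/
noncomputable def corePoly (ι κ : Type) [Fintype ι] [DecidableEq ι] [Fintype κ] [DecidableEq κ] :
    MvPolynomial (κ × ι) ℤ :=
  ((coreMat (fun (j : κ) (a : ι) => (X (j, a) : MvPolynomial (κ × ι) ℤ))).transpose *
    coreMat (fun (j : κ) (a : ι) => (X (j, a) : MvPolynomial (κ × ι) ℤ))).det

theorem aeval_corePoly {K : Type*} [Field K] (α : κ → ι → K) :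
    aeval (fun t : κ × ι => α t.1 t.2) (corePoly ι κ) =
      ((coreMat α).transpose * coreMat α).det := by
  have h : ∀ φ : MvPolynomial (κ × ι) ℤ →+* K, (∀ t, φ (X t) = α t.1 t.2) →
      φ (corePoly ι κ) = ((coreMat α).transpose * coreMat α).det := by
    intro φ hφ
    rw [corePoly, RingHom.map_det, RingHom.mapMatrix_apply, Matrix.map_mul, Matrix.transpose_map,
      coreMat_map]
    simp only [hφ]
  exact h (aeval (fun t : κ × ι => α t.1 t.2) : MvPolynomial (κ × ι) ℤ →ₐ[ℤ] K) (by simp)

theorem core_of_aeval_ne_zero {K : Type*} [Field K] (α : κ → ι → K)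
    (h : aeval (fun t : κ × ι => α t.1 t.2) (corePoly ι κ) ≠ 0) : Core α := by
  rw [core_iff]
  intro v hv
  rw [aeval_corePoly] at h
  refine Matrix.eq_zero_of_mulVec_eq_zero h ?_
  rw [← Matrix.mulVec_mulVec, hv, Matrix.mulVec_zero]

theorem aeval_ne_zero_of_core (α : κ → ι → ℚ) (h : Core α) :
    aeval (fun t : κ × ι => α t.1 t.2) (corePoly ι κ) ≠ 0 := by
  rw [core_iff] at h
  rw [aeval_corePoly]
  intro h0
  obtain ⟨v, hv, hv'⟩ := Matrix.exists_mulVec_eq_zero_iff.mpr h0
  apply hv
  apply h
  have h1 : ((coreMat α).mulVec v) ⬝ᵥ ((coreMat α).mulVec v) = 0 := by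
    rw [← Matrix.mulVec_mulVec] at hv'
    rw [Matrix.dotProduct_mulVec, ← Matrix.mulVec_transpose, hv', zero_dotProduct]
  exact dotProduct_self_eq_zero.mp h1

end

end Run7.h971
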