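import Mathlib

/-!
Rational normal curves through the coordinate points and the unit point, and the section
spaces of a union of such curves.
-/

open Finset Polynomial

set_option linter.unusedSectionVars false

namespace Run7.h971

section curve

variable {ι K : Type*} [Fintype ι] [DecidableEq ι] [Field K]

theorem degree_C_mul_le' (c : K) (p : K[X]) : (C c * p).degree ≤ p.degree := by
  rw [← Polynomial.smul_eq_C_mul]
  exact Polynomial.degree_smul_le _ _

/-- `γ_a(t) = ∏_{b ≠ a} (t - α_b)`. -/
noncomputable def gam (α : ι → K) (a : ι) : K[X] := Lagrange.nodal (univ.erase a) α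

/-- `P(t) = ∏_b (t - α_b)`. -/
noncomputable def nod (α : ι → K) : K[X] := Lagrange.nodal univ α

/-- `c_a = ∏_{b ≠ a} (α_a - α_b)`. -/
def cst (α : ι → K) (a : ι) : K := ∏ b ∈ univ.erase a, (α a - α b)

variable {α : ι → K} {r : ℕ}

theorem gam_eval_ne {a b : ι} (h : a ≠ b) : (gam α a).eval (α b) = 0 :=
  Lagrange.eval_nodal_at_node (Finset.mem_erase.mpr ⟨h.symm, Finset.mem_univ _⟩)

theorem gam_eval_self (a : ι) : (gam α a).eval (α a) = cst α a := by
  rw [gam, Lagrange.eval_nodal]; rfl

theorem cst_ne_zero (hα : Function.Injective α) (a : ι) : cst α a ≠ 0 := by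
  rw [cst, Finset.prod_ne_zero_iff]
  intro c hc
  exact sub_ne_zero.mpr fun h => (Finset.ne_of_mem_erase hc) (hα h).symm

theorem gam_monic (a : ι) : (gam α a).Monic := Lagrange.nodal_monic

theorem gam_natDegree (hr : Fintype.card ι = r + 1) (a : ι) : (gam α a).natDegree = r := by
  rw [gam, Lagrange.natDegree_nodal, Finset.card_erase_of_mem (Finset.mem_univ a),
    Finset.card_univ, hr]
  rfl

theorem nod_monic : (nod α).Monic := Lagrange.nodal_monic

theorem nod_natDegree (hr : Fintype.card ι = r + 1) : (nod α).natDegree = r + 1 := by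
  rw [nod, Lagrange.natDegree_nodal, Finset.card_univ, hr]

theorem nod_eval (a : ι) : (nod α).eval (α a) = 0 :=
  Lagrange.eval_nodal_at_node (Finset.mem_univ _)

theorem gam_mul_gam {a b : ι} (h : a ≠ b) :
    gam α a * gam α b = nod α * Lagrange.nodal ((univ.erase a).erase b) α := by
  rw [gam, gam, nod, Lagrange.nodal_eq_mul_nodal_erase (s := univ) (Finset.mem_univ b),
    Lagrange.nodal_eq_mul_nodal_erase (s := univ.erase a)
      (Finset.mem_erase.mpr ⟨h.symm, Finset.mem_univ b⟩)]
  ring

/-- Lagrange interpolation in the basis `γ_a`. -/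
theorem lagr (hα : Function.Injective α) (hr : Fintype.card ι = r + 1) (f : K[X])
    (hf : f.degree < (r + 1 : ℕ)) :
    f = ∑ a, C (f.eval (α a) / cst α a) * gam α a := by
  refine Polynomial.eq_of_degrees_lt_of_eval_index_eq (s := univ) (v := α) (hα.injOn) ?_ ?_ ?_
  · rwa [Finset.card_univ, hr]
  · rw [Finset.card_univ, hr]
    refine (Polynomial.degree_sum_le _ _).trans_lt ?_
    rw [Finset.sup_lt_iff (WithBot.bot_lt_coe _)]
    intro a _
    refine (degree_C_mul_le' _ _).trans_lt ?_
    refine (Polynomial.degree_le_natDegree).trans_lt ?_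
    rw [gam_natDegree hr]
    exact_mod_cast Nat.lt_succ_self r
  · intro b _
    rw [Polynomial.eval_finsetSum, Finset.sum_eq_single b]
    · rw [Polynomial.eval_mul, Polynomial.eval_C, gam_eval_self, div_mul_cancel₀ _ (cst_ne_zero hα b)]
    · intro a _ hab
      rw [Polynomial.eval_mul, gam_eval_ne hab, mul_zero]
    · simp

theorem nod_dvd (hα : Function.Injective α) (f : K[X]) (hf : ∀ a, f.eval (α a) = 0) :
    nod α ∣ f := by
  rw [nod, Lagrange.nodal_eq]
  refine Finset.prod_dvd_of_coprime ?_ ?_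
  · intro a _ b _ hab
    exact Polynomial.pairwise_coprime_X_sub_C hα hab
  · intro a _
    exact Polynomial.dvd_iff_isRoot.mpr (hf a)

theorem exists_nod_mul (hα : Function.Injective α) (hr : Fintype.card ι = r + 1) (f : K[X])
    (hf : ∀ a, f.eval (α a) = 0) {D : ℕ} (hD : f.degree < (D + (r + 1) : ℕ)) :
    ∃ h : K[X], f = nod α * h ∧ h.degree < (D : ℕ) := by
  obtain ⟨h, rfl⟩ := nod_dvd hα f hf
  refine ⟨h, rfl, ?_⟩
  by_cases h0 : h = 0
  · subst h0; simp
  rw [Polynomial.degree_mul, Polynomial.degree_eq_natDegree h0,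
    Polynomial.degree_eq_natDegree nod_monic.ne_zero, nod_natDegree hr] at hD
  rw [Polynomial.degree_eq_natDegree h0]
  have : (r + 1) + h.natDegree < D + (r + 1) := by exact_mod_cast hD
  exact_mod_cast (by omega : h.natDegree < D)

/-- A polynomial of degree less than `D + r` is a combination of the `γ_a` with coefficients of
degree less than `D`. -/
theorem decomp (hα : Function.Injective α) (hr : Fintype.card ι = r + 1) (h : K[X]) {D : ℕ}
    (hD : 1 ≤ D) (hh : h.degree < (D + r : ℕ)) :
    ∃ g : ι → K[X], (∀ a, (g a).degree < (D : ℕ)) ∧ h = ∑ a, gam α a * g a := by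
  set h0 := h %ₘ (X ^ D) with hh0
  set h1 := h /ₘ (X ^ D) with hh1
  have hsplit : h = h0 + X ^ D * h1 := (Polynomial.modByMonic_add_div h (X ^ D)).symm
  have hd0 : h0.degree < (D : ℕ) := by
    have := Polynomial.degree_modByMonic_lt h (Polynomial.monic_X_pow (R := K) D)
    rwa [Polynomial.degree_X_pow] at this
  have hd1 : (X * h1).degree < ((r + 1 : ℕ) : WithBot ℕ) := by
    by_cases h10 : h1 = 0
    · rw [h10, mul_zero, Polynomial.degree_zero]; exact WithBot.bot_lt_coe _
    rw [Polynomial.degree_mul, Polynomial.degree_X, Polynomial.degree_eq_natDegree h10]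
    have hne : h ≠ 0 := by
      intro h'
      apply h10
      rw [hh1, h', Polynomial.zero_divByMonic]
    have h2 : h1.natDegree = h.natDegree - D := by
      rw [hh1, Polynomial.natDegree_divByMonic _ (Polynomial.monic_X_pow D),
        Polynomial.natDegree_X_pow]
    have h3 : h.natDegree < D + r := by
      rw [Polynomial.degree_eq_natDegree hne] at hh
      exact_mod_cast hh
    have h4 : D ≤ h.natDegree := by
      by_contra hlt
      push Not at hlt
      apply h10
      rw [hh1, Polynomial.divByMonic_eq_zero_iff (Polynomial.monic_X_pow D),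
        Polynomial.degree_X_pow, Polynomial.degree_eq_natDegree hne]
      exact_mod_cast hlt
    have h5 : 1 + h1.natDegree < r + 1 := by omega
    exact_mod_cast h5
  refine ⟨fun a => C ((1 : K[X]).eval (α a) / cst α a) * h0 +
    C ((X * h1).eval (α a) / cst α a) * X ^ (D - 1), ?_, ?_⟩
  · intro a
    refine (Polynomial.degree_add_le _ _).trans_lt (max_lt ?_ ?_)
    · exact (degree_C_mul_le' _ _).trans_lt hd0
    · refine (Polynomial.degree_C_mul_X_pow_le _ _).trans_lt ?_
      exact_mod_cast (by omega : D - 1 < D)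
  · have e1 := lagr hα hr (1 : K[X]) (by
      rw [Polynomial.degree_one]; exact_mod_cast Nat.succ_pos r)
    have e2 := lagr hα hr (X * h1) hd1
    calc h = 1 * h0 + (X * h1) * X ^ (D - 1) := by
          rw [hsplit]
          obtain ⟨D', rfl⟩ : ∃ D', D = D' + 1 := ⟨D - 1, by omega⟩
          simp only [Nat.add_sub_cancel]
          ring
      _ = (∑ a, C ((1 : K[X]).eval (α a) / cst α a) * gam α a) * h0 +
          (∑ a, C ((X * h1).eval (α a) / cst α a) * gam α a) * X ^ (D - 1) := by
          rw [← e1, ← e2]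
      _ = _ := by
          rw [Finset.sum_mul, Finset.sum_mul, ← Finset.sum_add_distrib]
          refine Finset.sum_congr rfl fun a _ => ?_
          ring

end curve

section sections

variable {ι κ K : Type*} [Fintype ι] [DecidableEq ι] [Field K]

/-- Sections of `O(n)` on the union of the curves: families of polynomials of degree at most
`n r`, compatible at the coordinate points and at the unit point. -/
def Rsp (α : κ → ι → K) (r n : ℕ) : Submodule K (κ → K[X]) where
  carrier := {f | (∀ j, (f j).natDegree ≤ n * r) ∧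
    (∃ v : ι → K, ∀ j a, (f j).eval (α j a) = v a * cst (α j) a ^ n) ∧
    ∃ l : K, ∀ j, (f j).coeff (n * r) = l}
  add_mem' := by
    rintro f g ⟨hf1, ⟨v, hv⟩, ⟨l, hl⟩⟩ ⟨hg1, ⟨w, hw⟩, ⟨m, hm⟩⟩
    refine ⟨fun j => ?_, ⟨fun a => v a + w a, fun j a => ?_⟩, ⟨l + m, fun j => ?_⟩⟩
    · exact (Polynomial.natDegree_add_le _ _).trans (max_le (hf1 j) (hg1 j))
    · rw [Pi.add_apply, Polynomial.eval_add, hv, hw]; ring
    · rw [Pi.add_apply, Polynomial.coeff_add, hl, hm]
  zero_mem' := ⟨fun j => by simp, ⟨0, fun j a => by simp⟩, ⟨0, fun j => by simp⟩⟩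
  smul_mem' := by
    rintro c f ⟨hf1, ⟨v, hv⟩, ⟨l, hl⟩⟩
    refine ⟨fun j => ?_, ⟨fun a => c * v a, fun j a => ?_⟩, ⟨c * l, fun j => ?_⟩⟩
    · exact (Polynomial.natDegree_smul_le _ _).trans (hf1 j)
    · rw [Pi.smul_apply, Polynomial.eval_smul, hv, smul_eq_mul]; ring
    · rw [Pi.smul_apply, Polynomial.coeff_smul, hl, smul_eq_mul]

/-- The coordinate functions on the union of the curves. -/
noncomputable def gg (α : κ → ι → K) (a : ι) : κ → K[X] := fun j => gam (α j) a

theorem mul_mem_Rsp (α : κ → ι → K) (r m n : ℕ) {f g : κ → K[X]} (hf : f ∈ Rsp α r m)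
    (hg : g ∈ Rsp α r n) : f * g ∈ Rsp α r (m + n) := by
  obtain ⟨hf1, ⟨v, hv⟩, ⟨l, hl⟩⟩ := hf
  obtain ⟨hg1, ⟨w, hw⟩, ⟨l', hl'⟩⟩ := hg
  refine ⟨fun j => ?_, ⟨fun a => v a * w a, fun j a => ?_⟩, ⟨l * l', fun j => ?_⟩⟩
  · rw [Pi.mul_apply, add_mul]
    exact Polynomial.natDegree_mul_le_of_le (hf1 j) (hg1 j)
  · rw [Pi.mul_apply, Polynomial.eval_mul, hv, hw, pow_add]; ring
  · rw [Pi.mul_apply, add_mul, Polynomial.coeff_mul_add_eq_of_natDegree_le (hf1 j) (hg1 j), hl, hl']

theorem gg_mem_Rsp (α : κ → ι → K) {r : ℕ} (hr : Fintype.card ι = r + 1) (a : ι) :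
    gg α a ∈ Rsp α r 1 := by
  refine ⟨fun j => ?_, ⟨fun b => if a = b then 1 else 0, fun j b => ?_⟩, ⟨1, fun j => ?_⟩⟩
  · rw [one_mul]; exact (gam_natDegree hr a).le
  · by_cases h : a = b
    · subst h; rw [gg, gam_eval_self]; simp
    · rw [gg, gam_eval_ne h]; simp [h]
  · rw [one_mul, gg]
    have := gam_monic (α := α j) a
    rw [Polynomial.Monic, Polynomial.leadingCoeff, gam_natDegree hr] at this
    exact this

theorem one_mem_Rsp (α : κ → ι → K) (r : ℕ) : (1 : κ → K[X]) ∈ Rsp α r 0 := by
  refine ⟨fun j => ?_, ⟨fun _ => 1, fun j a => ?_⟩, ⟨1, fun j => ?_⟩⟩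
  · simp
  · simp
  · simp

theorem pow_mem_Rsp (α : κ → ι → K) {r : ℕ} {f : κ → K[X]} (hf : f ∈ Rsp α r 1) (n : ℕ) :
    f ^ n ∈ Rsp α r n := by
  induction n with
  | zero => simpa using one_mem_Rsp α r
  | succ n ih => rw [pow_succ]; exact mul_mem_Rsp α r n 1 ih hf

/-- Families vanishing at the special points. -/
theorem nod_mul_mem_Rsp (α : κ → ι → K) {r : ℕ} (hr : Fintype.card ι = r + 1) (n : ℕ)
    (h : κ → K[X]) (hh : ∀ j, (h j).degree < (n * r - 1 : ℕ)) :
    (fun j => nod (α j) * h j) ∈ Rsp α r (n + 1) := by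
  have hd : ∀ j, (nod (α j) * h j).degree < ((n + 1) * r : ℕ) := by
    intro j
    by_cases h0 : h j = 0
    · rw [h0, mul_zero, Polynomial.degree_zero]; exact WithBot.bot_lt_coe _
    · rw [Polynomial.degree_mul, Polynomial.degree_eq_natDegree nod_monic.ne_zero,
        nod_natDegree hr, Polynomial.degree_eq_natDegree h0]
      have h1 : (h j).natDegree < n * r - 1 := by
        have := hh j
        rw [Polynomial.degree_eq_natDegree h0] at this
        exact_mod_cast this
      have h2 : (r + 1) + (h j).natDegree < (n + 1) * r := by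
        rw [add_mul, one_mul]; omega
      exact_mod_cast h2
  refine ⟨fun j => ?_, ⟨fun _ => 0, fun j a => ?_⟩, ⟨0, fun j => ?_⟩⟩
  · exact Polynomial.natDegree_le_of_degree_le (hd j).le
  · rw [Polynomial.eval_mul, nod_eval]; simp
  · exact Polynomial.coeff_eq_zero_of_degree_lt (hd j)

/-- Normal form of sections. -/
theorem mem_Rsp_iff (α : κ → ι → K) (hα : ∀ j, Function.Injective (α j)) {r : ℕ}
    (hr : Fintype.card ι = r + 1) (n : ℕ) (hn : 1 ≤ n) (hr1 : 1 ≤ r) (i0 i1 : ι) (h01 : i0 ≠ i1)
    (f : κ → K[X]) :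
    f ∈ Rsp α r (n + 1) ↔ ∃ (v : ι → K) (m : K) (h : κ → K[X]),
      (∀ j, (h j).degree < (n * r - 1 : ℕ)) ∧
      f = (∑ a, v a • gg α a ^ (n + 1)) + m • (gg α i0 ^ n * gg α i1) +
        fun j => nod (α j) * h j := by
  constructor
  · rintro ⟨hf1, ⟨v, hv⟩, ⟨l, hl⟩⟩
    set m := l - ∑ a, v a with hm
    have hbase : (∑ a, v a • gg α a ^ (n + 1)) + m • (gg α i0 ^ n * gg α i1) ∈ Rsp α r (n + 1) := by
      refine Submodule.add_mem _ (Submodule.sum_mem _ fun a _ => Submodule.smul_mem _ _
        (pow_mem_Rsp α (gg_mem_Rsp α hr a) _)) (Submodule.smul_mem _ _ ?_)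
      exact mul_mem_Rsp α r n 1 (pow_mem_Rsp α (gg_mem_Rsp α hr i0) _) (gg_mem_Rsp α hr i1)
    have key : ∀ j, ∃ h : K[X], f j - ((∑ a, v a • gg α a ^ (n + 1)) +
        m • (gg α i0 ^ n * gg α i1)) j = nod (α j) * h ∧ h.degree < ((n * r - 1 : ℕ) : WithBot ℕ) := by
      intro j
      refine exists_nod_mul (hα j) hr _ ?_ ?_
      · intro a
        rw [Polynomial.eval_sub, hv j a]
        simp only [Pi.add_apply, Finset.sum_apply, Pi.smul_apply, Pi.pow_apply, Pi.mul_apply,
          Polynomial.eval_add, Polynomial.eval_finsetSum, Polynomial.eval_smul,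
          Polynomial.eval_pow, Polynomial.eval_mul, gg]
        have e1 : ((gam (α j) i0).eval (α j a)) ^ n * (gam (α j) i1).eval (α j a) = 0 := by
          by_cases ha : i1 = a
          · subst ha
            rw [gam_eval_ne h01, zero_pow (by omega), zero_mul]
          · rw [gam_eval_ne ha, mul_zero]
        rw [e1, Finset.sum_eq_single a]
        · rw [gam_eval_self]; simp
        · intro b _ hb
          rw [gam_eval_ne hb]; simp
        · simp
      · have e2 : ((n * r - 1) + (r + 1) : ℕ) = (n + 1) * r := by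
          have : 1 ≤ n * r := Nat.one_le_iff_ne_zero.mpr (by positivity)
          rw [add_mul, one_mul]; omega
        rw [e2]
        have e3 : (f j - ((∑ a, v a • gg α a ^ (n + 1)) + m • (gg α i0 ^ n * gg α i1)) j).natDegree
            ≤ (n + 1) * r :=
          (Polynomial.natDegree_sub_le _ _).trans (max_le (hf1 j) (hbase.1 j))
        have e4 : (f j - ((∑ a, v a • gg α a ^ (n + 1)) +
            m • (gg α i0 ^ n * gg α i1)) j).coeff ((n + 1) * r) = 0 := by
          rw [Polynomial.coeff_sub, hl j]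
          have e5 : ∀ (a : ι) , (gg α a ^ (n + 1)) ∈ Rsp α r (n + 1) := fun a =>
            pow_mem_Rsp α (gg_mem_Rsp α hr a) _
          have mon : ∀ p : K[X], p.Monic → p.natDegree = (n + 1) * r → p.coeff ((n + 1) * r) = 1 := by
            intro p hp hd
            rw [Polynomial.Monic, Polynomial.leadingCoeff, hd] at hp
            exact hp
          have e6 : ∀ a : ι, ((gam (α j) a) ^ (n + 1)).coeff ((n + 1) * r) = 1 := by
            intro a
            refine mon _ ((gam_monic a).pow _) ?_
            rw [(gam_monic a).natDegree_pow, gam_natDegree hr]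
          have e7 : ((gam (α j) i0) ^ n * gam (α j) i1).coeff ((n + 1) * r) = 1 := by
            refine mon _ (((gam_monic i0).pow _).mul (gam_monic i1)) ?_
            rw [((gam_monic i0).pow _).natDegree_mul (gam_monic i1), (gam_monic i0).natDegree_pow,
              gam_natDegree hr, gam_natDegree hr]
            ring
          simp only [Pi.add_apply, Finset.sum_apply, Pi.smul_apply, Pi.pow_apply, Pi.mul_apply,
            Polynomial.coeff_add, Polynomial.finsetSum_coeff, Polynomial.coeff_smul, gg]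
          rw [e7]
          simp only [e6, smul_eq_mul, mul_one, hm]
          ring
        exact (Polynomial.degree_lt_iff_coeff_zero _ _).mpr fun k hk => by
          rcases hk.eq_or_lt with rfl | hk
          · exact e4
          · exact Polynomial.coeff_eq_zero_of_natDegree_lt (e3.trans_lt hk)
    choose h hh1 hh2 using key
    refine ⟨v, m, h, hh2, ?_⟩
    funext j
    have := hh1 j
    rw [Pi.add_apply, ← this]
    ring
  · rintro ⟨v, m, h, hh, rfl⟩
    refine Submodule.add_mem _ (Submodule.add_mem _ (Submodule.sum_mem _ fun a _ =>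
      Submodule.smul_mem _ _ (pow_mem_Rsp α (gg_mem_Rsp α hr a) _)) (Submodule.smul_mem _ _ ?_))
      (nod_mul_mem_Rsp α hr n h hh)
    exact mul_mem_Rsp α r n 1 (pow_mem_Rsp α (gg_mem_Rsp α hr i0) _) (gg_mem_Rsp α hr i1)

end sections

end Run7.h971
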