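import Mathlib
import Pool.Agent.Run7.h971.Curve

/-!
Dimension of the section spaces, surjectivity of multiplication, restriction of forms.
-/

open Finset Polynomial

set_option linter.unusedSectionVars false

namespace Run7.h971

section dims

variable {ι κ K : Type*} [Fintype ι] [DecidableEq ι] [Fintype κ] [Field K]

/-- Parametrisation of sections. -/
noncomputable def secMap (α : κ → ι → K) (r n : ℕ) (i0 i1 : ι) :
    ((ι → K) × K × (κ → Polynomial.degreeLT K (n * r - 1))) →ₗ[K] (κ → K[X]) where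
  toFun x := (∑ a, x.1 a • gg α a ^ (n + 1)) + x.2.1 • (gg α i0 ^ n * gg α i1) +
    fun j => nod (α j) * (x.2.2 j : K[X])
  map_add' x y := by
    funext j
    simp only [Prod.fst_add, Prod.snd_add, Pi.add_apply, add_smul, Finset.sum_add_distrib,
      Submodule.coe_add]
    ring
  map_smul' c x := by
    funext j
    simp only [Prod.smul_fst, Prod.smul_snd, Pi.smul_apply, smul_eq_mul, Pi.add_apply,
      Submodule.coe_smul, RingHom.id_apply, smul_add, Finset.smul_sum, mul_smul, Finset.sum_apply,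
      mul_smul_comm]

theorem secMap_range (α : κ → ι → K) (hα : ∀ j, Function.Injective (α j)) {r : ℕ}
    (hr : Fintype.card ι = r + 1) (n : ℕ) (hn : 1 ≤ n) (hr1 : 1 ≤ r) (i0 i1 : ι) (h01 : i0 ≠ i1) :
    LinearMap.range (secMap α r n i0 i1) = Rsp α r (n + 1) := by
  ext f
  rw [mem_Rsp_iff α hα hr n hn hr1 i0 i1 h01, LinearMap.mem_range]
  constructor
  · rintro ⟨⟨v, m, h⟩, rfl⟩
    exact ⟨v, m, fun j => h j, fun j => Polynomial.mem_degreeLT.mp (h j).2, rfl⟩
  · rintro ⟨v, m, h, hh, rfl⟩
    exact ⟨⟨v, m, fun j => ⟨h j, Polynomial.mem_degreeLT.mpr (hh j)⟩⟩, rfl⟩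

theorem secMap_injective [Nonempty κ] (α : κ → ι → K) (hα : ∀ j, Function.Injective (α j)) {r : ℕ}
    (hr : Fintype.card ι = r + 1) (n : ℕ) (hn : 1 ≤ n) (hr1 : 1 ≤ r) (i0 i1 : ι) (h01 : i0 ≠ i1) :
    Function.Injective (secMap α r n i0 i1) := by
  rw [injective_iff_map_eq_zero]
  rintro ⟨v, m, h⟩ hx
  have hx' : ∀ j, (∑ a, v a • gam (α j) a ^ (n + 1)) + m • (gam (α j) i0 ^ n * gam (α j) i1) +
      nod (α j) * (h j : K[X]) = 0 := by
    intro j
    have := congrFun hx j
    simpa [secMap, gg] using this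
  have hv : v = 0 := by
    funext b
    obtain ⟨j⟩ := ‹Nonempty κ›
    have h1 := congrArg (Polynomial.eval (α j b)) (hx' j)
    simp only [Polynomial.eval_add, Polynomial.eval_finsetSum, Polynomial.eval_smul,
      Polynomial.eval_pow, Polynomial.eval_mul, Polynomial.eval_zero] at h1
    have e1 : ((gam (α j) i0).eval (α j b)) ^ n * (gam (α j) i1).eval (α j b) = 0 := by
      by_cases ha : i1 = b
      · subst ha
        rw [gam_eval_ne h01, zero_pow (by omega), zero_mul]
      · rw [gam_eval_ne ha, mul_zero]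
    rw [e1, nod_eval, Finset.sum_eq_single b] at h1
    · rw [gam_eval_self, smul_zero, zero_mul, add_zero, add_zero, smul_eq_mul] at h1
      exact (mul_eq_zero.mp h1).resolve_right (pow_ne_zero _ (cst_ne_zero (hα j) b))
    · intro a _ hab
      rw [gam_eval_ne hab]; simp
    · simp
  subst hv
  simp only [Pi.zero_apply, zero_smul, Finset.sum_const_zero, zero_add] at hx'
  have hm : m = 0 := by
    obtain ⟨j⟩ := ‹Nonempty κ›
    have h1 := congrArg (fun p => Polynomial.coeff p ((n + 1) * r)) (hx' j)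
    simp only [Polynomial.coeff_add, Polynomial.coeff_smul, Polynomial.coeff_zero] at h1
    have h2 := (nod_mul_mem_Rsp α hr n (fun j => (h j : K[X]))
      (fun j => Polynomial.mem_degreeLT.mp (h j).2))
    have h3 : (nod (α j) * (h j : K[X])).coeff ((n + 1) * r) = 0 := by
      by_cases h0 : (h j : K[X]) = 0
      · rw [h0, mul_zero, Polynomial.coeff_zero]
      refine Polynomial.coeff_eq_zero_of_natDegree_lt ?_
      rw [Polynomial.natDegree_mul nod_monic.ne_zero h0, nod_natDegree hr]
      have h4 : (h j : K[X]).natDegree < n * r - 1 := by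
        have := Polynomial.mem_degreeLT.mp (h j).2
        rw [Polynomial.degree_eq_natDegree h0] at this
        exact_mod_cast this
      rw [add_mul, one_mul]; omega
    have h5 : ((gam (α j) i0) ^ n * gam (α j) i1).coeff ((n + 1) * r) = 1 := by
      have hmon := ((gam_monic (α := α j) i0).pow n).mul (gam_monic (α := α j) i1)
      have hdeg : ((gam (α j) i0) ^ n * gam (α j) i1).natDegree = (n + 1) * r := by
        rw [((gam_monic i0).pow _).natDegree_mul (gam_monic i1), (gam_monic i0).natDegree_pow,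
          gam_natDegree hr, gam_natDegree hr]
        ring
      rw [Polynomial.Monic, Polynomial.leadingCoeff, hdeg] at hmon
      exact hmon
    rw [h3, h5, add_zero, smul_eq_mul, mul_one] at h1
    exact h1
  subst hm
  simp only [zero_smul, zero_add] at hx'
  have hh : h = 0 := by
    funext j
    have h1 := (mul_eq_zero.mp (hx' j)).resolve_left nod_monic.ne_zero
    exact Subtype.ext h1
  subst hh
  rfl

theorem finrank_degreeLT (n : ℕ) : Module.finrank K (Polynomial.degreeLT K n) = n := by
  rw [(Polynomial.degreeLTEquiv K n).finrank_eq, Module.finrank_fintype_fun_eq_card,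
    Fintype.card_fin]

instance finite_degreeLT (n : ℕ) : Module.Finite K (Polynomial.degreeLT K n) :=
  Module.Finite.equiv (Polynomial.degreeLTEquiv K n).symm

theorem finrank_Rsp [Nonempty κ] (α : κ → ι → K) (hα : ∀ j, Function.Injective (α j)) {r : ℕ}
    (hr : Fintype.card ι = r + 1) (n : ℕ) (hn : 1 ≤ n) (hr1 : 1 ≤ r) (i0 i1 : ι) (h01 : i0 ≠ i1) :
    Module.finrank K (Rsp α r (n + 1)) = (r + 2) + Fintype.card κ * (n * r - 1) := by
  rw [← secMap_range α hα hr n hn hr1 i0 i1 h01,
    LinearMap.finrank_range_of_inj (secMap_injective α hα hr n hn hr1 i0 i1 h01),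
    Module.finrank_prod, Module.finrank_prod, Module.finrank_fintype_fun_eq_card, Module.finrank_self,
    Module.finrank_pi_fintype]
  simp only [finrank_degreeLT, Finset.sum_const, Finset.card_univ, smul_eq_mul, hr]
  ring

theorem finite_Rsp (α : κ → ι → K) (hα : ∀ j, Function.Injective (α j)) {r : ℕ}
    (hr : Fintype.card ι = r + 1) (n : ℕ) (hn : 1 ≤ n) (hr1 : 1 ≤ r) (i0 i1 : ι) (h01 : i0 ≠ i1) :
    Module.Finite K (Rsp α r (n + 1)) := by
  rw [← secMap_range α hα hr n hn hr1 i0 i1 h01]
  infer_instance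

/-- Multiplication by linear forms is surjective on sections in degrees at least three. -/
theorem mul_surj (α : κ → ι → K) (hα : ∀ j, Function.Injective (α j)) {r : ℕ}
    (hr : Fintype.card ι = r + 1) (n : ℕ) (hn : 1 ≤ n) (hr2 : 2 ≤ r) (i0 i1 : ι) (h01 : i0 ≠ i1)
    (f : κ → K[X]) (hf : f ∈ Rsp α r (n + 2)) :
    ∃ ρ : ι → κ → K[X], (∀ a, ρ a ∈ Rsp α r (n + 1)) ∧ f = ∑ a, gg α a * ρ a := by
  obtain ⟨v, m, h, hh, rfl⟩ :=
    (mem_Rsp_iff α hα hr (n + 1) (by omega) (by omega) i0 i1 h01 f).mp hf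
  have hnr : 2 ≤ n * r := by nlinarith
  have hdec : ∀ j, ∃ g : ι → K[X], (∀ a, (g a).degree < ((n * r - 1 : ℕ) : WithBot ℕ)) ∧
      h j = ∑ a, gam (α j) a * g a := by
    intro j
    refine decomp (hα j) hr (h j) (by omega) ?_
    have e : (n * r - 1 + r : ℕ) = (n + 1) * r - 1 := by rw [add_mul, one_mul]; omega
    rw [e]
    exact hh j
  choose g hg1 hg2 using hdec
  refine ⟨fun a => v a • gg α a ^ (n + 1) + (if a = i0 then m else 0) • (gg α i0 ^ n * gg α i1) +
    fun j => nod (α j) * g j a, ?_, ?_⟩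
  · intro a
    refine Submodule.add_mem _ (Submodule.add_mem _ (Submodule.smul_mem _ _
        (pow_mem_Rsp α (gg_mem_Rsp α hr a) _)) (Submodule.smul_mem _ _ ?_))
      (nod_mul_mem_Rsp α hr n _ (fun j => hg1 j a))
    exact mul_mem_Rsp α r n 1 (pow_mem_Rsp α (gg_mem_Rsp α hr i0) _) (gg_mem_Rsp α hr i1)
  · have e1 : ∑ a, gg α a * (v a • gg α a ^ (n + 1) +
        (if a = i0 then m else 0) • (gg α i0 ^ n * gg α i1) + fun j => nod (α j) * g j a) =
        (∑ a, v a • gg α a ^ (n + 2)) +
        (∑ a, (if a = i0 then m else 0) • (gg α a * (gg α i0 ^ n * gg α i1))) +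
        ∑ a, gg α a * fun j => nod (α j) * g j a := by
      rw [← Finset.sum_add_distrib, ← Finset.sum_add_distrib]
      refine Finset.sum_congr rfl fun a _ => ?_
      rw [mul_add, mul_add, mul_smul_comm, mul_smul_comm]
      ring
    rw [e1]
    congr 1
    · congr 1
      rw [Finset.sum_eq_single i0]
      · rw [if_pos rfl]; ring
      · intro a _ ha; rw [if_neg ha, zero_smul]
      · simp
    · funext j
      rw [Finset.sum_apply]
      simp only [Pi.mul_apply, gg]
      rw [hg2 j, Finset.mul_sum]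
      exact Finset.sum_congr rfl fun a _ => by ring

end dims

end Run7.h971
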