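import Mathlib
import Pool.Agent.Run7.h971.Sections

/-!
Koszul exactness for sections of line bundles on the union of rational normal curves.
-/

open Finset Polynomial

set_option linter.unusedSectionVars false

namespace Run7.h971

section one

variable {ι K : Type*} [Fintype ι] [DecidableEq ι] [Field K]

/-- Koszul boundaries with coefficients of degree less than `B`. -/
def Kz (α : ι → K) (B : ℕ) : Submodule K (ι → K[X]) where
  carrier := {h | ∃ g : ι → ι → K[X], (∀ a b, g a b = - g b a) ∧
    (∀ a b, (g a b).degree < (B : WithBot ℕ)) ∧ ∀ a, h a = ∑ b, gam α b * g a b}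
  add_mem' := by
    rintro h h' ⟨g, hg1, hg2, hg3⟩ ⟨g', hg1', hg2', hg3'⟩
    refine ⟨fun a b => g a b + g' a b, fun a b => ?_, fun a b => ?_, fun a => ?_⟩
    · change g a b + g' a b = -(g b a + g' b a)
      rw [hg1 a b, hg1' a b]; ring
    · exact (Polynomial.degree_add_le _ _).trans_lt (max_lt (hg2 a b) (hg2' a b))
    · rw [Pi.add_apply, hg3, hg3', ← Finset.sum_add_distrib]
      exact Finset.sum_congr rfl fun b _ => by ring
  zero_mem' := ⟨fun _ _ => 0, fun _ _ => by simp, fun _ _ => by simp, fun _ => by simp⟩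
  smul_mem' := by
    rintro c h ⟨g, hg1, hg2, hg3⟩
    refine ⟨fun a b => c • g a b, fun a b => ?_, fun a b => ?_, fun a => ?_⟩
    · change c • g a b = -(c • g b a)
      rw [hg1 a b, smul_neg]
    · exact (Polynomial.degree_smul_le _ _).trans_lt (hg2 a b)
    · rw [Pi.smul_apply, hg3, Finset.smul_sum]
      exact Finset.sum_congr rfl fun b _ => by rw [mul_smul_comm]

/-- The element `X^c` times the linear form restricting to `X^i`. -/
noncomputable def sy (α : ι → K) (c i : ℕ) : ι → K[X] := fun a => X ^ c * C (α a ^ i / cst α a)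

theorem sy_sub_mem {α : ι → K} (hα : Function.Injective α) {r : ℕ}
    (hr : Fintype.card ι = r + 1) {B g i k : ℕ} (hg : g < B) (hi : i ≤ r) (hk : k ≤ r) :
    sy α (g + k) i - sy α (g + i) k ∈ Kz α B := by
  have hX : ∀ i, i ≤ r → (X : K[X]) ^ i = ∑ b, C (α b ^ i / cst α b) * gam α b := by
    intro i hi
    have := lagr hα hr ((X : K[X]) ^ i) (by
      rw [Polynomial.degree_X_pow]; exact_mod_cast Nat.lt_succ_of_le hi)
    simpa using this
  refine ⟨fun a b => X ^ g * C (α a ^ i / cst α a * (α b ^ k / cst α b) -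
    α a ^ k / cst α a * (α b ^ i / cst α b)), fun a b => ?_, fun a b => ?_, fun a => ?_⟩
  · have e0 : α a ^ i / cst α a * (α b ^ k / cst α b) - α a ^ k / cst α a * (α b ^ i / cst α b) =
        -(α b ^ i / cst α b * (α a ^ k / cst α a) - α b ^ k / cst α b * (α a ^ i / cst α a)) := by
      ring
    beta_reduce
    rw [e0, C_neg, mul_neg]
  · beta_reduce
    rw [mul_comm]
    refine (Polynomial.degree_C_mul_X_pow_le _ _).trans_lt ?_
    exact_mod_cast hg
  · have e : ∑ b, gam α b * (X ^ g * C (α a ^ i / cst α a * (α b ^ k / cst α b) -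
        α a ^ k / cst α a * (α b ^ i / cst α b))) =
        X ^ g * C (α a ^ i / cst α a) * (∑ b, C (α b ^ k / cst α b) * gam α b) -
        X ^ g * C (α a ^ k / cst α a) * (∑ b, C (α b ^ i / cst α b) * gam α b) := by
      rw [Finset.mul_sum, Finset.mul_sum, ← Finset.sum_sub_distrib]
      refine Finset.sum_congr rfl fun b _ => ?_
      rw [C_sub, C_mul, C_mul]
      ring
    rw [e, ← hX k hk, ← hX i hi, Pi.sub_apply, sy, sy, pow_add, pow_add]
    ring

/-- Representative of the class of all `sy c i` with `c + i = T`. -/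
noncomputable def can (α : ι → K) (E T : ℕ) : ι → K[X] := sy α (min T (E - 1)) (T - min T (E - 1))

theorem sy_sub_can_mem {α : ι → K} (hα : Function.Injective α) {r : ℕ}
    (hr : Fintype.card ι = r + 1) {B : ℕ} (hB : 2 ≤ B) (i : ℕ) :
    ∀ c, c < B + r → i ≤ r → sy α c i - can α (B + r) (c + i) ∈ Kz α B := by
  induction i with
  | zero =>
    intro c hc _
    have h1 : min (c + 0) (B + r - 1) = c := by omega
    rw [can, h1]
    have h2 : c + 0 - c = 0 := by omega
    rw [h2, sub_self]
    exact Submodule.zero_mem _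
  | succ i ih =>
    intro c hc hi
    by_cases hc' : c + 1 < B + r
    · have h1 := ih (c + 1) hc' (by omega)
      have h2 : c + 1 + i = c + (i + 1) := by ring
      rw [h2] at h1
      have key : sy α (c + 1) i - sy α c (i + 1) ∈ Kz α B := by
        -- g = min (c+1) (B-1)
        obtain ⟨g, hg⟩ : ∃ g, g + 1 = min (c + 1) (B - 1) := ⟨min (c + 1) (B - 1) - 1, by omega⟩
        have hgB : g + 1 < B := by omega
        obtain ⟨k, hk⟩ : ∃ k, c + 1 = g + 1 + k := ⟨c + 1 - (g + 1), by omega⟩
        have hkr : k ≤ r := by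
          rcases le_total (c + 1) (B - 1) with h | h
          · rw [min_eq_left h] at hg; omega
          · rw [min_eq_right h] at hg; omega
        have h3 := sy_sub_mem (B := B) hα hr (g := g + 1) (i := i) (k := k) hgB (by omega) hkr
        have h4 := sy_sub_mem (B := B) hα hr (g := g) (i := i + 1) (k := k) (by omega) hi hkr
        have h5 : g + (i + 1) = g + 1 + i := by ring
        have h6 : c = g + k := by omega
        rw [h5] at h4
        rw [hk, h6]
        have h7 := Submodule.sub_mem _ h3 h4
        have h8 : sy α (g + 1 + k) i - sy α (g + 1 + i) k - (sy α (g + k) (i + 1) -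
            sy α (g + 1 + i) k) = sy α (g + 1 + k) i - sy α (g + k) (i + 1) := by abel
        rwa [h8] at h7
      have h9 := Submodule.sub_mem _ h1 key
      have h10 : sy α (c + 1) i - can α (B + r) (c + (i + 1)) - (sy α (c + 1) i - sy α c (i + 1)) =
          sy α c (i + 1) - can α (B + r) (c + (i + 1)) := by abel
      rwa [h10] at h9
    · have h1 : min (c + (i + 1)) (B + r - 1) = c := by omega
      rw [can, h1]
      have h2 : c + (i + 1) - c = i + 1 := by omega
      rw [h2, sub_self]
      exact Submodule.zero_mem _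

/-- The linear map sending `X^T` to the representative of total degree `T`. -/
noncomputable def canMap (α : ι → K) (E : ℕ) : K[X] →ₗ[K] (ι → K[X]) :=
  (Polynomial.basisMonomials K).constr K (can α E)

theorem canMap_X_pow (α : ι → K) (E T : ℕ) : canMap α E (X ^ T) = can α E T := by
  rw [canMap, ← Polynomial.monomial_one_right_eq_X_pow]
  have := (Polynomial.basisMonomials K).constr_basis K (can α E) T
  rwa [Polynomial.coe_basisMonomials] at this

theorem mul_sub_canMap_mem {α : ι → K} (hα : Function.Injective α) {r : ℕ}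
    (hr : Fintype.card ι = r + 1) {B : ℕ} (hB : 2 ≤ B) (i : ℕ) (hi : i ≤ r) (q : K[X])
    (hq : q.degree < ((B + r : ℕ) : WithBot ℕ)) :
    (fun a => q * C (α a ^ i / cst α a)) - canMap α (B + r) (X ^ i * q) ∈ Kz α B := by
  by_cases hq0 : q = 0
  · subst hq0
    simp only [zero_mul, mul_zero, map_zero, sub_zero]
    exact Submodule.zero_mem _
  have hq' : q.natDegree < B + r := by
    rw [Polynomial.degree_eq_natDegree hq0] at hq
    exact_mod_cast hq
  have e := Polynomial.as_sum_range' q (B + r) hq'
  have e1 : (fun a => q * C (α a ^ i / cst α a)) - canMap α (B + r) (X ^ i * q) =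
      ∑ c ∈ Finset.range (B + r), q.coeff c • (sy α c i - can α (B + r) (c + i)) := by
    have e2 : (fun a => q * C (α a ^ i / cst α a)) =
        ∑ c ∈ Finset.range (B + r), q.coeff c • sy α c i := by
      funext a
      rw [Finset.sum_apply]
      conv_lhs => rw [e]
      rw [Finset.sum_mul]
      refine Finset.sum_congr rfl fun c _ => ?_
      rw [Pi.smul_apply, sy, ← Polynomial.C_mul_X_pow_eq_monomial, Polynomial.smul_eq_C_mul]
      ring
    have e3 : canMap α (B + r) (X ^ i * q) =
        ∑ c ∈ Finset.range (B + r), q.coeff c • can α (B + r) (c + i) := by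
      conv_lhs => rw [e]
      rw [Finset.mul_sum, map_sum]
      refine Finset.sum_congr rfl fun c _ => ?_
      rw [← canMap_X_pow, ← map_smul, ← Polynomial.C_mul_X_pow_eq_monomial,
        Polynomial.smul_eq_C_mul]
      congr 1
      ring
    rw [e2, e3, ← Finset.sum_sub_distrib]
    exact Finset.sum_congr rfl fun c _ => by rw [smul_sub]
  rw [e1]
  exact Submodule.sum_mem _ fun c hc => Submodule.smul_mem _ _
    (sy_sub_can_mem hα hr hB i c (Finset.mem_range.mp hc) hi)

/-- Koszul exactness on one rational normal curve. -/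
theorem kos {α : ι → K} (hα : Function.Injective α) {r : ℕ}
    (hr : Fintype.card ι = r + 1) {B : ℕ} (hB : 2 ≤ B) (h : ι → K[X])
    (hh : ∀ a, (h a).degree < ((B + r : ℕ) : WithBot ℕ)) (h0 : ∑ a, gam α a * h a = 0) :
    h ∈ Kz α B := by
  -- coordinates in the basis of the forms restricting to powers of `X`
  set q : ℕ → K[X] := fun i => ∑ b, h b * C ((gam α b).coeff i) with hq
  have hqd : ∀ i, (q i).degree < ((B + r : ℕ) : WithBot ℕ) := by
    intro i
    refine (Polynomial.degree_sum_le _ _).trans_lt ?_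
    rw [Finset.sup_lt_iff (WithBot.bot_lt_coe _)]
    intro b _
    rw [mul_comm]
    exact (degree_C_mul_le' _ _).trans_lt (hh b)
  have hsum : ∑ i ∈ Finset.range (r + 1), X ^ i * q i = 0 := by
    rw [← h0]
    simp only [hq, Finset.mul_sum]
    rw [Finset.sum_comm]
    refine Finset.sum_congr rfl fun b _ => ?_
    have e := Polynomial.as_sum_range' (gam α b) (r + 1) (by rw [gam_natDegree hr]; omega)
    conv_rhs => rw [e]
    rw [Finset.sum_mul]
    refine Finset.sum_congr rfl fun i _ => ?_
    rw [← Polynomial.C_mul_X_pow_eq_monomial]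
    ring
  have hrep : h = ∑ i ∈ Finset.range (r + 1), fun a => q i * C (α a ^ i / cst α a) := by
    funext a
    rw [Finset.sum_apply]
    simp only [hq, Finset.sum_mul]
    rw [Finset.sum_comm, Finset.sum_eq_single a]
    · have e := Polynomial.eval_eq_sum_range' (p := gam α a) (n := r + 1)
        (by rw [gam_natDegree hr]; omega) (α a)
      rw [gam_eval_self] at e
      have e2 : ∑ x ∈ Finset.range (r + 1), h a * C ((gam α a).coeff x) * C (α a ^ x / cst α a) =
          h a * C (∑ x ∈ Finset.range (r + 1), (gam α a).coeff x * α a ^ x / cst α a) := by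
        rw [map_sum, Finset.mul_sum]
        refine Finset.sum_congr rfl fun x _ => ?_
        rw [mul_assoc, ← C_mul, mul_div_assoc]
      rw [e2, ← Finset.sum_div, ← e, div_self (cst_ne_zero hα a), C_1, mul_one]
    · intro b _ hb
      have e := Polynomial.eval_eq_sum_range' (p := gam α b) (n := r + 1)
        (by rw [gam_natDegree hr]; omega) (α a)
      rw [gam_eval_ne hb] at e
      have e2 : ∑ x ∈ Finset.range (r + 1), h b * C ((gam α b).coeff x) * C (α a ^ x / cst α a) =
          h b * C (∑ x ∈ Finset.range (r + 1), (gam α b).coeff x * α a ^ x / cst α a) := by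
        rw [map_sum, Finset.mul_sum]
        refine Finset.sum_congr rfl fun x _ => ?_
        rw [mul_assoc, ← C_mul, mul_div_assoc]
      rw [e2, ← Finset.sum_div, ← e, zero_div, C_0, mul_zero]
    · simp
  have hmem : h - canMap α (B + r) (∑ i ∈ Finset.range (r + 1), X ^ i * q i) ∈ Kz α B := by
    have e : h - canMap α (B + r) (∑ i ∈ Finset.range (r + 1), X ^ i * q i) =
        ∑ i ∈ Finset.range (r + 1), ((fun a => q i * C (α a ^ i / cst α a)) -
          canMap α (B + r) (X ^ i * q i)) := by
      rw [Finset.sum_sub_distrib, ← hrep, map_sum]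
    rw [e]
    exact Submodule.sum_mem _ fun i hi =>
      mul_sub_canMap_mem hα hr hB i (by have := Finset.mem_range.mp hi; omega) (q i) (hqd i)
  rwa [hsum, map_zero, sub_zero] at hmem

end one

section union

variable {ι κ K : Type*} [Fintype ι] [DecidableEq ι] [Field K] [CharZero K]

theorem sum_skew (g : ι → κ → K[X]) (σ : ι → ι → κ → K[X]) (hσ : ∀ a b, σ a b = - σ b a) :
    ∑ a, g a * ∑ b, g b * σ a b = 0 := by
  have h1 : ∑ a, g a * ∑ b, g b * σ a b = - ∑ a, g a * ∑ b, g b * σ a b := by
    conv_rhs => rw [← Finset.sum_neg_distrib]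
    simp only [Finset.mul_sum]
    rw [Finset.sum_comm]
    refine Finset.sum_congr rfl fun a _ => ?_
    rw [← Finset.sum_neg_distrib]
    refine Finset.sum_congr rfl fun b _ => ?_
    rw [hσ b a]
    ring
  funext j
  have h2 := congrFun h1 j
  simp only [Pi.neg_apply, Pi.zero_apply] at h2 ⊢
  exact CharZero.eq_neg_self_iff.mp h2

/-- Koszul exactness on the union of the curves, in degrees at least three. -/
theorem koszul_exact [Nonempty κ] (α : κ → ι → K) (hα : ∀ j, Function.Injective (α j)) {r : ℕ}
    (hr : Fintype.card ι = r + 1) (n : ℕ) (hn : 1 ≤ n) (hr3 : 3 ≤ r) (i0 i1 : ι) (h01 : i0 ≠ i1)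
    (ρ : ι → κ → K[X]) (hρ : ∀ a, ρ a ∈ Rsp α r (n + 2)) (h0 : ∑ a, gg α a * ρ a = 0) :
    ∃ σ : ι → ι → κ → K[X], (∀ a b, σ a b ∈ Rsp α r (n + 1)) ∧ (∀ a b, σ a b = - σ b a) ∧
      ∀ a, ρ a = ∑ b, gg α b * σ a b := by
  -- step A: make all sections vanish at the coordinate points
  have stepA : ∃ σ : ι → ι → κ → K[X], (∀ a b, σ a b ∈ Rsp α r (n + 1)) ∧
      (∀ a b, σ a b = - σ b a) ∧
      ∀ a j b, (ρ a j - (∑ c, gg α c * σ a c) j).eval (α j b) = 0 := by
    choose w hw using fun a => (hρ a).2.1
    have hwa : ∀ a, w a a = 0 := by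
      intro a
      obtain ⟨j⟩ := ‹Nonempty κ›
      have h1 := congrArg (Polynomial.eval (α j a)) (congrFun h0 j)
      rw [Finset.sum_apply, Polynomial.eval_finsetSum, Finset.sum_eq_single a] at h1
      · simp only [Pi.mul_apply, gg, Polynomial.eval_mul, gam_eval_self, Pi.zero_apply,
          Polynomial.eval_zero, hw] at h1
        have h2 := cst_ne_zero (hα j) a
        rcases mul_eq_zero.mp h1 with h3 | h3
        · exact absurd h3 h2
        · exact (mul_eq_zero.mp h3).resolve_right (pow_ne_zero _ h2)
      · intro b _ hb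
        simp only [Pi.mul_apply, gg, Polynomial.eval_mul, gam_eval_ne hb, zero_mul]
      · simp
    refine ⟨fun a b => w a b • gg α b ^ (n + 1) - w b a • gg α a ^ (n + 1), fun a b => ?_,
      fun a b => ?_, fun a j b => ?_⟩
    · exact Submodule.sub_mem _ (Submodule.smul_mem _ _ (pow_mem_Rsp α (gg_mem_Rsp α hr b) _))
        (Submodule.smul_mem _ _ (pow_mem_Rsp α (gg_mem_Rsp α hr a) _))
    · exact (neg_sub _ _).symm
    · rw [Polynomial.eval_sub, hw, Finset.sum_apply, Polynomial.eval_finsetSum,
        Finset.sum_eq_single b]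
      · simp only [Pi.mul_apply, gg, Pi.sub_apply, Pi.smul_apply, Pi.pow_apply,
          Polynomial.eval_mul, Polynomial.eval_sub, Polynomial.eval_smul, Polynomial.eval_pow,
          gam_eval_self, smul_eq_mul]
        by_cases hab : a = b
        · subst hab
          rw [hwa, gam_eval_self]; ring
        · rw [gam_eval_ne hab, zero_pow (by omega)]; ring
      · intro c _ hc
        simp only [Pi.mul_apply, gg, Polynomial.eval_mul, gam_eval_ne hc, zero_mul]
      · simp
  obtain ⟨σA, hA1, hA2, hA3⟩ := stepA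
  set ρA : ι → κ → K[X] := fun a => ρ a - ∑ c, gg α c * σA a c with hρA
  have hρA1 : ∀ a, ρA a ∈ Rsp α r (n + 2) := fun a => Submodule.sub_mem _ (hρ a)
    (Submodule.sum_mem _ fun c _ => by
      have := mul_mem_Rsp α r 1 (n + 1) (gg_mem_Rsp α hr c) (hA1 a c)
      rwa [show 1 + (n + 1) = n + 2 by ring] at this)
  have hρA0 : ∑ a, gg α a * ρA a = 0 := by
    simp only [hρA, mul_sub, Finset.sum_sub_distrib]
    rw [h0, sum_skew _ _ hA2, sub_zero]
  -- step B: make the leading coefficients vanish
  have stepB : ∃ σ : ι → ι → κ → K[X], (∀ a b, σ a b ∈ Rsp α r (n + 1)) ∧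
      (∀ a b, σ a b = - σ b a) ∧
      ∀ a j, (∀ b, (ρA a j - (∑ c, gg α c * σ a c) j).eval (α j b) = 0) ∧
        (ρA a j - (∑ c, gg α c * σ a c) j).coeff ((n + 2) * r) = 0 := by
    choose l hl using fun a => (hρA1 a).2.2
    have hmon : ∀ j (a b c : ι), (gam (α j) c * (gam (α j) a ^ n * gam (α j) b)).coeff
        ((n + 2) * r) = 1 := by
      intro j a b c
      have h1 := (gam_monic (α := α j) c).mul
        (((gam_monic (α := α j) a).pow n).mul (gam_monic (α := α j) b))
      have h2 : (gam (α j) c * (gam (α j) a ^ n * gam (α j) b)).natDegree = (n + 2) * r := by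
        rw [(gam_monic c).natDegree_mul (((gam_monic a).pow n).mul (gam_monic b)),
          ((gam_monic a).pow n).natDegree_mul (gam_monic b), (gam_monic a).natDegree_pow,
          gam_natDegree hr, gam_natDegree hr, gam_natDegree hr]
        ring
      rw [Polynomial.Monic, Polynomial.leadingCoeff, h2] at h1
      exact h1
    have hlsum : ∑ a, l a = 0 := by
      obtain ⟨j⟩ := ‹Nonempty κ›
      have h1 := congrArg (fun p => Polynomial.coeff p (1 * r + (n + 2) * r)) (congrFun hρA0 j)
      simp only [Finset.sum_apply, Polynomial.finsetSum_coeff, Pi.mul_apply, Pi.zero_apply,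
        Polynomial.coeff_zero] at h1
      rw [← h1]
      refine Finset.sum_congr rfl fun a _ => ?_
      rw [Polynomial.coeff_mul_add_eq_of_natDegree_le ((gg_mem_Rsp α hr a).1 j) ((hρA1 a).1 j), hl,
        one_mul]
      have h2 := gam_monic (α := α j) a
      rw [Polynomial.Monic, Polynomial.leadingCoeff, gam_natDegree hr] at h2
      rw [gg, h2, one_mul]
    set M : κ → K[X] := gg α i0 ^ n * gg α i1 with hM
    have hMR : M ∈ Rsp α r (n + 1) :=
      mul_mem_Rsp α r n 1 (pow_mem_Rsp α (gg_mem_Rsp α hr i0) _) (gg_mem_Rsp α hr i1)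
    refine ⟨fun a b => ((if b = i0 then l a else 0) - if a = i0 then l b else 0) • M,
      fun a b => Submodule.smul_mem _ _ hMR, fun a b => ?_, fun a j => ⟨fun b => ?_, ?_⟩⟩
    · rw [← neg_smul, neg_sub]
    · rw [Polynomial.eval_sub]
      have e1 : (ρA a j).eval (α j b) = 0 := hA3 a j b
      rw [e1, Finset.sum_apply, Polynomial.eval_finsetSum, Finset.sum_eq_zero, sub_zero]
      intro c _
      have e2 : (M j).eval (α j b) = 0 := by
        simp only [hM, Pi.mul_apply, Pi.pow_apply, gg, Polynomial.eval_mul, Polynomial.eval_pow]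
        by_cases hb : i1 = b
        · subst hb
          rw [gam_eval_ne h01, zero_pow (by omega), zero_mul]
        · rw [gam_eval_ne hb, mul_zero]
      rw [Pi.mul_apply]
      beta_reduce
      rw [Pi.smul_apply, Polynomial.eval_mul, Polynomial.eval_smul, e2, smul_zero,
        mul_zero]
    · rw [Polynomial.coeff_sub, hl, Finset.sum_apply, Polynomial.finsetSum_coeff]
      have e3 : ∀ c, ((gg α c * ((if c = i0 then l a else 0) - if a = i0 then l c else 0) • M) j).coeff
          ((n + 2) * r) = (if c = i0 then l a else 0) - if a = i0 then l c else 0 := by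
        intro c
        rw [mul_smul_comm, Pi.smul_apply, Polynomial.coeff_smul]
        have := hmon j i0 i1 c
        simp only [hM, Pi.mul_apply, Pi.pow_apply, gg]
        rw [this, smul_eq_mul, mul_one]
      simp only [e3]
      rw [Finset.sum_sub_distrib, Finset.sum_ite_eq' Finset.univ i0]
      by_cases ha : a = i0
      · simp [ha, hlsum]
      · simp [ha]
  obtain ⟨σB, hB1, hB2, hB3⟩ := stepB
  set ρB : ι → κ → K[X] := fun a => ρA a - ∑ c, gg α c * σB a c with hρB
  have hρB1 : ∀ a, ρB a ∈ Rsp α r (n + 2) := fun a => Submodule.sub_mem _ (hρA1 a)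
    (Submodule.sum_mem _ fun c _ => by
      have := mul_mem_Rsp α r 1 (n + 1) (gg_mem_Rsp α hr c) (hB1 a c)
      rwa [show 1 + (n + 1) = n + 2 by ring] at this)
  have hρB0 : ∑ a, gg α a * ρB a = 0 := by
    simp only [hρB, mul_sub, Finset.sum_sub_distrib]
    rw [hρA0, sum_skew _ _ hB2, sub_zero]
  -- step C
  have hnr : 2 ≤ n * r - 1 := by
    have : 3 ≤ n * r := by nlinarith
    omega
  have stepC : ∀ j, ∃ h : ι → K[X], (∀ a, ρB a j = nod (α j) * h a) ∧
      h ∈ Kz (α j) (n * r - 1) := by
    intro j
    have h1 : ∀ a, ∃ h : K[X], ρB a j = nod (α j) * h ∧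
        h.degree < ((n * r - 1 + r : ℕ) : WithBot ℕ) := by
      intro a
      refine exists_nod_mul (hα j) hr _ (hB3 a j).1 ?_
      have e2 : ((n * r - 1 + r) + (r + 1) : ℕ) = (n + 2) * r := by
        rw [add_mul]; omega
      rw [e2]
      refine (Polynomial.degree_lt_iff_coeff_zero _ _).mpr fun k hk => ?_
      rcases hk.eq_or_lt with rfl | hk
      · exact (hB3 a j).2
      · exact Polynomial.coeff_eq_zero_of_natDegree_lt (((hρB1 a).1 j).trans_lt hk)
    choose h hh1 hh2 using h1
    refine ⟨h, hh1, kos (hα j) hr hnr h hh2 ?_⟩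
    have h2 := congrFun hρB0 j
    rw [Finset.sum_apply] at h2
    have h3 : nod (α j) * ∑ a, gam (α j) a * h a = 0 := by
      rw [Finset.mul_sum]
      refine Eq.trans (Finset.sum_congr rfl fun a _ => ?_) h2
      rw [Pi.mul_apply, hh1 a, gg]; ring
    exact (mul_eq_zero.mp h3).resolve_left nod_monic.ne_zero
  choose h hh1 hh2 using stepC
  choose g hg1 hg2 hg3 using hh2
  refine ⟨fun a b => σA a b + σB a b + fun j => nod (α j) * g j a b, fun a b => ?_, fun a b => ?_,
    fun a => ?_⟩
  · exact Submodule.add_mem _ (Submodule.add_mem _ (hA1 a b) (hB1 a b))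
      (nod_mul_mem_Rsp α hr n _ (fun j => hg2 j a b))
  · funext j
    simp only [Pi.add_apply, Pi.neg_apply]
    rw [hA2 a b, hB2 a b, hg1 j a b, Pi.neg_apply, Pi.neg_apply]
    ring
  · have e1 : ∑ b, gg α b * (σA a b + σB a b + fun j => nod (α j) * g j a b) =
        ∑ b, gg α b * σA a b + ∑ b, gg α b * σB a b +
        ∑ b, gg α b * fun j => nod (α j) * g j a b := by
      rw [← Finset.sum_add_distrib, ← Finset.sum_add_distrib]
      exact Finset.sum_congr rfl fun b _ => by ring
    have e2 : ∑ b, (gg α b * fun j => nod (α j) * g j a b) = ρB a := by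
      funext j
      rw [Finset.sum_apply, hh1 j a, hg3 j a, Finset.mul_sum]
      exact Finset.sum_congr rfl fun b _ => by rw [Pi.mul_apply, gg]; ring
    rw [e1, e2]
    simp only [hρB, hρA]
    abel

end union

end Run7.h971
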