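import Mathlib
import Pool.Agent.Run7.h971.Koszul
import Pool.Agent.Run7.h971.Generic

/-!
Restriction of forms to the union of the curves.
-/

open Finset

set_option linter.unusedSectionVars false
set_option linter.unusedSimpArgs false

namespace Run7.h971

section forms

variable {ι κ K : Type*} [Fintype ι] [DecidableEq ι] [Field K]

/-- Restriction of polynomials to the curves (in the affine parameter). -/
noncomputable def res (α : κ → ι → K) : MvPolynomial ι K →ₐ[K] (κ → Polynomial K) :=
  MvPolynomial.aeval (gg α)

theorem res_X (α : κ → ι → K) (a : ι) : res α (MvPolynomial.X a) = gg α a := by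
  rw [res, MvPolynomial.aeval_X]

theorem res_apply (α : κ → ι → K) (F : MvPolynomial ι K) (j : κ) :
    res α F j = MvPolynomial.aeval (fun a => gam (α j) a) F := by
  have h : (Pi.evalAlgHom K (fun _ : κ => Polynomial K) j).comp (res α) =
      MvPolynomial.aeval (fun a => gam (α j) a) := by
    apply MvPolynomial.algHom_ext
    intro a
    simp [res, gg]
  exact DFunLike.congr_fun h F

theorem prod_mem_Rsp (α : κ → ι → K) {r : ℕ} (hr : Fintype.card ι = r + 1) (s : Finset ι)
    (d : ι → ℕ) : ∏ a ∈ s, gg α a ^ d a ∈ Rsp α r (∑ a ∈ s, d a) := by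
  induction s using Finset.induction_on with
  | empty => simpa using one_mem_Rsp α r
  | insert a s ha ih =>
    rw [Finset.prod_insert ha, Finset.sum_insert ha]
    exact mul_mem_Rsp α r _ _ (pow_mem_Rsp α (gg_mem_Rsp α hr a) _) ih

theorem res_mem (α : κ → ι → K) {r : ℕ} (hr : Fintype.card ι = r + 1) {n : ℕ}
    {F : MvPolynomial ι K} (hF : F.IsHomogeneous n) : res α F ∈ Rsp α r n := by
  rw [res, MvPolynomial.aeval_def, MvPolynomial.eval₂_eq']
  refine Submodule.sum_mem _ fun d hd => ?_
  rw [← Algebra.smul_def]
  refine Submodule.smul_mem _ _ ?_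
  have h := prod_mem_Rsp α hr Finset.univ (fun a => d a)
  have h2 : ∑ a, d a = n := by
    have := hF.degree_eq_sum_deg_support hd
    rw [← Finsupp.degree_eq_sum]
    exact this.symm
  rwa [h2] at h

/-- Value of a restricted form at the parameter of a coordinate point. -/
theorem res_eval (α : κ → ι → K) {n : ℕ} {F : MvPolynomial ι K} (hF : F.IsHomogeneous n)
    (j : κ) (a : ι) :
    (res α F j).eval (α j a) = F.coeff (Finsupp.single a n) * cst (α j) a ^ n := by
  rw [res_apply, MvPolynomial.aeval_def, MvPolynomial.eval₂_eq', Polynomial.eval_finsetSum]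
  have key : ∀ d ∈ F.support, Polynomial.eval (α j a) (algebraMap K (Polynomial K)
      (MvPolynomial.coeff d F) * ∏ i, gam (α j) i ^ d i) =
      if d = Finsupp.single a n then F.coeff d * cst (α j) a ^ n else 0 := by
    intro d hd
    rw [Polynomial.eval_mul, Polynomial.algebraMap_eq, Polynomial.eval_C, Polynomial.eval_prod]
    have hdeg : ∑ i, d i = n := by
      have := hF.degree_eq_sum_deg_support hd
      rw [← Finsupp.degree_eq_sum]
      exact this.symm
    split_ifs with h
    · subst h
      rw [Finset.prod_eq_single a]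
      · rw [Polynomial.eval_pow, gam_eval_self, Finsupp.single_eq_same]
      · intro b _ hb
        rw [Finsupp.single_eq_of_ne hb, pow_zero, Polynomial.eval_one]
      · simp
    · have : ∃ b, b ≠ a ∧ d b ≠ 0 := by
        by_contra hcon
        push Not at hcon
        apply h
        ext b
        by_cases hb : b = a
        · subst hb
          rw [Finsupp.single_eq_same, ← hdeg, Finset.sum_eq_single b]
          · intro c _ hc; exact hcon c hc
          · simp
        · rw [Finsupp.single_eq_of_ne hb]; exact hcon b hb
      obtain ⟨b, hb, hdb⟩ := this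
      rw [Finset.prod_eq_zero (Finset.mem_univ b), mul_zero]
      rw [Polynomial.eval_pow, gam_eval_ne hb, zero_pow hdb]
  rw [Finset.sum_congr rfl key, Finset.sum_ite_eq']
  split_ifs with h
  · rfl
  · rw [MvPolynomial.notMem_support_iff.mp h, zero_mul]

end forms

section syz

variable {ι κ K : Type*} [Fintype ι] [DecidableEq ι] [Field K]

/-- Forms of degree `n` vanishing on the curves. -/
noncomputable def IX (α : κ → ι → K) (n : ℕ) : Submodule K (MvPolynomial ι K) :=
  MvPolynomial.homogeneousSubmodule ι K n ⊓ LinearMap.ker (res α).toLinearMap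

theorem mem_IX {α : κ → ι → K} {n : ℕ} {F : MvPolynomial ι K} :
    F ∈ IX α n ↔ F.IsHomogeneous n ∧ res α F = 0 := by
  simp [IX]

theorem exists_pair_of_degree_two (d : ι →₀ ℕ) (hd : d.degree = 2) :
    ∃ a b, d = Finsupp.single a 1 + Finsupp.single b 1 := by
  have h1 : Multiset.card (Finsupp.toMultiset d) = 2 := by
    rw [Finsupp.card_toMultiset]; exact hd
  obtain ⟨a, b, hab⟩ := Multiset.card_eq_two.mp h1
  refine ⟨a, b, ?_⟩
  rw [← Finsupp.toMultiset_toFinsupp d, hab, ← Multiset.toFinsupp_singleton,
    ← Multiset.toFinsupp_singleton, ← Multiset.toFinsupp_add]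
  rfl

/-- Divided restriction: the polynomial `prod_{c : d c = 0} (t - α_c)`. -/
noncomputable def tauP (α : ι → K) (d : ι →₀ ℕ) : Polynomial K :=
  Lagrange.nodal (univ.filter fun c => d c = 0) α

theorem res_quadric (α : κ → ι → K) {F : MvPolynomial ι K} (hF : F.IsHomogeneous 2)
    (hsq : ∀ a, F.coeff (Finsupp.single a 2) = 0) (j : κ) :
    res α F j = nod (α j) * ∑ d ∈ F.support, Polynomial.C (F.coeff d) * tauP (α j) d := by
  rw [res_apply, MvPolynomial.aeval_def, MvPolynomial.eval₂_eq', Finset.mul_sum]
  refine Finset.sum_congr rfl fun d hd => ?_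
  have hdeg : d.degree = 2 := by
    have := hF.degree_eq_sum_deg_support hd
    exact this.symm
  obtain ⟨a, b, rfl⟩ := exists_pair_of_degree_two d hdeg
  have hab : a ≠ b := by
    rintro rfl
    rw [← Finsupp.single_add] at hd
    exact (MvPolynomial.mem_support_iff.mp hd) (hsq a)
  have h1 : ∏ i, gam (α j) i ^ (Finsupp.single a 1 + Finsupp.single b 1 : ι →₀ ℕ) i =
      gam (α j) a * gam (α j) b := by
    simp only [Finsupp.coe_add, Pi.add_apply, pow_add, Finset.prod_mul_distrib]
    congr 1
    · rw [Finset.prod_eq_single a]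
      · simp
      · intro c _ hc; simp [Finsupp.single_eq_of_ne hc]
      · simp
    · rw [Finset.prod_eq_single b]
      · simp
      · intro c _ hc; simp [Finsupp.single_eq_of_ne hc]
      · simp
  have h2 : (univ.filter fun c => (Finsupp.single a 1 + Finsupp.single b 1 : ι →₀ ℕ) c = 0) =
      (univ.erase a).erase b := by
    ext c
    simp only [Finset.mem_filter, Finset.mem_univ, true_and, Finsupp.coe_add, Pi.add_apply,
      Finset.mem_erase, and_true]
    by_cases h1 : c = a
    · subst h1; simp
    · by_cases h2 : c = b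
      · subst h2; simp
      · simp [Finsupp.single_apply, h1, h2, Ne.symm h1, Ne.symm h2]
  rw [h1, gam_mul_gam hab, tauP, h2, Polynomial.algebraMap_eq]
  ring

theorem quadric_eqs (α : κ → ι → K) {F : MvPolynomial ι K} (hF : F.IsHomogeneous 2)
    (hsq : ∀ a, F.coeff (Finsupp.single a 2) = 0) (j : κ) (h0 : res α F j = 0) (a : ι) :
    ∑ b ∈ univ.erase a, F.coeff (Finsupp.single a 1 + Finsupp.single b 1) *
      ∏ c ∈ (univ.erase a).erase b, (α j a - α j c) = 0 := by
  rw [res_quadric α hF hsq j] at h0
  have h1 := (mul_eq_zero.mp h0).resolve_left nod_monic.ne_zero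
  have h2 := congrArg (Polynomial.eval (α j a)) h1
  rw [Polynomial.eval_finsetSum, Polynomial.eval_zero] at h2
  simp only [Polynomial.eval_mul, Polynomial.eval_C, tauP, Lagrange.eval_nodal] at h2
  have hinj : Set.InjOn (fun b : ι => (Finsupp.single a 1 + Finsupp.single b 1 : ι →₀ ℕ))
      (univ.erase a : Finset ι) := by
    intro b _ b' _ h
    have h' := add_left_cancel h
    exact Finsupp.single_left_injective one_ne_zero h'
  rw [← h2]
  have e1 : ∑ b ∈ univ.erase a, F.coeff (Finsupp.single a 1 + Finsupp.single b 1) *
      ∏ c ∈ (univ.erase a).erase b, (α j a - α j c) =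
      ∑ d ∈ (univ.erase a).image (fun b : ι => (Finsupp.single a 1 + Finsupp.single b 1 : ι →₀ ℕ)),
        F.coeff d * ∏ c ∈ univ.filter (fun c => d c = 0), (α j a - α j c) := by
    rw [Finset.sum_image hinj]
    refine Finset.sum_congr rfl fun b hb => ?_
    have hba : b ≠ a := Finset.ne_of_mem_erase hb
    congr 1
    refine Finset.prod_congr ?_ fun _ _ => rfl
    ext c
    simp only [Finset.mem_filter, Finset.mem_univ, true_and, Finsupp.coe_add, Pi.add_apply,
      Finset.mem_erase, and_true]
    by_cases h1 : c = a
    · subst h1; simp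
    · by_cases h2 : c = b
      · subst h2; simp
      · simp [Finsupp.single_apply, h1, h2, Ne.symm h1, Ne.symm h2]
  rw [e1]
  set E := (univ.erase a).image (fun b : ι => (Finsupp.single a 1 + Finsupp.single b 1 : ι →₀ ℕ))
    with hE
  have e2 : ∑ d ∈ E, F.coeff d * ∏ c ∈ univ.filter (fun c => d c = 0), (α j a - α j c) =
      ∑ d ∈ E ∪ F.support, F.coeff d * ∏ c ∈ univ.filter (fun c => d c = 0), (α j a - α j c) := by
    refine Finset.sum_subset Finset.subset_union_left fun d hd hdE => ?_
    rcases Finset.mem_union.mp hd with h | h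
    · exact absurd h hdE
    · have hdeg : d.degree = 2 := (hF.degree_eq_sum_deg_support h).symm
      by_cases hda : d a = 0
      · rw [Finset.prod_eq_zero (i := a), mul_zero]
        · simp [hda]
        · exact sub_self _
      · exfalso
        apply hdE
        obtain ⟨x, y, rfl⟩ := exists_pair_of_degree_two d hdeg
        have hxy : x ≠ y := by
          rintro rfl
          rw [← Finsupp.single_add] at h
          exact (MvPolynomial.mem_support_iff.mp h) (hsq x)
        by_cases hx : x = a
        · subst hx
          exact Finset.mem_image.mpr ⟨y, Finset.mem_erase.mpr ⟨hxy.symm, Finset.mem_univ _⟩, rfl⟩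
        · by_cases hy : y = a
          · subst hy
            exact Finset.mem_image.mpr ⟨x, Finset.mem_erase.mpr ⟨hxy, Finset.mem_univ _⟩,
              add_comm _ _⟩
          · exfalso
            apply hda
            simp [Finsupp.single_apply, hx, hy]
  have e3 : ∑ d ∈ F.support, F.coeff d * ∏ c ∈ univ.filter (fun c => d c = 0), (α j a - α j c) =
      ∑ d ∈ E ∪ F.support, F.coeff d * ∏ c ∈ univ.filter (fun c => d c = 0), (α j a - α j c) := by
    refine Finset.sum_subset Finset.subset_union_right fun d _ hdS => ?_
    rw [MvPolynomial.notMem_support_iff.mp hdS, zero_mul]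
  rw [e2, ← e3]

/-- No linear syzygies among the quadrics through the curves, from the core statement. -/
theorem no_linear_syzygies [Nonempty κ] (α : κ → ι → K) (hα : ∀ j, Function.Injective (α j))
    (hcore : Core α) (Q : ι → MvPolynomial ι K) (hQ : ∀ u, Q u ∈ IX α 2)
    (hsyz : ∑ u, MvPolynomial.X u * Q u = 0) (u : ι) : Q u = 0 := by
  have hhom : ∀ u, (Q u).IsHomogeneous 2 := fun u => (mem_IX.mp (hQ u)).1
  have hres : ∀ u, res α (Q u) = 0 := fun u => (mem_IX.mp (hQ u)).2
  have hsq : ∀ u a, (Q u).coeff (Finsupp.single a 2) = 0 := by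
    intro u a
    obtain ⟨j⟩ := ‹Nonempty κ›
    have h1 := res_eval α (hhom u) j a
    rw [hres u, Pi.zero_apply, Polynomial.eval_zero] at h1
    exact (mul_eq_zero.mp h1.symm).resolve_right (pow_ne_zero _ (cst_ne_zero (hα j) a))
  -- coefficients of the syzygy
  have hco : ∀ m : ι →₀ ℕ, ∑ u, (if u ∈ m.support then
      (Q u).coeff (m - Finsupp.single u 1) else 0) = 0 := by
    intro m
    have h1 := congrArg (MvPolynomial.coeff m) hsyz
    rw [MvPolynomial.coeff_sum, MvPolynomial.coeff_zero] at h1
    simp only [MvPolynomial.coeff_X_mul'] at h1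
    exact h1
  set ω : ι → ι → ι → K := fun u a b =>
    if a = b then 0 else (Q u).coeff (Finsupp.single a 1 + Finsupp.single b 1) with hω
  have hsym : ∀ u a b, ω u a b = ω u b a := by
    intro u a b
    simp only [hω, eq_comm (a := a), add_comm (Finsupp.single a 1)]
  have haa : ∀ u a, ω u a a = 0 := fun u a => by simp [hω]
  have huu : ∀ u a, ω u u a = 0 := by
    intro u a
    by_cases hua : u = a
    · subst hua; exact haa u u
    have h1 := hco (Finsupp.single u 1 + (Finsupp.single u 1 + Finsupp.single a 1))
    rw [← Finset.sum_subset (Finset.subset_univ {u, a}), Finset.sum_pair hua] at h1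
    · have h2 : Finsupp.single u 1 + (Finsupp.single u 1 + Finsupp.single a 1) - Finsupp.single u 1
          = (Finsupp.single u 1 + Finsupp.single a 1 : ι →₀ ℕ) := by
        rw [add_tsub_cancel_left]
      have h3 : Finsupp.single u 1 + (Finsupp.single u 1 + Finsupp.single a 1) - Finsupp.single a 1
          = (Finsupp.single u 2 : ι →₀ ℕ) := by
        rw [← add_assoc, add_tsub_cancel_right, ← Finsupp.single_add]
      rw [h2, h3, hsq a u, ite_self, add_zero, if_pos] at h1
      · simp only [hω, hua, if_false]
        exact h1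
      · simp
    · intro x _ hx
      simp only [Finset.mem_insert, Finset.mem_singleton, not_or] at hx
      rw [if_neg]
      simp [Finsupp.single_apply, Ne.symm hx.1, Ne.symm hx.2]
  have hcyc : ∀ u a b, ω u a b + ω a b u + ω b u a = 0 := by
    intro u a b
    by_cases hua : u = a
    · subst hua
      rw [huu, hsym u b u, huu, hsym b u u, haa]; ring
    by_cases hub : u = b
    · subst hub
      rw [hsym u a u, huu, haa]; ring
    by_cases hab : a = b
    · subst hab
      rw [haa, huu, hsym a u a, huu]; ring
    have h1 := hco (Finsupp.single u 1 + (Finsupp.single a 1 + Finsupp.single b 1))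
    rw [← Finset.sum_subset (Finset.subset_univ {u, a, b}), Finset.sum_insert (by simp [hua, hub]),
      Finset.sum_pair hab] at h1
    · have h2 : Finsupp.single u 1 + (Finsupp.single a 1 + Finsupp.single b 1) - Finsupp.single u 1
          = (Finsupp.single a 1 + Finsupp.single b 1 : ι →₀ ℕ) := by
        rw [add_tsub_cancel_left]
      have h3 : Finsupp.single u 1 + (Finsupp.single a 1 + Finsupp.single b 1) - Finsupp.single a 1
          = (Finsupp.single b 1 + Finsupp.single u 1 : ι →₀ ℕ) := by
        rw [add_comm, add_assoc, add_tsub_cancel_left]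
      have h4 : Finsupp.single u 1 + (Finsupp.single a 1 + Finsupp.single b 1) - Finsupp.single b 1
          = (Finsupp.single u 1 + Finsupp.single a 1 : ι →₀ ℕ) := by
        rw [← add_assoc, add_tsub_cancel_right]
      rw [h2, h3, h4, if_pos, if_pos, if_pos] at h1
      · simp only [hω, hua, hab, Ne.symm hub, if_false]
        rw [add_assoc]
        exact h1
      · simp
      · simp
      · simp
    · intro x _ hx
      simp only [Finset.mem_insert, Finset.mem_singleton, not_or] at hx
      rw [if_neg]
      simp [Finsupp.single_apply, Ne.symm hx.1, Ne.symm hx.2.1, Ne.symm hx.2.2]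
  have hzero := hcore ω hsym haa huu hcyc (by
    intro j u a
    have h1 := quadric_eqs α (hhom u) (hsq u) j (by rw [hres u]; rfl) a
    rw [← h1]
    refine Finset.sum_congr rfl fun b hb => ?_
    simp only [hω, (Finset.ne_of_mem_erase hb).symm, if_false])
  ext d
  rw [MvPolynomial.coeff_zero]
  by_contra hd
  have hdeg : d.degree = 2 := by
    by_contra h
    exact hd ((hhom u).coeff_eq_zero h)
  obtain ⟨a, b, rfl⟩ := exists_pair_of_degree_two d hdeg
  by_cases hab : a = b
  · subst hab
    apply hd
    rw [← Finsupp.single_add]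
    exact hsq u a
  · have h1 := hzero u a b
    simp only [hω, hab, if_false] at h1
    exact hd h1

end syz

end Run7.h971
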