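import Mathlib
import Pool.Agent.Run7.h971.Forms

/-!
The dimension count.
-/

open Finset

set_option linter.unusedSectionVars false
set_option linter.unusedSimpArgs false

namespace Run7.h971

section homog

variable {ι K : Type*} [Fintype ι] [DecidableEq ι] [Field K]

theorem finrank_homog (n : ℕ) :
    Module.finrank K (MvPolynomial.homogeneousSubmodule ι K n) =
      (Fintype.card ι + n - 1).choose n := by
  have e : (MvPolynomial.homogeneousSubmodule ι K n) ≃ₗ[K]
      ({d : ι →₀ ℕ | d.degree = n} →₀ K) :=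
    (LinearEquiv.ofEq _ _ (MvPolynomial.homogeneousSubmodule_eq_finsupp_supported ι K n)).trans
      (AddMonoidAlgebra.supportedEquivFinsupp _)
  rw [e.finrank_eq]
  have hmem : ∀ d : ι →₀ ℕ, d ∈ Finset.finsuppAntidiag (univ : Finset ι) n ↔
      d ∈ {d : ι →₀ ℕ | d.degree = n} := by
    intro d
    simp [Finset.mem_finsuppAntidiag, Finsupp.degree_eq_sum]
  let _ : Fintype {d : ι →₀ ℕ | d.degree = n} := Fintype.subtype _ hmem
  rw [Module.finrank_finsupp_self, Fintype.subtype_card, Finset.card_finsuppAntidiag_nat_eq_choose,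
    Finset.card_univ]

instance finite_homog (n : ℕ) : Module.Finite K (MvPolynomial.homogeneousSubmodule ι K n) :=
  Module.Finite.iff_fg.mpr (MvPolynomial.homogeneousSubmodule_fg ι K n)

end homog

section count

variable {ι κ K : Type*} [Fintype ι] [DecidableEq ι] [Fintype κ] [Field K]

/-- Restrictions of forms of degree `n`. -/
noncomputable def Sbar (α : κ → ι → K) (n : ℕ) : Submodule K (κ → Polynomial K) :=
  (MvPolynomial.homogeneousSubmodule ι K n).map (res α).toLinearMap

theorem mem_Sbar {α : κ → ι → K} {n : ℕ} {f : κ → Polynomial K} :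
    f ∈ Sbar α n ↔ ∃ F : MvPolynomial ι K, F.IsHomogeneous n ∧ res α F = f := by
  simp [Sbar, Submodule.mem_map]

theorem Sbar_le (α : κ → ι → K) {r : ℕ} (hr : Fintype.card ι = r + 1) (n : ℕ) :
    Sbar α n ≤ Rsp α r n := by
  intro f hf
  obtain ⟨F, hF, rfl⟩ := mem_Sbar.mp hf
  exact res_mem α hr hF

instance (α : κ → ι → K) (n : ℕ) : Module.Finite K (Sbar α n) := by
  unfold Sbar; infer_instance

instance (α : κ → ι → K) (n : ℕ) : Module.Finite K (IX α n) := by
  unfold IX; infer_instance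

theorem rank_nullity (α : κ → ι → K) (n : ℕ) :
    Module.finrank K (Sbar α n) + Module.finrank K (IX α n) =
      Module.finrank K (MvPolynomial.homogeneousSubmodule ι K n) := by
  have h := LinearMap.finrank_range_add_finrank_ker
    ((res α).toLinearMap.domRestrict (MvPolynomial.homogeneousSubmodule ι K n))
  rw [LinearMap.range_domRestrict, LinearMap.ker_domRestrict] at h
  rw [← h, Sbar, IX]
  congr 1
  rw [← Submodule.finrank_map_subtype_eq, Submodule.map_comap_subtype]

end count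

section main

variable {ι κ K : Type*} [Fintype ι] [DecidableEq ι] [Fintype κ] [Nonempty κ] [Field K]

theorem X_mul_mem_IX {α : κ → ι → K} {n : ℕ} (a : ι) {F : MvPolynomial ι K} (hF : F ∈ IX α n) :
    MvPolynomial.X a * F ∈ IX α (n + 1) := by
  rw [mem_IX] at hF ⊢
  refine ⟨?_, ?_⟩
  · rw [add_comm]; exact (MvPolynomial.isHomogeneous_X K a).mul hF.1
  · rw [map_mul, hF.2, mul_zero]

/-- The multiplication map from tuples of forms of degree `n` to forms of degree `n + 1`. -/
noncomputable def mulI (α : κ → ι → K) (n : ℕ) : (ι → IX α n) →ₗ[K] IX α (n + 1) where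
  toFun Q := ⟨∑ a, MvPolynomial.X a * (Q a : MvPolynomial ι K),
    Submodule.sum_mem _ fun a _ => X_mul_mem_IX a (Q a).2⟩
  map_add' P Q := by
    ext1
    simp [mul_add, Finset.sum_add_distrib]
  map_smul' c Q := by
    ext1
    simp [Finset.smul_sum]

theorem mulI_injective (α : κ → ι → K) (hα : ∀ j, Function.Injective (α j)) (hcore : Core α) :
    Function.Injective (mulI α 2) := by
  rw [injective_iff_map_eq_zero]
  intro Q hQ
  funext a
  have h1 := congrArg Subtype.val hQ
  have h2 := no_linear_syzygies α hα hcore (fun a => (Q a : MvPolynomial ι K))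
    (fun a => (Q a).2) h1 a
  exact Subtype.ext h2

theorem card_mul_finrank_IX_le (α : κ → ι → K) (hα : ∀ j, Function.Injective (α j))
    (hcore : Core α) : Fintype.card ι * Module.finrank K (IX α 2) ≤ Module.finrank K (IX α 3) := by
  have h := LinearMap.finrank_le_finrank_of_injective (mulI_injective α hα hcore)
  rw [Module.finrank_pi_fintype] at h
  simpa using h

/-- Multiplication by a coordinate on sections. -/
noncomputable def mulL (α : κ → ι → K) {r : ℕ} (hr : Fintype.card ι = r + 1) (n : ℕ) (a : ι) :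
    Rsp α r n →ₗ[K] Rsp α r (n + 1) where
  toFun f := ⟨gg α a * f, by
    have := mul_mem_Rsp α r 1 n (gg_mem_Rsp α hr a) f.2
    rwa [add_comm] at this⟩
  map_add' f g := by ext1; simp [mul_add]
  map_smul' c f := by ext1; simp

/-- The forms inside the sections. -/
noncomputable def Tsub (α : κ → ι → K) (r n : ℕ) : Submodule K (Rsp α r n) :=
  (Sbar α n).comap (Rsp α r n).subtype

theorem finrank_Tsub (α : κ → ι → K) {r : ℕ} (hr : Fintype.card ι = r + 1) (n : ℕ) :
    Module.finrank K (Tsub α r n) = Module.finrank K (Sbar α n) := by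
  rw [← Submodule.finrank_map_subtype_eq, Tsub, Submodule.map_comap_subtype,
    inf_eq_right.mpr (Sbar_le α hr n)]

theorem gg_mul_mem_Sbar {α : κ → ι → K} {n : ℕ} (a : ι) {f : κ → Polynomial K}
    (hf : f ∈ Sbar α n) : gg α a * f ∈ Sbar α (n + 1) := by
  obtain ⟨F, hF, rfl⟩ := mem_Sbar.mp hf
  refine mem_Sbar.mpr ⟨MvPolynomial.X a * F, ?_, ?_⟩
  · rw [add_comm]; exact (MvPolynomial.isHomogeneous_X K a).mul hF
  · rw [map_mul, res_X]

theorem mulL_mem (α : κ → ι → K) {r : ℕ} (hr : Fintype.card ι = r + 1) (n : ℕ) (a : ι) :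
    Tsub α r n ≤ (Tsub α r (n + 1)).comap (mulL α hr n a) := by
  intro f hf
  exact gg_mul_mem_Sbar a hf

/-- Multiplication on the cokernels. -/
noncomputable def mulQ (α : κ → ι → K) {r : ℕ} (hr : Fintype.card ι = r + 1) (n : ℕ) :
    (ι → (Rsp α r n ⧸ Tsub α r n)) →ₗ[K] (Rsp α r (n + 1) ⧸ Tsub α r (n + 1)) :=
  ∑ a, (Submodule.mapQ _ _ (mulL α hr n a) (mulL_mem α hr n a)).comp (LinearMap.proj a)

theorem mulQ_mk (α : κ → ι → K) {r : ℕ} (hr : Fintype.card ι = r + 1) (n : ℕ)
    (ρ : ι → Rsp α r n) : mulQ α hr n (fun a => Submodule.Quotient.mk (ρ a)) =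
      Submodule.Quotient.mk (∑ a, mulL α hr n a (ρ a)) := by
  rw [mulQ, LinearMap.sum_apply, ← Submodule.mkQ_apply, map_sum]
  refine Finset.sum_congr rfl fun a _ => ?_
  rw [LinearMap.comp_apply, LinearMap.proj_apply, Submodule.mapQ_apply]
  rfl

theorem mulQ_surjective (α : κ → ι → K) (hα : ∀ j, Function.Injective (α j)) {r : ℕ}
    (hr : Fintype.card ι = r + 1) (n : ℕ) (hn : 1 ≤ n) (hr2 : 2 ≤ r) (i0 i1 : ι) (h01 : i0 ≠ i1) :
    Function.Surjective (mulQ α hr (n + 1)) := by
  intro x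
  obtain ⟨f, rfl⟩ := Submodule.Quotient.mk_surjective _ x
  obtain ⟨ρ, hρ, hf⟩ := mul_surj α hα hr n hn hr2 i0 i1 h01 f.1 f.2
  refine ⟨fun a => Submodule.Quotient.mk ⟨ρ a, hρ a⟩, ?_⟩
  rw [mulQ_mk]
  congr 1
  ext1
  rw [hf]
  simp [mulL]

/-- Numerical hypothesis of the count. -/
def NumHyp (N m r : ℕ) : Prop :=
  N * (N + 1).choose 2 + ((r + 2) + m * (2 * r - 1)) =
    (N + 2).choose 3 + N * ((r + 2) + m * (r - 1))

/-- The key numerical inequality. -/
theorem delta_le (α : κ → ι → K) (hα : ∀ j, Function.Injective (α j)) (hcore : Core α) {r : ℕ}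
    (hr : Fintype.card ι = r + 1) (hr1 : 1 ≤ r) (i0 i1 : ι) (h01 : i0 ≠ i1)
    (hnum : NumHyp (Fintype.card ι) (Fintype.card κ) r) :
    Fintype.card ι * Module.finrank K (Rsp α r 2 ⧸ Tsub α r 2) ≤
      Module.finrank K (Rsp α r 3 ⧸ Tsub α r 3) := by
  have := finite_Rsp α hα hr 1 le_rfl hr1 i0 i1 h01
  have := finite_Rsp α hα hr 2 (by norm_num) hr1 i0 i1 h01
  have h1 := card_mul_finrank_IX_le α hα hcore
  have h2 := rank_nullity α 2
  have h3 := rank_nullity α 3
  have h4 : Module.finrank K (Rsp α r 2 ⧸ Tsub α r 2) + Module.finrank K (Tsub α r 2) =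
    Module.finrank K (Rsp α r 2) := Submodule.finrank_quotient_add_finrank _
  have h5 : Module.finrank K (Rsp α r 3 ⧸ Tsub α r 3) + Module.finrank K (Tsub α r 3) =
    Module.finrank K (Rsp α r 3) := Submodule.finrank_quotient_add_finrank _
  rw [finrank_Tsub α hr] at h4 h5
  have h6 : Module.finrank K (Rsp α r 2) = (r + 2) + Fintype.card κ * (1 * r - 1) :=
    finrank_Rsp α hα hr 1 le_rfl hr1 i0 i1 h01
  have h7 : Module.finrank K (Rsp α r 3) = (r + 2) + Fintype.card κ * (2 * r - 1) :=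
    finrank_Rsp α hα hr 2 (by norm_num) hr1 i0 i1 h01
  rw [finrank_homog] at h2 h3
  rw [h6, one_mul] at h4
  rw [h7] at h5
  unfold NumHyp at hnum
  set N := Fintype.card ι
  have e2 : N + 2 - 1 = N + 1 := by omega
  have e3 : N + 3 - 1 = N + 2 := by omega
  rw [e2] at h2
  rw [e3] at h3
  rw [← h2, ← h3, ← h4, ← h5] at hnum
  have h8 : N * (Module.finrank K (Sbar α 2) + Module.finrank K (IX α 2)) =
    N * Module.finrank K (Sbar α 2) + N * Module.finrank K (IX α 2) := by ring
  have h9 : N * (Module.finrank K (Rsp α r 2 ⧸ Tsub α r 2) + Module.finrank K (Sbar α 2)) =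
    N * Module.finrank K (Rsp α r 2 ⧸ Tsub α r 2) + N * Module.finrank K (Sbar α 2) := by ring
  rw [h8, h9] at hnum
  omega

theorem mulQ_injective (α : κ → ι → K) (hα : ∀ j, Function.Injective (α j)) (hcore : Core α)
    {r : ℕ} (hr : Fintype.card ι = r + 1) (hr2 : 2 ≤ r) (i0 i1 : ι) (h01 : i0 ≠ i1)
    (hnum : NumHyp (Fintype.card ι) (Fintype.card κ) r) :
    Function.Injective (mulQ α hr 2) := by
  have := finite_Rsp α hα hr 1 le_rfl (by omega) i0 i1 h01
  have := finite_Rsp α hα hr 2 (by norm_num) (by omega) i0 i1 h01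
  have hs : Function.Surjective (mulQ α hr 2) :=
    mulQ_surjective α hα hr 1 le_rfl hr2 i0 i1 h01
  have h1 := LinearMap.finrank_le_finrank_of_surjective hs
  have h2 := delta_le α hα hcore hr (by omega) i0 i1 h01 hnum
  have h3 : Module.finrank K (ι → (Rsp α r 2 ⧸ Tsub α r 2)) =
      Fintype.card ι * Module.finrank K (Rsp α r 2 ⧸ Tsub α r 2) := by
    have hfree : Module.Free K (Rsp α r 2 ⧸ Tsub α r 2) := Module.Free.of_divisionRing K _
    rw [Module.finrank_pi_fintype]; simp
  refine (LinearMap.injective_iff_surjective_of_finrank_eq_finrank ?_).mpr hs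
  exact le_antisymm (by rw [h3]; exact h2) h1

/-- If a combination of sections with linear coefficients is a form, all sections are forms. -/
theorem forms_of_sum (α : κ → ι → K) (hα : ∀ j, Function.Injective (α j)) (hcore : Core α)
    {r : ℕ} (hr : Fintype.card ι = r + 1) (hr2 : 2 ≤ r) (i0 i1 : ι) (h01 : i0 ≠ i1)
    (hnum : NumHyp (Fintype.card ι) (Fintype.card κ) r) (ρ : ι → κ → Polynomial K)
    (hρ : ∀ a, ρ a ∈ Rsp α r 2) (h0 : ∑ a, gg α a * ρ a = 0) (a : ι) : ρ a ∈ Sbar α 2 := by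
  have hinj := mulQ_injective α hα hcore hr hr2 i0 i1 h01 hnum
  have h1 : mulQ α hr 2 (fun a => Submodule.Quotient.mk (⟨ρ a, hρ a⟩ : Rsp α r 2)) = 0 := by
    rw [mulQ_mk]
    have h2 : ∑ a, mulL α hr 2 a (⟨ρ a, hρ a⟩ : Rsp α r 2) = 0 := by
      ext1
      simpa [mulL] using h0
    rw [h2, Submodule.Quotient.mk_zero]
  have h3 := hinj (h1.trans (map_zero _).symm)
  have h4 := congrFun h3 a
  rw [Pi.zero_apply, Submodule.Quotient.mk_eq_zero] at h4
  exact h4

end main

end Run7.h971
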