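import Mathlib
import Pool.Agent.Run7.h971.Dim

/-!
Projective normality and generation by quadrics, from the core statement.
-/

open Finset

set_option linter.unusedSectionVars false
set_option linter.unusedSimpArgs false

namespace Run7.h971

section normal

variable {ι κ K : Type*} [Fintype ι] [DecidableEq ι] [Fintype κ] [DecidableEq κ] [Nonempty κ]
  [Field K]

/-- The section `P_j h` on the curve `j`, zero on the other curves. -/
noncomputable def Esec (α : κ → ι → K) (j0 : κ) (h : Polynomial K) : κ → Polynomial K :=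
  fun j => nod (α j) * (if j = j0 then h else 0)

theorem Esec_add (α : κ → ι → K) (j0 : κ) (h h' : Polynomial K) :
    Esec α j0 (h + h') = Esec α j0 h + Esec α j0 h' := by
  funext j
  by_cases hj : j = j0 <;> simp [Esec, hj, mul_add]

theorem Esec_mem_Rsp (α : κ → ι → K) {r : ℕ} (hr : Fintype.card ι = r + 1) (j0 : κ)
    (h : Polynomial K) (hh : h.degree < ((r - 1 : ℕ) : WithBot ℕ)) : Esec α j0 h ∈ Rsp α r 2 := by
  refine nod_mul_mem_Rsp α hr 1 _ fun j => ?_
  rw [one_mul]
  split_ifs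
  · exact hh
  · rw [Polynomial.degree_zero]; exact WithBot.bot_lt_coe _

theorem Esec_mem_aux (α : κ → ι → K) (hα : ∀ j, Function.Injective (α j)) (hcore : Core α)
    {r : ℕ} (hr : Fintype.card ι = r + 1) (hr3 : 3 ≤ r) (i0 i1 : ι) (h01 : i0 ≠ i1)
    (hnum : NumHyp (Fintype.card ι) (Fintype.card κ) r) (j0 : κ) (h : Polynomial K)
    (hh : h.degree < ((r - 2 : ℕ) : WithBot ℕ)) :
    Esec α j0 h ∈ Sbar α 2 ∧ Esec α j0 (Polynomial.X * h) ∈ Sbar α 2 := by
  have hXh : (Polynomial.X * h).degree < ((r - 1 : ℕ) : WithBot ℕ) := by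
    by_cases h0 : h = 0
    · rw [h0, mul_zero, Polynomial.degree_zero]; exact WithBot.bot_lt_coe _
    rw [Polynomial.degree_mul, Polynomial.degree_X, Polynomial.degree_eq_natDegree h0]
    rw [Polynomial.degree_eq_natDegree h0] at hh
    have h1 : h.natDegree < r - 2 := by exact_mod_cast hh
    exact_mod_cast (by omega : 1 + h.natDegree < r - 1)
  have hh' : h.degree < ((r - 1 : ℕ) : WithBot ℕ) :=
    hh.trans_le (by exact_mod_cast (by omega : r - 2 ≤ r - 1))
  set ρ : ι → κ → Polynomial K := fun a =>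
    (α j0 a / cst (α j0) a) • Esec α j0 h - (1 / cst (α j0) a) • Esec α j0 (Polynomial.X * h) with hρ
  have hρR : ∀ a, ρ a ∈ Rsp α r 2 := fun a => Submodule.sub_mem _
    (Submodule.smul_mem _ _ (Esec_mem_Rsp α hr j0 h hh'))
    (Submodule.smul_mem _ _ (Esec_mem_Rsp α hr j0 _ hXh))
  have hρ0 : ∑ a, gg α a * ρ a = 0 := by
    funext j
    rw [Finset.sum_apply, Pi.zero_apply]
    by_cases hj : j = j0
    · subst hj
      have e1 := lagr (hα j) hr (1 : Polynomial K) (by
        rw [Polynomial.degree_one]; exact_mod_cast Nat.succ_pos r)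
      have e2 := lagr (hα j) hr (Polynomial.X : Polynomial K) (by
        rw [Polynomial.degree_X]; exact_mod_cast (by omega : 1 < r + 1))
      have e3 : ∑ a, (gg α a * ρ a) j =
          (∑ a, Polynomial.C (Polynomial.X.eval (α j a) / cst (α j) a) * gam (α j) a) *
            (nod (α j) * h) -
          (∑ a, Polynomial.C (Polynomial.eval (α j a) 1 / cst (α j) a) * gam (α j) a) *
            (nod (α j) * (Polynomial.X * h)) := by
        rw [Finset.sum_mul, Finset.sum_mul, ← Finset.sum_sub_distrib]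
        refine Finset.sum_congr rfl fun a _ => ?_
        simp only [hρ, Pi.mul_apply, Pi.sub_apply, Pi.smul_apply, Esec, if_true, gg,
          Polynomial.smul_eq_C_mul, Polynomial.eval_X, Polynomial.eval_one]
        ring
      rw [e3, ← e1, ← e2]
      ring
    · refine Finset.sum_eq_zero fun a _ => ?_
      simp [hρ, Esec, hj]
  have hρS := forms_of_sum α hα hcore hr (by omega) i0 i1 h01 hnum ρ hρR hρ0
  have hρS' : ∀ a, α j0 a • Esec α j0 h - Esec α j0 (Polynomial.X * h) ∈ Sbar α 2 := by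
    intro a
    have h1 := Submodule.smul_mem _ (cst (α j0) a) (hρS a)
    have h2 := cst_ne_zero (hα j0) a
    simp only [hρ, smul_sub, smul_smul] at h1
    rwa [mul_div_cancel₀ _ h2, mul_one_div_cancel h2, one_smul] at h1
  have h3 := Submodule.sub_mem _ (hρS' i0) (hρS' i1)
  have h4 : α j0 i0 • Esec α j0 h - Esec α j0 (Polynomial.X * h) -
      (α j0 i1 • Esec α j0 h - Esec α j0 (Polynomial.X * h)) =
      (α j0 i0 - α j0 i1) • Esec α j0 h := by
    rw [sub_smul]; abel
  rw [h4] at h3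
  have h5 : α j0 i0 - α j0 i1 ≠ 0 := sub_ne_zero.mpr fun h => h01 (hα j0 h)
  have h6 : Esec α j0 h ∈ Sbar α 2 := by
    have := Submodule.smul_mem _ (α j0 i0 - α j0 i1)⁻¹ h3
    rwa [smul_smul, inv_mul_cancel₀ h5, one_smul] at this
  refine ⟨h6, ?_⟩
  have h7 := Submodule.sub_mem _ (Submodule.smul_mem _ (α j0 i0) h6) (hρS' i0)
  rwa [sub_sub_cancel] at h7

theorem Esec_mem_Sbar (α : κ → ι → K) (hα : ∀ j, Function.Injective (α j)) (hcore : Core α)
    {r : ℕ} (hr : Fintype.card ι = r + 1) (hr3 : 3 ≤ r) (i0 i1 : ι) (h01 : i0 ≠ i1)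
    (hnum : NumHyp (Fintype.card ι) (Fintype.card κ) r) (j0 : κ) (h : Polynomial K)
    (hh : h.degree < ((r - 1 : ℕ) : WithBot ℕ)) : Esec α j0 h ∈ Sbar α 2 := by
  have h1 : h = Polynomial.X * h.divX + Polynomial.C (h.coeff 0) :=
    (Polynomial.X_mul_divX_add h).symm
  rw [h1, Esec_add]
  refine Submodule.add_mem _ ?_ ?_
  · refine (Esec_mem_aux α hα hcore hr hr3 i0 i1 h01 hnum j0 h.divX ?_).2
    by_cases h0 : h.divX = 0
    · rw [h0, Polynomial.degree_zero]; exact WithBot.bot_lt_coe _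
    rw [Polynomial.degree_eq_natDegree h0, Polynomial.natDegree_divX_eq_natDegree_tsub_one]
    have hne : h ≠ 0 := by
      rintro rfl
      simp at h0
    rw [Polynomial.degree_eq_natDegree hne] at hh
    have h2 : h.natDegree < r - 1 := by exact_mod_cast hh
    exact_mod_cast (by omega : h.natDegree - 1 < r - 2)
  · refine (Esec_mem_aux α hα hcore hr hr3 i0 i1 h01 hnum j0 _ ?_).1
    refine Polynomial.degree_C_le.trans_lt ?_
    exact_mod_cast (by omega : 0 < r - 2)

/-- Every section of `O(2)` is a quadratic form. -/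
theorem Rsp_two_le (α : κ → ι → K) (hα : ∀ j, Function.Injective (α j)) (hcore : Core α)
    {r : ℕ} (hr : Fintype.card ι = r + 1) (hr3 : 3 ≤ r) (i0 i1 : ι) (h01 : i0 ≠ i1)
    (hnum : NumHyp (Fintype.card ι) (Fintype.card κ) r) : Rsp α r 2 ≤ Sbar α 2 := by
  intro f hf
  obtain ⟨v, m, h, hh, rfl⟩ := (mem_Rsp_iff α hα hr 1 le_rfl (by omega) i0 i1 h01 f).mp hf
  refine Submodule.add_mem _ (Submodule.add_mem _ (Submodule.sum_mem _ fun a _ =>
    Submodule.smul_mem _ _ ?_) (Submodule.smul_mem _ _ ?_)) ?_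
  · refine mem_Sbar.mpr ⟨MvPolynomial.X a ^ 2, MvPolynomial.isHomogeneous_X_pow a 2, ?_⟩
    rw [map_pow, res_X]
  · refine mem_Sbar.mpr ⟨MvPolynomial.X i0 * MvPolynomial.X i1, ?_, ?_⟩
    · exact (MvPolynomial.isHomogeneous_X K i0).mul (MvPolynomial.isHomogeneous_X K i1)
    · rw [map_mul, res_X, res_X, pow_one]
  · have e : (fun j => nod (α j) * h j) = ∑ j0, Esec α j0 (h j0) := by
      funext j
      rw [Finset.sum_apply, Finset.sum_eq_single j]
      · simp [Esec]
      · intro b _ hb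
        simp [Esec, hb.symm]
      · simp
    rw [e]
    refine Submodule.sum_mem _ fun j _ => ?_
    refine Esec_mem_Sbar α hα hcore hr hr3 i0 i1 h01 hnum j _ ?_
    have := hh j
    rwa [one_mul] at this

/-- Projective normality. -/
theorem Rsp_le (α : κ → ι → K) (hα : ∀ j, Function.Injective (α j)) (hcore : Core α)
    {r : ℕ} (hr : Fintype.card ι = r + 1) (hr3 : 3 ≤ r) (i0 i1 : ι) (h01 : i0 ≠ i1)
    (hnum : NumHyp (Fintype.card ι) (Fintype.card κ) r) (n : ℕ) :
    Rsp α r (n + 2) ≤ Sbar α (n + 2) := by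
  induction n with
  | zero => exact Rsp_two_le α hα hcore hr hr3 i0 i1 h01 hnum
  | succ n ih =>
    intro f hf
    obtain ⟨ρ, hρ, rfl⟩ := mul_surj α hα hr (n + 1) (by omega) (by omega) i0 i1 h01 f hf
    exact Submodule.sum_mem _ fun a _ => gg_mul_mem_Sbar a (ih (hρ a))

theorem Sbar_eq (α : κ → ι → K) (hα : ∀ j, Function.Injective (α j)) (hcore : Core α)
    {r : ℕ} (hr : Fintype.card ι = r + 1) (hr3 : 3 ≤ r) (i0 i1 : ι) (h01 : i0 ≠ i1)
    (hnum : NumHyp (Fintype.card ι) (Fintype.card κ) r) (n : ℕ) :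
    Sbar α (n + 2) = Rsp α r (n + 2) :=
  le_antisymm (Sbar_le α hr _) (Rsp_le α hα hcore hr hr3 i0 i1 h01 hnum n)

/-- Cubic forms in the ideal come from quadrics. -/
theorem IX_three (α : κ → ι → K) (hα : ∀ j, Function.Injective (α j)) (hcore : Core α)
    {r : ℕ} (hr : Fintype.card ι = r + 1) (hr3 : 3 ≤ r) (i0 i1 : ι) (h01 : i0 ≠ i1)
    (hnum : NumHyp (Fintype.card ι) (Fintype.card κ) r) (F : MvPolynomial ι K)
    (hF : F ∈ IX α 3) :
    ∃ Q : ι → MvPolynomial ι K, (∀ a, Q a ∈ IX α 2) ∧ F = ∑ a, MvPolynomial.X a * Q a := by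
  have h2 := rank_nullity α 2
  have h3 := rank_nullity α 3
  rw [finrank_homog, Sbar_eq α hα hcore hr hr3 i0 i1 h01 hnum 0] at h2
  rw [finrank_homog, Sbar_eq α hα hcore hr hr3 i0 i1 h01 hnum 1] at h3
  have h6 : Module.finrank K (Rsp α r (0 + 2)) = (r + 2) + Fintype.card κ * (1 * r - 1) :=
    finrank_Rsp α hα hr 1 le_rfl (by omega) i0 i1 h01
  have h7 : Module.finrank K (Rsp α r (1 + 2)) = (r + 2) + Fintype.card κ * (2 * r - 1) :=
    finrank_Rsp α hα hr 2 (by norm_num) (by omega) i0 i1 h01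
  rw [h6, one_mul] at h2
  rw [h7] at h3
  have hnum' := hnum
  unfold NumHyp at hnum'
  have hinj := mulI_injective α hα hcore
  have hfin : Module.finrank K (ι → IX α 2) = Module.finrank K (IX α (2 + 1)) := by
    rw [Module.finrank_pi_fintype]
    simp only [Finset.sum_const, Finset.card_univ, smul_eq_mul]
    set N := Fintype.card ι
    have e2 : N + 2 - 1 = N + 1 := by omega
    have e3 : N + 3 - 1 = N + 2 := by omega
    rw [e2] at h2
    rw [e3] at h3
    rw [← h2, ← h3, mul_add] at hnum'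
    have h8 : Module.finrank K (IX α (2 + 1)) = Module.finrank K (IX α 3) := rfl
    rw [h8]
    omega
  have hsurj := (LinearMap.injective_iff_surjective_of_finrank_eq_finrank hfin).mp hinj
  obtain ⟨Q, hQ⟩ := hsurj ⟨F, hF⟩
  refine ⟨fun a => (Q a : MvPolynomial ι K), fun a => (Q a).2, ?_⟩
  exact (congrArg Subtype.val hQ).symm

/-- Every form of positive degree is a combination of the variables. -/
theorem exists_eq_sum_X_mul (n : ℕ) (F : MvPolynomial ι K) (hF : F.IsHomogeneous (n + 1)) :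
    ∃ Q : ι → MvPolynomial ι K, (∀ a, (Q a).IsHomogeneous n) ∧
      F = ∑ a, MvPolynomial.X a * Q a := by
  have h1 : F ∈ MvPolynomial.homogeneousSubmodule ι K n *
      MvPolynomial.homogeneousSubmodule ι K 1 := by
    rw [← MvPolynomial.homogeneousSubmodule_one_pow K n, ← pow_succ,
      MvPolynomial.homogeneousSubmodule_one_pow]
    exact hF
  refine Submodule.mul_induction_on h1 ?_ ?_
  · intro G hG x hx
    rw [MvPolynomial.homogeneousSubmodule_one_eq_span_X,
      Submodule.mem_span_range_iff_exists_fun] at hx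
    obtain ⟨c, rfl⟩ := hx
    refine ⟨fun a => c a • G, fun a => ?_, ?_⟩
    · exact (MvPolynomial.homogeneousSubmodule ι K n).smul_mem _ hG
    · rw [Finset.mul_sum]
      refine Finset.sum_congr rfl fun a _ => ?_
      rw [mul_smul_comm, mul_smul_comm, mul_comm]
  · rintro G H ⟨Q, hQ, rfl⟩ ⟨Q', hQ', rfl⟩
    refine ⟨fun a => Q a + Q' a, fun a => (hQ a).add (hQ' a), ?_⟩
    rw [← Finset.sum_add_distrib]
    exact Finset.sum_congr rfl fun a _ => by rw [mul_add]

theorem sum_skew' [CharZero K] (σ : ι → ι → MvPolynomial ι K) (hσ : ∀ a b, σ a b = - σ b a) :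
    ∑ a, MvPolynomial.X a * ∑ b, MvPolynomial.X b * σ a b = 0 := by
  have h1 : ∑ a, MvPolynomial.X a * ∑ b, MvPolynomial.X b * σ a b =
      - ∑ a, MvPolynomial.X a * ∑ b, MvPolynomial.X b * σ a b := by
    conv_rhs => rw [← Finset.sum_neg_distrib]
    simp only [Finset.mul_sum]
    rw [Finset.sum_comm]
    refine Finset.sum_congr rfl fun a _ => ?_
    rw [← Finset.sum_neg_distrib]
    refine Finset.sum_congr rfl fun b _ => ?_
    rw [hσ b a]
    ring
  exact CharZero.eq_neg_self_iff.mp h1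

/-- Forms of degree at least four in the ideal come from lower degree. -/
theorem IX_succ [CharZero K] (α : κ → ι → K) (hα : ∀ j, Function.Injective (α j))
    (hcore : Core α) {r : ℕ} (hr : Fintype.card ι = r + 1) (hr3 : 3 ≤ r) (i0 i1 : ι)
    (h01 : i0 ≠ i1) (hnum : NumHyp (Fintype.card ι) (Fintype.card κ) r) (n : ℕ) (hn : 1 ≤ n)
    (F : MvPolynomial ι K) (hF : F ∈ IX α (n + 3)) :
    ∃ Q : ι → MvPolynomial ι K, (∀ a, Q a ∈ IX α (n + 2)) ∧ F = ∑ a, MvPolynomial.X a * Q a := by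
  obtain ⟨hF1, hF2⟩ := mem_IX.mp hF
  obtain ⟨Q, hQ, rfl⟩ := exists_eq_sum_X_mul (n + 2) F hF1
  have h0 : ∑ a, gg α a * res α (Q a) = 0 := by
    rw [← hF2, map_sum]
    exact Finset.sum_congr rfl fun a _ => by rw [map_mul, res_X]
  obtain ⟨σ, hσ1, hσ2, hσ3⟩ := koszul_exact α hα hr n hn hr3 i0 i1 h01 (fun a => res α (Q a))
    (fun a => res_mem α hr (hQ a)) h0
  have hlift : ∀ a b, ∃ G : MvPolynomial ι K, G.IsHomogeneous (n + 1) ∧ res α G = σ a b := by
    intro a b
    obtain ⟨n', rfl⟩ : ∃ n', n = n' + 1 := ⟨n - 1, by omega⟩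
    have := hσ1 a b
    rw [show n' + 1 + 1 = n' + 2 by ring,
      ← Sbar_eq α hα hcore hr hr3 i0 i1 h01 hnum n'] at this
    exact mem_Sbar.mp this
  choose G hG1 hG2 using hlift
  set G' : ι → ι → MvPolynomial ι K := fun a b => (1 / 2 : K) • (G a b - G b a) with hG'
  have hG'1 : ∀ a b, (G' a b).IsHomogeneous (n + 1) := fun a b =>
    (MvPolynomial.homogeneousSubmodule ι K (n + 1)).smul_mem _ ((hG1 a b).sub (hG1 b a))
  have hG'2 : ∀ a b, res α (G' a b) = σ a b := by
    intro a b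
    rw [hG', map_smul, map_sub, hG2, hG2, hσ2 b a, sub_neg_eq_add, ← two_smul K, smul_smul]
    norm_num
  have hG'3 : ∀ a b, G' a b = - G' b a := by
    intro a b
    simp only [hG']
    rw [← smul_neg, neg_sub]
  refine ⟨fun a => Q a - ∑ b, MvPolynomial.X b * G' a b, fun a => ?_, ?_⟩
  · refine mem_IX.mpr ⟨(hQ a).sub ?_, ?_⟩
    · refine MvPolynomial.IsHomogeneous.sum _ _ _ fun b _ => ?_
      have := (MvPolynomial.isHomogeneous_X K b).mul (hG'1 a b)
      rwa [show 1 + (n + 1) = n + 2 by ring] at this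
    · rw [map_sub, map_sum, hσ3 a, sub_eq_zero]
      exact Finset.sum_congr rfl fun b _ => by rw [map_mul, res_X, hG'2]
  · simp only [mul_sub, Finset.sum_sub_distrib]
    rw [sum_skew' G' hG'3, sub_zero]

theorem IX_zero (α : κ → ι → K) (hα : ∀ j, Function.Injective (α j)) (i0 : ι) (n : ℕ) (hn : n ≤ 1)
    (F : MvPolynomial ι K) (hF : F ∈ IX α n) : F = 0 := by
  obtain ⟨hF1, hF2⟩ := mem_IX.mp hF
  have h1 : ∀ a, F.coeff (Finsupp.single a n) = 0 := by
    intro a
    obtain ⟨j⟩ := ‹Nonempty κ›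
    have h1 := res_eval α hF1 j a
    rw [hF2, Pi.zero_apply, Polynomial.eval_zero] at h1
    exact (mul_eq_zero.mp h1.symm).resolve_right (pow_ne_zero _ (cst_ne_zero (hα j) a))
  ext d
  rw [MvPolynomial.coeff_zero]
  by_contra hd
  have hdeg : d.degree = n := by
    by_contra h
    exact hd (hF1.coeff_eq_zero h)
  apply hd
  have h2 : ∃ a, d = Finsupp.single a n := by
    interval_cases n
    · refine ⟨i0, ?_⟩
      rw [Finsupp.single_zero]
      rwa [Finsupp.degree_eq_zero_iff] at hdeg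
    · have h3 : Multiset.card (Finsupp.toMultiset d) = 1 := by
        rw [Finsupp.card_toMultiset]; exact hdeg
      obtain ⟨a, ha⟩ := Multiset.card_eq_one.mp h3
      refine ⟨a, ?_⟩
      rw [← Finsupp.toMultiset_toFinsupp d, ha, Multiset.toFinsupp_singleton]
  obtain ⟨a, rfl⟩ := h2
  exact h1 a

/-- The ideal of the curves is generated by quadrics. -/
theorem IX_le_span [CharZero K] (α : κ → ι → K) (hα : ∀ j, Function.Injective (α j))
    (hcore : Core α) {r : ℕ} (hr : Fintype.card ι = r + 1) (hr3 : 3 ≤ r) (i0 i1 : ι)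
    (h01 : i0 ≠ i1) (hnum : NumHyp (Fintype.card ι) (Fintype.card κ) r) (n : ℕ)
    (F : MvPolynomial ι K) (hF : F ∈ IX α n) :
    F ∈ Ideal.span (IX α 2 : Set (MvPolynomial ι K)) := by
  induction n generalizing F with
  | zero => rw [IX_zero α hα i0 0 (by norm_num) F hF]; exact Ideal.zero_mem _
  | succ n ih =>
    rcases n with _ | _ | _ | n
    · rw [IX_zero α hα i0 1 (by norm_num) F hF]; exact Ideal.zero_mem _
    · exact Ideal.subset_span hF
    · obtain ⟨Q, hQ, rfl⟩ := IX_three α hα hcore hr hr3 i0 i1 h01 hnum F hF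
      exact Ideal.sum_mem _ fun a _ => Ideal.mul_mem_left _ _ (ih (Q a) (hQ a))
    · obtain ⟨Q, hQ, rfl⟩ := IX_succ α hα hcore hr hr3 i0 i1 h01 hnum (n + 1) (by omega) F hF
      exact Ideal.sum_mem _ fun a _ => Ideal.mul_mem_left _ _ (ih (Q a) (hQ a))

end normal

end Run7.h971
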