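import Mathlib
import Pool.Agent.Run7.h971.Normal

/-!
The affine cone over the union of the rational normal curves, its ideal, and sections as
families of binary forms.
-/

open Finset

set_option linter.unusedSectionVars false
set_option linter.unusedSimpArgs false

namespace Run7.h971

section defs

variable {ι κ k : Type*} [Fintype ι] [DecidableEq ι] [Field k]

/-- The point with homogeneous parameters `(x : y)` of the cone over the rational normal curve
with parameter vector `α`: its coordinates are `∏_{b ≠ a} (x - α_b y)`. -/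
def rncPoint (α : ι → k) (x y : k) (a : ι) : k := ∏ b ∈ univ.erase a, (x - α b * y)

/-- The affine cone over the union of the rational normal curves with parameter vectors `α j`. -/
def coneX (α : κ → ι → k) : Set (ι → k) := {v | ∃ j x y, v = rncPoint (α j) x y}

/-- The ideal of the cone. -/
noncomputable def idealX (α : κ → ι → k) : Ideal (MvPolynomial ι k) :=
  MvPolynomial.vanishingIdeal k (coneX α)

/-- The degree `n` part of an ideal. -/
noncomputable def piece (J : Ideal (MvPolynomial ι k)) (n : ℕ) :
    Submodule k (MvPolynomial ι k) :=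
  J.restrictScalars k ⊓ MvPolynomial.homogeneousSubmodule ι k n

/-- The homogeneous coordinates as binary forms. -/
noncomputable def rncForm (α : ι → k) (a : ι) : MvPolynomial (Fin 2) k :=
  ∏ b ∈ univ.erase a, (MvPolynomial.X 0 - MvPolynomial.C (α b) * MvPolynomial.X 1)

theorem mem_piece {J : Ideal (MvPolynomial ι k)} {n : ℕ} {F : MvPolynomial ι k} :
    F ∈ piece J n ↔ F ∈ J ∧ F.IsHomogeneous n := by
  simp [piece]

theorem eval_rncForm (α : ι → k) (a : ι) (w : Fin 2 → k) :
    MvPolynomial.eval w (rncForm α a) = rncPoint α (w 0) (w 1) a := by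
  simp [rncForm, rncPoint, map_prod]

theorem rncForm_homog (α : ι → k) {r : ℕ} (hr : Fintype.card ι = r + 1) (a : ι) :
    (rncForm α a).IsHomogeneous r := by
  have h : (rncForm α a).IsHomogeneous (∑ b ∈ univ.erase a, 1) := by
    refine MvPolynomial.IsHomogeneous.prod _ _ _ fun b _ => ?_
    refine (MvPolynomial.isHomogeneous_X k 0).sub ?_
    have := (MvPolynomial.isHomogeneous_C (Fin 2) (α b)).mul (MvPolynomial.isHomogeneous_X k 1)
    rwa [zero_add] at this
  rwa [Finset.sum_const, Finset.card_erase_of_mem (Finset.mem_univ a), Finset.card_univ, hr,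
    smul_eq_mul, mul_one, Nat.add_sub_cancel] at h

theorem eval_aeval_rncForm (α : ι → k) (F : MvPolynomial ι k) (w : Fin 2 → k) :
    MvPolynomial.eval w (MvPolynomial.aeval (rncForm α) F) =
      MvPolynomial.eval (rncPoint α (w 0) (w 1)) F := by
  have h : (MvPolynomial.aeval w : MvPolynomial (Fin 2) k →ₐ[k] k).comp
      (MvPolynomial.aeval (rncForm α)) =
      (MvPolynomial.aeval (rncPoint α (w 0) (w 1)) : MvPolynomial ι k →ₐ[k] k) := by
    apply MvPolynomial.algHom_ext
    intro a
    rw [AlgHom.comp_apply, MvPolynomial.aeval_X, MvPolynomial.aeval_X]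
    exact eval_rncForm α a w
  exact DFunLike.congr_fun h F

theorem rncPoint_affine (α : ι → k) (t : k) (a : ι) :
    rncPoint α t 1 a = (gam α a).eval t := by
  rw [gam, Lagrange.eval_nodal, rncPoint]
  exact Finset.prod_congr rfl fun b _ => by rw [mul_one]

theorem res_eval_eq (α : κ → ι → k) (F : MvPolynomial ι k) (j : κ) (t : k) :
    (res α F j).eval t = MvPolynomial.eval (rncPoint (α j) t 1) F := by
  rw [res_apply]
  have h : (Polynomial.aeval t : Polynomial k →ₐ[k] k).comp
      (MvPolynomial.aeval (fun a => gam (α j) a)) =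
      (MvPolynomial.aeval (rncPoint (α j) t 1) : MvPolynomial ι k →ₐ[k] k) := by
    apply MvPolynomial.algHom_ext
    intro a
    rw [AlgHom.comp_apply, MvPolynomial.aeval_X, MvPolynomial.aeval_X, rncPoint_affine]
    rfl
  exact DFunLike.congr_fun h F

/-- A binary form vanishing at all points `(t : 1)` is zero. -/
theorem binary_eq_zero [Infinite k] {G : MvPolynomial (Fin 2) k} {m : ℕ} (hG : G.IsHomogeneous m)
    (h : ∀ t : k, MvPolynomial.eval ![t, 1] G = 0) : G = 0 := by
  have h1 : G * MvPolynomial.X 1 = 0 := by
    apply MvPolynomial.funext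
    intro w
    rw [map_mul, MvPolynomial.eval_X, map_zero]
    by_cases hw : w 1 = 0
    · rw [hw, mul_zero]
    · have h2 : MvPolynomial.eval w G = (w 1) ^ m * MvPolynomial.eval ![w 0 / w 1, 1] G := by
        rw [MvPolynomial.eval_eq', MvPolynomial.eval_eq', Finset.mul_sum]
        refine Finset.sum_congr rfl fun d hd => ?_
        have hdeg : d 0 + d 1 = m := by
          have := hG.degree_eq_sum_deg_support hd
          rw [← Fin.sum_univ_two (fun i => d i), ← Finsupp.degree_eq_sum]
          exact this.symm
        rw [Fin.prod_univ_two, Fin.prod_univ_two]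
        simp only [Matrix.cons_val_zero, Matrix.cons_val_one, one_pow, mul_one, div_pow]
        rw [← hdeg, pow_add]
        field_simp
      rw [h2, h, mul_zero, zero_mul]
  exact (mul_eq_zero.mp h1).resolve_right (MvPolynomial.X_ne_zero 1)

theorem aeval_rncForm_homog (α : ι → k) {r : ℕ} (hr : Fintype.card ι = r + 1) {n : ℕ}
    {F : MvPolynomial ι k} (hF : F.IsHomogeneous n) :
    (MvPolynomial.aeval (rncForm α) F).IsHomogeneous (r * n) :=
  hF.aeval _ (fun a => rncForm_homog α hr a)

theorem mem_idealX {α : κ → ι → k} {F : MvPolynomial ι k} :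
    F ∈ idealX α ↔ ∀ j x y, MvPolynomial.eval (rncPoint (α j) x y) F = 0 := by
  rw [idealX, MvPolynomial.mem_vanishingIdeal_iff]
  constructor
  · intro h j x y
    exact h _ ⟨j, x, y, rfl⟩
  · rintro h v ⟨j, x, y, rfl⟩
    exact h j x y

theorem mem_idealX_iff [Infinite k] {α : κ → ι → k} {F : MvPolynomial ι k} :
    F ∈ idealX α ↔ ∀ j, MvPolynomial.aeval (rncForm (α j)) F = 0 := by
  rw [mem_idealX]
  constructor
  · intro h j
    apply MvPolynomial.funext
    intro w
    rw [eval_aeval_rncForm, h, map_zero]
  · intro h j x y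
    have := eval_aeval_rncForm (α j) F ![x, y]
    rw [h j, map_zero] at this
    exact this.symm

/-- Homogeneous forms in the ideal of the cone. -/
theorem mem_idealX_of_homog [Infinite k] {α : κ → ι → k} {r : ℕ} (hr : Fintype.card ι = r + 1)
    {n : ℕ} {F : MvPolynomial ι k} (hF : F.IsHomogeneous n) :
    F ∈ idealX α ↔ res α F = 0 := by
  rw [mem_idealX_iff]
  constructor
  · intro h
    funext j
    apply Polynomial.funext
    intro t
    rw [res_eval_eq, Pi.zero_apply, Polynomial.eval_zero]
    have := eval_aeval_rncForm (α j) F ![t, 1]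
    rw [h j, map_zero] at this
    exact this.symm
  · intro h j
    refine binary_eq_zero (aeval_rncForm_homog (α j) hr hF) fun t => ?_
    rw [eval_aeval_rncForm]
    have := res_eval_eq α F j t
    rw [h, Pi.zero_apply, Polynomial.eval_zero] at this
    exact this.symm

theorem piece_idealX [Infinite k] (α : κ → ι → k) {r : ℕ} (hr : Fintype.card ι = r + 1) (n : ℕ) :
    piece (idealX α) n = IX α n := by
  ext F
  rw [mem_piece, mem_IX, and_comm]
  constructor
  · rintro ⟨h1, h2⟩
    exact ⟨h1, (mem_idealX_of_homog hr h1).mp h2⟩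
  · rintro ⟨h1, h2⟩
    exact ⟨h1, (mem_idealX_of_homog hr h1).mpr h2⟩

theorem homogeneousComponent_mem_idealX [Infinite k] {α : κ → ι → k} {r : ℕ}
    (hr : Fintype.card ι = r + 1) (hr1 : 1 ≤ r) {F : MvPolynomial ι k} (hF : F ∈ idealX α)
    (n : ℕ) : MvPolynomial.homogeneousComponent n F ∈ idealX α := by
  rw [mem_idealX_iff] at hF ⊢
  intro j
  have h1 := hF j
  rw [← MvPolynomial.sum_homogeneousComponent F, map_sum] at h1
  have h2 := congrArg (MvPolynomial.homogeneousComponent (r * n)) h1
  rw [map_sum, map_zero] at h2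
  by_cases hn : n ∈ range (F.totalDegree + 1)
  · rw [Finset.sum_eq_single n] at h2
    · rwa [MvPolynomial.homogeneousComponent_eq_self] at h2
      exact aeval_rncForm_homog (α j) hr (MvPolynomial.homogeneousComponent_isHomogeneous n F)
    · intro m _ hm
      have h3 := MvPolynomial.homogeneousComponent_of_mem (m := r * n) ((MvPolynomial.mem_homogeneousSubmodule _ _).mpr (aeval_rncForm_homog (α j) hr
        (MvPolynomial.homogeneousComponent_isHomogeneous m F)))
      rw [h3, if_neg]
      intro h
      exact hm (Nat.eq_of_mul_eq_mul_left (by omega) h).symm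
    · intro h; exact absurd hn h
  · have : MvPolynomial.homogeneousComponent n F = 0 := by
      apply MvPolynomial.homogeneousComponent_eq_zero
      simpa using hn
    rw [this, map_zero]

end defs

end Run7.h971
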