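import Mathlib
import Pool.Agent.Run7.h971.Cone

/-!
Sections of `O(n)` on the union of the curves as families of binary forms; projective normality
and Hilbert function in terms of the cone.
-/

open Finset

set_option linter.unusedSectionVars false
set_option linter.unusedSimpArgs false

namespace Run7.h971

section dehom

variable {k : Type*} [Field k]

/-- Dehomogenisation of a binary form. -/
noncomputable def dehom (f : MvPolynomial (Fin 2) k) : Polynomial k :=
  MvPolynomial.aeval ![Polynomial.X, 1] f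

theorem eval_dehom (f : MvPolynomial (Fin 2) k) (t : k) :
    (dehom f).eval t = MvPolynomial.eval ![t, 1] f := by
  have h : (Polynomial.aeval t : Polynomial k →ₐ[k] k).comp
      (MvPolynomial.aeval ![Polynomial.X, 1]) =
      (MvPolynomial.aeval ![t, 1] : MvPolynomial (Fin 2) k →ₐ[k] k) := by
    apply MvPolynomial.algHom_ext
    intro a
    rw [AlgHom.comp_apply, MvPolynomial.aeval_X, MvPolynomial.aeval_X]
    fin_cases a <;> simp
  exact DFunLike.congr_fun h f

theorem dehom_eq_sum (f : MvPolynomial (Fin 2) k) :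
    dehom f = ∑ d ∈ f.support, Polynomial.C (f.coeff d) * Polynomial.X ^ d 0 := by
  rw [dehom, MvPolynomial.aeval_def, MvPolynomial.eval₂_eq']
  refine Finset.sum_congr rfl fun d _ => ?_
  rw [Fin.prod_univ_two, Polynomial.algebraMap_eq]
  simp

theorem dehom_natDegree {f : MvPolynomial (Fin 2) k} {m : ℕ} (hf : f.IsHomogeneous m) :
    (dehom f).natDegree ≤ m := by
  rw [dehom_eq_sum]
  refine Polynomial.natDegree_sum_le_of_forall_le _ _ fun d hd => ?_
  refine (Polynomial.natDegree_C_mul_X_pow_le _ _).trans ?_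
  have hdeg : d 0 + d 1 = m := by
    have := hf.degree_eq_sum_deg_support hd
    rw [← Fin.sum_univ_two (fun i => d i), ← Finsupp.degree_eq_sum]
    exact this.symm
  omega

theorem dehom_coeff {f : MvPolynomial (Fin 2) k} {m : ℕ} (hf : f.IsHomogeneous m) :
    (dehom f).coeff m = MvPolynomial.eval ![1, 0] f := by
  rw [dehom_eq_sum, Polynomial.finsetSum_coeff, MvPolynomial.eval_eq']
  refine Finset.sum_congr rfl fun d hd => ?_
  have hdeg : d 0 + d 1 = m := by
    have := hf.degree_eq_sum_deg_support hd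
    rw [← Fin.sum_univ_two (fun i => d i), ← Finsupp.degree_eq_sum]
    exact this.symm
  rw [Polynomial.coeff_C_mul_X_pow, Fin.prod_univ_two]
  simp only [Matrix.cons_val_zero, Matrix.cons_val_one, one_pow, one_mul]
  by_cases h : d 1 = 0
  · rw [if_pos (by omega), h]; simp
  · rw [if_neg (by omega), zero_pow h, mul_zero]

end dehom

section families

variable {ι κ k : Type*} [Fintype ι] [DecidableEq ι] [Field k]

/-- A family of binary forms of degree `n r`, one for each curve, which defines a function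
homogeneous of degree `n` on the cone: a section of `O(n)` on the union of the curves. -/
def Compat (α : κ → ι → k) (r n : ℕ) (f : κ → MvPolynomial (Fin 2) k) : Prop :=
  (∀ j, (f j).IsHomogeneous (n * r)) ∧
    ∀ (j j' : κ) (x y x' y' c : k), rncPoint (α j) x y = c • rncPoint (α j') x' y' →
      MvPolynomial.eval ![x, y] (f j) = c ^ n * MvPolynomial.eval ![x', y'] (f j')

theorem rncPoint_node {α : ι → k} (a : ι) :
    rncPoint α (α a) 1 = cst α a • (Pi.single a 1 : ι → k) := by
  funext b
  rw [rncPoint_affine, Pi.smul_apply, smul_eq_mul]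
  by_cases h : b = a
  · subst h; rw [gam_eval_self, Pi.single_eq_same, mul_one]
  · rw [gam_eval_ne h, Pi.single_eq_of_ne h, mul_zero]

theorem rncPoint_infty (α : ι → k) : rncPoint α 1 0 = 1 := by
  funext b
  simp [rncPoint]

theorem dehom_mem_Rsp [Nonempty κ] {α : κ → ι → k} (hα : ∀ j, Function.Injective (α j)) {r n : ℕ}
    {f : κ → MvPolynomial (Fin 2) k} (hf : Compat α r n f) :
    (fun j => dehom (f j)) ∈ Rsp α r n := by
  obtain ⟨j0⟩ := ‹Nonempty κ›
  refine ⟨fun j => dehom_natDegree (hf.1 j), ⟨fun a =>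
    (dehom (f j0)).eval (α j0 a) / cst (α j0) a ^ n, fun j a => ?_⟩,
    ⟨MvPolynomial.eval ![1, 0] (f j0), fun j => ?_⟩⟩
  · have h0 := cst_ne_zero (hα j0) a
    have h1 := hf.2 j j0 (α j a) 1 (α j0 a) 1 (cst (α j) a / cst (α j0) a) (by
      rw [rncPoint_node, rncPoint_node, smul_smul, div_mul_cancel₀ _ h0])
    rw [eval_dehom, h1, div_pow]
    beta_reduce
    rw [eval_dehom]
    field_simp
  · change (dehom (f j)).coeff (n * r) = _
    rw [dehom_coeff (hf.1 j)]
    have h1 := hf.2 j j0 1 0 1 0 1 (by rw [rncPoint_infty, rncPoint_infty, one_smul])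
    rw [h1, one_pow, one_mul]

variable [Fintype κ] [DecidableEq κ] [Nonempty κ]

theorem Rsp_le_all (α : κ → ι → k) (hα : ∀ j, Function.Injective (α j)) (hcore : Core α)
    {r : ℕ} (hr : Fintype.card ι = r + 1) (hr3 : 3 ≤ r) (i0 i1 : ι) (h01 : i0 ≠ i1)
    (hnum : NumHyp (Fintype.card ι) (Fintype.card κ) r) (n : ℕ) :
    Rsp α r n ≤ Sbar α n := by
  rcases n with _ | _ | n
  · rintro f ⟨hf1, ⟨v, hv⟩, -⟩
    refine mem_Sbar.mpr ⟨MvPolynomial.C (v i0), MvPolynomial.isHomogeneous_C _ _, ?_⟩
    funext j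
    have h1 : (f j).natDegree = 0 := by
      have := hf1 j
      rw [zero_mul] at this
      omega
    rw [Polynomial.eq_C_of_natDegree_eq_zero h1, res_apply, MvPolynomial.aeval_C]
    have h2 := hv j i0
    rw [Polynomial.eq_C_of_natDegree_eq_zero h1, Polynomial.eval_C, pow_zero, mul_one] at h2
    rw [h2]
    rfl
  · rintro f ⟨hf1, ⟨v, hv⟩, -⟩
    refine mem_Sbar.mpr ⟨∑ a, MvPolynomial.C (v a) * MvPolynomial.X a,
      MvPolynomial.IsHomogeneous.sum _ _ _ fun a _ => ?_, ?_⟩
    · have := (MvPolynomial.isHomogeneous_C ι (v a)).mul (MvPolynomial.isHomogeneous_X k a)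
      rwa [zero_add] at this ⊢
    funext j
    rw [res_apply, map_sum, lagr (hα j) hr (f j)]
    · refine Finset.sum_congr rfl fun a _ => ?_
      rw [map_mul, MvPolynomial.aeval_X, MvPolynomial.aeval_C, hv j a, zero_add, pow_one,
        mul_div_cancel_right₀ _ (cst_ne_zero (hα j) a)]
      rfl
    · have := hf1 j
      rw [zero_add, one_mul] at this
      refine Polynomial.degree_le_natDegree.trans_lt ?_
      exact_mod_cast Nat.lt_succ_of_le this
  · exact Rsp_le α hα hcore hr hr3 i0 i1 h01 hnum n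

/-- Projective normality in terms of families of binary forms. -/
theorem exists_form_of_compat [Infinite k] (α : κ → ι → k) (hα : ∀ j, Function.Injective (α j))
    (hcore : Core α) {r : ℕ} (hr : Fintype.card ι = r + 1) (hr3 : 3 ≤ r) (i0 i1 : ι)
    (h01 : i0 ≠ i1) (hnum : NumHyp (Fintype.card ι) (Fintype.card κ) r) (n : ℕ)
    (f : κ → MvPolynomial (Fin 2) k) (hf : Compat α r n f) :
    ∃ F : MvPolynomial ι k, F.IsHomogeneous n ∧
      ∀ j, MvPolynomial.aeval (rncForm (α j)) F = f j := by
  obtain ⟨F, hF1, hF2⟩ := mem_Sbar.mp (Rsp_le_all α hα hcore hr hr3 i0 i1 h01 hnum n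
    (dehom_mem_Rsp hα hf))
  refine ⟨F, hF1, fun j => ?_⟩
  have h1 := aeval_rncForm_homog (α j) hr hF1
  rw [mul_comm] at h1
  rw [← sub_eq_zero]
  refine binary_eq_zero (h1.sub (hf.1 j)) fun t => ?_
  rw [map_sub, eval_aeval_rncForm, ← eval_dehom, sub_eq_zero]
  have h2 := res_eval_eq α F j t
  rw [hF2] at h2
  exact h2.symm

/-- The Hilbert function. -/
theorem finrank_piece [Infinite k] (α : κ → ι → k) (hα : ∀ j, Function.Injective (α j))
    (hcore : Core α) {r : ℕ} (hr : Fintype.card ι = r + 1) (hr3 : 3 ≤ r) (i0 i1 : ι)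
    (h01 : i0 ≠ i1) (hnum : NumHyp (Fintype.card ι) (Fintype.card κ) r) (n : ℕ) (hn : 2 ≤ n) :
    ((r + 2) + Fintype.card κ * ((n - 1) * r - 1)) + Module.finrank k (piece (idealX α) n) =
      (r + n).choose n := by
  obtain ⟨m, rfl⟩ : ∃ m, n = m + 2 := ⟨n - 2, by omega⟩
  rw [piece_idealX α hr]
  have h1 := rank_nullity α (m + 2)
  rw [Sbar_eq α hα hcore hr hr3 i0 i1 h01 hnum, finrank_homog] at h1
  have h2 : Module.finrank k (Rsp α r (m + 2)) = _ :=
    finrank_Rsp α hα hr (m + 1) (by omega) (by omega) i0 i1 h01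
  rw [h2, hr] at h1
  rw [show m + 2 - 1 = m + 1 by omega, h1]
  congr 1
  omega

theorem piece_le_one [Infinite k] (α : κ → ι → k) (hα : ∀ j, Function.Injective (α j))
    {r : ℕ} (hr : Fintype.card ι = r + 1) (i0 : ι) (n : ℕ) (hn : n ≤ 1) :
    piece (idealX α) n = ⊥ := by
  rw [piece_idealX α hr, Submodule.eq_bot_iff]
  intro F hF
  exact IX_zero α hα i0 n hn F hF

/-- Generation by quadrics, in terms of the ideal of the cone. -/
theorem idealX_eq_span [CharZero k] (α : κ → ι → k) (hα : ∀ j, Function.Injective (α j))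
    (hcore : Core α) {r : ℕ} (hr : Fintype.card ι = r + 1) (hr3 : 3 ≤ r) (i0 i1 : ι)
    (h01 : i0 ≠ i1) (hnum : NumHyp (Fintype.card ι) (Fintype.card κ) r) :
    idealX α = Ideal.span (piece (idealX α) 2 : Set (MvPolynomial ι k)) := by
  rw [piece_idealX α hr]
  apply le_antisymm
  · intro F hF
    rw [← MvPolynomial.sum_homogeneousComponent F]
    refine Ideal.sum_mem _ fun n _ => ?_
    have h1 := homogeneousComponent_mem_idealX hr (by omega) hF n
    have h2 := MvPolynomial.homogeneousComponent_isHomogeneous n F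
    exact IX_le_span α hα hcore hr hr3 i0 i1 h01 hnum n _
      (mem_IX.mpr ⟨h2, (mem_idealX_of_homog hr h2).mp h1⟩)
  · rw [Ideal.span_le]
    intro F hF
    obtain ⟨h1, h2⟩ := mem_IX.mp hF
    exact (mem_idealX_of_homog hr h1).mpr h2

end families

end Run7.h971
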