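import Mathlib
import Pool.Agent.Run7.h971.Family

/-!
Specialisation over a discrete valuation ring.
-/

open Finset

set_option linter.unusedSectionVars false
set_option linter.unusedSimpArgs false

namespace Run7.h971

section special

variable {ι O k K : Type*} [Fintype ι] [DecidableEq ι] [CommRing O] [IsDomain O]
  [IsDiscreteValuationRing O] [Field k] [Field K] [Algebra O K] [IsFractionRing O K]

/-- `J` specialises into `I` along the residue map `π`. -/
def SpecialisesInto (π : O →+* k) (J : Ideal (MvPolynomial ι K)) (I : Ideal (MvPolynomial ι k)) :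
    Prop :=
  ∀ F : MvPolynomial ι O, F.map (algebraMap O K) ∈ J → F.map π ∈ I

/-- Integral forms in `J`. -/
noncomputable def intPiece (O : Type*) {ι K : Type*} [Fintype ι] [CommRing O] [Field K]
    [Algebra O K] (J : Ideal (MvPolynomial ι K)) (n : ℕ) : Submodule O (MvPolynomial ι O) where
  carrier := {F | F.IsHomogeneous n ∧ F.map (algebraMap O K) ∈ J}
  add_mem' := by
    rintro F G ⟨h1, h2⟩ ⟨h3, h4⟩
    exact ⟨h1.add h3, by rw [map_add]; exact J.add_mem h2 h4⟩
  zero_mem' := ⟨MvPolynomial.isHomogeneous_zero _ _ _, by rw [map_zero]; exact J.zero_mem⟩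
  smul_mem' := by
    rintro c F ⟨h1, h2⟩
    refine ⟨(MvPolynomial.homogeneousSubmodule ι O n).smul_mem c h1, ?_⟩
    rw [MvPolynomial.smul_eq_C_mul, map_mul, MvPolynomial.map_C]
    exact J.mul_mem_left _ h2

theorem mem_intPiece {J : Ideal (MvPolynomial ι K)} {n : ℕ} {F : MvPolynomial ι O} :
    F ∈ intPiece O J n ↔ F.IsHomogeneous n ∧ F.map (algebraMap O K) ∈ J := Iff.rfl

theorem intPiece_fg (J : Ideal (MvPolynomial ι K)) (n : ℕ) : (intPiece O J n).FG :=
  Submodule.FG.of_le (MvPolynomial.homogeneousSubmodule_fg ι O n) fun _ h => h.1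

theorem ker_eq (π : O →+* k) (hπ : Function.Surjective π) {ϖ : O} (hϖ : Irreducible ϖ) :
    RingHom.ker π = Ideal.span {ϖ} := by
  rw [← hϖ.maximalIdeal_eq]
  exact IsLocalRing.eq_maximalIdeal (RingHom.ker_isMaximal_of_surjective π hπ)

theorem saturated (π : O →+* k) (hπ : Function.Surjective π) {J : Ideal (MvPolynomial ι K)}
    {n : ℕ} {F : MvPolynomial ι O} (hF : F ∈ intPiece O J n) (h0 : F.map π = 0) :
    F ∈ IsLocalRing.maximalIdeal O • intPiece O J n := by
  obtain ⟨ϖ, hϖ⟩ := IsDiscreteValuationRing.exists_irreducible O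
  have h1 : MvPolynomial.C ϖ ∣ F := by
    rw [MvPolynomial.C_dvd_iff_dvd_coeff]
    intro d
    rw [← Ideal.mem_span_singleton, ← ker_eq π hπ hϖ, RingHom.mem_ker, ← MvPolynomial.coeff_map,
      h0, MvPolynomial.coeff_zero]
  obtain ⟨G, rfl⟩ := h1
  have hne : algebraMap O K ϖ ≠ 0 := by
    rw [Ne, FaithfulSMul.algebraMap_eq_zero_iff]
    exact hϖ.ne_zero
  have hG : G ∈ intPiece O J n := by
    obtain ⟨h2, h3⟩ := hF
    refine ⟨?_, ?_⟩
    · intro d hd
      apply h2
      rw [MvPolynomial.coeff_C_mul]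
      exact mul_ne_zero hϖ.ne_zero hd
    · rw [map_mul, MvPolynomial.map_C] at h3
      have h4 := J.mul_mem_left (MvPolynomial.C (algebraMap O K ϖ)⁻¹) h3
      rwa [← mul_assoc, ← map_mul, inv_mul_cancel₀ hne, map_one, one_mul] at h4
  rw [← MvPolynomial.smul_eq_C_mul]
  refine Submodule.smul_mem_smul ?_ hG
  rw [hϖ.maximalIdeal_eq]
  exact Ideal.mem_span_singleton_self ϖ

theorem nakayama (π : O →+* k) (hπ : Function.Surjective π) {J : Ideal (MvPolynomial ι K)}
    {n : ℕ} {N : Submodule O (MvPolynomial ι O)} (hN : N ≤ intPiece O J n)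
    (h : ∀ F ∈ intPiece O J n, ∃ G ∈ N, G.map π = F.map π) : intPiece O J n ≤ N := by
  refine Submodule.le_of_le_smul_of_le_jacobson_bot (I := IsLocalRing.maximalIdeal O)
    (intPiece_fg J n) (IsLocalRing.maximalIdeal_le_jacobson _) ?_
  intro F hF
  obtain ⟨G, hG, hGF⟩ := h F hF
  have h1 : F = G + (F - G) := by ring
  rw [h1]
  refine Submodule.add_mem_sup hG (saturated π hπ (Submodule.sub_mem _ hF (hN hG)) ?_)
  rw [map_sub, hGF, sub_self]

theorem clear_denominators (F : MvPolynomial ι K) {n : ℕ} (hF : F.IsHomogeneous n) :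
    ∃ (c : O) (G : MvPolynomial ι O), algebraMap O K c ≠ 0 ∧ G.IsHomogeneous n ∧
      G.map (algebraMap O K) = MvPolynomial.C (algebraMap O K c) * F := by
  classical
  obtain ⟨⟨c, hc⟩, h⟩ := IsLocalization.exist_integer_multiples_of_finset (nonZeroDivisors O)
    (F.support.image fun d => F.coeff d)
  have hc0 : algebraMap O K c ≠ 0 := by
    rw [Ne, FaithfulSMul.algebraMap_eq_zero_iff]
    exact nonZeroDivisors.ne_zero hc
  have h' : ∀ d, ∃ g : O, algebraMap O K g = algebraMap O K c * F.coeff d := by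
    intro d
    by_cases hd : d ∈ F.support
    · obtain ⟨g, hg⟩ := h _ (Finset.mem_image_of_mem _ hd)
      exact ⟨g, by rw [hg, Algebra.smul_def]⟩
    · exact ⟨0, by rw [MvPolynomial.notMem_support_iff.mp hd, map_zero, mul_zero]⟩
  choose g hg using h'
  refine ⟨c, ∑ d ∈ F.support, MvPolynomial.monomial d (g d), hc0, ?_, ?_⟩
  · refine MvPolynomial.IsHomogeneous.sum _ _ _ fun d hd => ?_
    refine MvPolynomial.isHomogeneous_monomial _ ?_
    have := hF.degree_eq_sum_deg_support hd
    exact this.symm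
  · ext d
    rw [map_sum, MvPolynomial.coeff_sum, MvPolynomial.coeff_C_mul]
    simp only [MvPolynomial.map_monomial, MvPolynomial.coeff_monomial]
    rw [Finset.sum_ite_eq']
    split_ifs with hd
    · exact hg d
    · rw [MvPolynomial.notMem_support_iff.mp hd, mul_zero]

theorem exists_intPiece {J : Ideal (MvPolynomial ι K)} {n : ℕ} {F : MvPolynomial ι K}
    (hF : F ∈ piece J n) :
    ∃ (c : K) (G : MvPolynomial ι O), G ∈ intPiece O J n ∧
      F = c • G.map (algebraMap O K) := by
  obtain ⟨h1, h2⟩ := mem_piece.mp hF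
  obtain ⟨c, G, hc, hG1, hG2⟩ := clear_denominators (O := O) F h2
  refine ⟨(algebraMap O K c)⁻¹, G, ⟨hG1, ?_⟩, ?_⟩
  · rw [hG2]; exact J.mul_mem_left _ h1
  · rw [hG2, MvPolynomial.smul_eq_C_mul, ← mul_assoc, ← map_mul, inv_mul_cancel₀ hc, map_one,
      one_mul]

/-- The reductions of the integral forms in `J`. -/
noncomputable def redPiece (π : O →+* k) (hπ : Function.Surjective π)
    (J : Ideal (MvPolynomial ι K)) (n : ℕ) : Submodule k (MvPolynomial ι k) where
  carrier := {G | ∃ F ∈ intPiece O J n, F.map π = G}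
  add_mem' := by
    rintro F G ⟨F', h1, rfl⟩ ⟨G', h2, rfl⟩
    exact ⟨F' + G', Submodule.add_mem _ h1 h2, map_add _ _ _⟩
  zero_mem' := ⟨0, Submodule.zero_mem _, map_zero _⟩
  smul_mem' := by
    rintro c F ⟨F', h1, rfl⟩
    obtain ⟨c, rfl⟩ := hπ c
    refine ⟨c • F', Submodule.smul_mem _ _ h1, ?_⟩
    rw [MvPolynomial.smul_eq_C_mul, map_mul, MvPolynomial.map_C, MvPolynomial.smul_eq_C_mul]

theorem redPiece_le (π : O →+* k) (hπ : Function.Surjective π) {J : Ideal (MvPolynomial ι K)}
    {I : Ideal (MvPolynomial ι k)} (hred : SpecialisesInto π J I) (n : ℕ) :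
    redPiece π hπ J n ≤ piece I n := by
  rintro G ⟨F, ⟨h1, h2⟩, rfl⟩
  exact mem_piece.mpr ⟨hred F h2, h1.map π⟩

instance finite_piece (I : Ideal (MvPolynomial ι k)) (n : ℕ) : Module.Finite k (piece I n) := by
  unfold piece; infer_instance

theorem finrank_le_redPiece (π : O →+* k) (hπ : Function.Surjective π)
    (J : Ideal (MvPolynomial ι K)) {I : Ideal (MvPolynomial ι k)} (hred : SpecialisesInto π J I)
    (n : ℕ) :
    Module.finrank K (piece J n) ≤ Module.finrank k (redPiece π hπ J n) := by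
  have hfin : Module.Finite k (redPiece π hπ J n) :=
    Submodule.finiteDimensional_of_le (redPiece_le π hπ hred n)
  let b := Module.finBasis k (redPiece π hπ J n)
  have hb : ∀ i, ∃ F ∈ intPiece O J n, F.map π = (b i : MvPolynomial ι k) := fun i => (b i).2
  choose w hw1 hw2 using hb
  have hNle : Submodule.span O (Set.range w) ≤ intPiece O J n := by
    rw [Submodule.span_le]
    rintro _ ⟨i, rfl⟩
    exact hw1 i
  have hle : intPiece O J n ≤ Submodule.span O (Set.range w) := by
    refine nakayama π hπ hNle ?_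
    intro F hF
    have h1 : F.map π ∈ redPiece π hπ J n := ⟨F, hF, rfl⟩
    have h2 := b.sum_repr ⟨F.map π, h1⟩
    have h3 : ∀ i, ∃ c : O, π c = b.repr ⟨F.map π, h1⟩ i := fun i => hπ _
    choose c hc using h3
    refine ⟨∑ i, c i • w i, Submodule.sum_mem _ fun i _ => Submodule.smul_mem _ _
      (Submodule.subset_span ⟨i, rfl⟩), ?_⟩
    have h4 := congrArg Subtype.val h2
    rw [Submodule.coe_sum] at h4
    rw [map_sum]
    refine Eq.trans (Finset.sum_congr rfl fun i _ => ?_) h4
    rw [MvPolynomial.smul_eq_C_mul, map_mul, MvPolynomial.map_C, hc, hw2,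
      ← MvPolynomial.smul_eq_C_mul]
    rfl
  have hspan : piece J n ≤ Submodule.span K
      (Set.range fun i => (w i).map (algebraMap O K)) := by
    intro F hF
    obtain ⟨c, G, hG, rfl⟩ := exists_intPiece (O := O) hF
    refine Submodule.smul_mem _ _ ?_
    obtain ⟨e, rfl⟩ := (Submodule.mem_span_range_iff_exists_fun O).mp (hle hG)
    rw [map_sum]
    refine Submodule.sum_mem _ fun i _ => ?_
    rw [MvPolynomial.smul_eq_C_mul, map_mul, MvPolynomial.map_C, ← MvPolynomial.smul_eq_C_mul]
    exact Submodule.smul_mem _ _ (Submodule.subset_span ⟨i, rfl⟩)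
  have hfin2 : Module.Finite K (Submodule.span K
      (Set.range fun i => (w i).map (algebraMap O K))) :=
    Module.Finite.span_of_finite K (Set.finite_range _)
  refine (Submodule.finrank_mono hspan).trans ?_
  refine (finrank_range_le_card _).trans ?_
  rw [Fintype.card_fin]

theorem finrank_piece_le (π : O →+* k) (hπ : Function.Surjective π)
    {J : Ideal (MvPolynomial ι K)} {I : Ideal (MvPolynomial ι k)} (hred : SpecialisesInto π J I)
    (n : ℕ) : Module.finrank K (piece J n) ≤ Module.finrank k (piece I n) :=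
  (finrank_le_redPiece π hπ J hred n).trans (Submodule.finrank_mono (redPiece_le π hπ hred n))

theorem redPiece_eq (π : O →+* k) (hπ : Function.Surjective π)
    {J : Ideal (MvPolynomial ι K)} {I : Ideal (MvPolynomial ι k)} (hred : SpecialisesInto π J I)
    (n : ℕ) (hdim : Module.finrank k (piece I n) ≤ Module.finrank K (piece J n)) :
    redPiece π hπ J n = piece I n :=
  Submodule.eq_of_le_of_finrank_le (redPiece_le π hπ hred n)
    (hdim.trans (finrank_le_redPiece π hπ J hred n))

/-- Generation in degree `n + 1` by forms of degree `n` lifts from the special fibre. -/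
theorem special_gen (π : O →+* k) (hπ : Function.Surjective π)
    {J : Ideal (MvPolynomial ι K)} {I : Ideal (MvPolynomial ι k)} (hred : SpecialisesInto π J I)
    (n : ℕ) (hdim : Module.finrank k (piece I n) ≤ Module.finrank K (piece J n))
    (hI : ∀ F ∈ piece I (n + 1), ∃ Q : ι → MvPolynomial ι k, (∀ a, Q a ∈ piece I n) ∧
      F = ∑ a, MvPolynomial.X a * Q a) (F : MvPolynomial ι K) (hF : F ∈ piece J (n + 1)) :
    ∃ Q : ι → MvPolynomial ι K, (∀ a, Q a ∈ piece J n) ∧ F = ∑ a, MvPolynomial.X a * Q a := by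
  let N : Submodule O (MvPolynomial ι O) :=
    { carrier := {G | ∃ P : ι → MvPolynomial ι O, (∀ a, P a ∈ intPiece O J n) ∧
        G = ∑ a, MvPolynomial.X a * P a}
      add_mem' := by
        rintro _ _ ⟨P, hP, rfl⟩ ⟨P', hP', rfl⟩
        refine ⟨fun a => P a + P' a, fun a => Submodule.add_mem _ (hP a) (hP' a), ?_⟩
        rw [← Finset.sum_add_distrib]
        exact Finset.sum_congr rfl fun a _ => by rw [mul_add]
      zero_mem' := ⟨fun _ => 0, fun _ => Submodule.zero_mem _, by simp⟩
      smul_mem' := by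
        rintro c _ ⟨P, hP, rfl⟩
        refine ⟨fun a => c • P a, fun a => Submodule.smul_mem _ _ (hP a), ?_⟩
        rw [Finset.smul_sum]
        exact Finset.sum_congr rfl fun a _ => by rw [mul_smul_comm] }
  have hN : N ≤ intPiece O J (n + 1) := by
    rintro _ ⟨P, hP, rfl⟩
    refine ⟨?_, ?_⟩
    · refine MvPolynomial.IsHomogeneous.sum _ _ _ fun a _ => ?_
      rw [add_comm]
      exact (MvPolynomial.isHomogeneous_X O a).mul (hP a).1
    · rw [map_sum]
      refine Ideal.sum_mem _ fun a _ => ?_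
      rw [map_mul]
      exact Ideal.mul_mem_left _ _ (hP a).2
  have hle : intPiece O J (n + 1) ≤ N := by
    refine nakayama π hπ hN ?_
    intro G hG
    obtain ⟨Q, hQ, hQ'⟩ := hI (G.map π) (redPiece_le π hπ hred (n + 1) ⟨G, hG, rfl⟩)
    have h1 : ∀ a, ∃ P ∈ intPiece O J n, P.map π = Q a := by
      intro a
      have := hQ a
      rw [← redPiece_eq π hπ hred n hdim] at this
      exact this
    choose P hP1 hP2 using h1
    refine ⟨∑ a, MvPolynomial.X a * P a, ⟨P, hP1, rfl⟩, ?_⟩
    rw [hQ', map_sum]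
    exact Finset.sum_congr rfl fun a _ => by rw [map_mul, MvPolynomial.map_X, hP2]
  obtain ⟨c, G, hG, rfl⟩ := exists_intPiece (O := O) hF
  obtain ⟨P, hP, rfl⟩ := hle hG
  refine ⟨fun a => c • (P a).map (algebraMap O K), fun a => ?_, ?_⟩
  · exact Submodule.smul_mem _ _ (mem_piece.mpr ⟨(hP a).2, (hP a).1.map _⟩)
  · rw [map_sum, Finset.smul_sum]
    exact Finset.sum_congr rfl fun a _ => by rw [map_mul, MvPolynomial.map_X, mul_smul_comm]

end special

end Run7.h971
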