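import Mathlib
import Pool.Agent.Run7.h971.Special

/-!
Assembly: the generic statement for `r = 3 s + 1`.
-/

open Finset

set_option linter.unusedSectionVars false
set_option linter.unusedSimpArgs false

namespace Run7.h971

theorem core_reindex {ι ι' κ κ' K : Type*} [Fintype ι] [DecidableEq ι] [Fintype ι']
    [DecidableEq ι'] [Field K] (eι : ι ≃ ι') (eκ : κ ≃ κ') (α : κ' → ι' → K)
    (h : Core (fun j a => α (eκ j) (eι a))) : Core α := by
  intro ω h1 h2 h3 h4 h5 u a b
  have h6 := h (fun u a b => ω (eι u) (eι a) (eι b)) (fun u a b => h1 _ _ _) (fun u a => h2 _ _)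
    (fun u a => h3 _ _) (fun u a b => h4 _ _ _) (fun j u a => by
      rw [← h5 (eκ j) (eι u) (eι a)]
      refine Finset.sum_equiv eι (fun b => ?_) (fun b _ => ?_)
      · simp
      · congr 1
        refine Finset.prod_equiv eι (fun c => ?_) (fun c _ => rfl)
        simp) (eι.symm u) (eι.symm a) (eι.symm b)
  simpa using h6

theorem numHyp (s : ℕ) : NumHyp (3 * s + 2) (s + 1) (3 * s + 1) := by
  unfold NumHyp
  have h2 : 2 * (3 * s + 2 + 1).choose 2 = (3 * s + 2 + 1) * (3 * s + 2) := by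
    have := Nat.add_one_mul_choose_eq (3 * s + 2) 1
    rw [Nat.choose_one_right] at this
    linarith
  have h3 : 3 * (3 * s + 2 + 2).choose 3 = (3 * s + 2 + 2) * (3 * s + 2 + 1).choose 2 := by
    have := Nat.add_one_mul_choose_eq (3 * s + 2 + 1) 2
    rw [show 3 * s + 2 + 2 = 3 * s + 2 + 1 + 1 by ring]
    linarith
  have e1 : 2 * (3 * s + 1) - 1 = 6 * s + 1 := by omega
  have e2 : 3 * s + 1 - 1 = 3 * s := by omega
  rw [e1, e2]
  generalize (3 * s + 2 + 1).choose 2 = T2 at *
  generalize (3 * s + 2 + 2).choose 3 = T3 at *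
  have h4 : 6 * ((3 * s + 2) * T2) = 3 * (3 * s + 2) * ((3 * s + 2 + 1) * (3 * s + 2)) := by
    rw [← h2]; ring
  have h5 : 6 * T3 = (3 * s + 2 + 2) * ((3 * s + 2 + 1) * (3 * s + 2)) := by
    rw [← h2]; linarith
  have h6 : 6 * ((3 * s + 2) * T2 + (3 * s + 1 + 2 + (s + 1) * (6 * s + 1))) =
      6 * (T3 + (3 * s + 2) * (3 * s + 1 + 2 + (s + 1) * (3 * s))) := by
    rw [Nat.mul_add, h4, Nat.mul_add 6 T3, h5]; ring
  omega

/-- The discriminant factor: nonvanishing means that all parameter vectors are injective. -/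
noncomputable def discPoly (ι κ : Type) [Fintype ι] [DecidableEq ι] [Fintype κ] :
    MvPolynomial (κ × ι) ℤ :=
  ∏ q : κ × ι × ι, if q.2.1 = q.2.2 then 1 else
    (MvPolynomial.X (q.1, q.2.1) - MvPolynomial.X (q.1, q.2.2))

theorem injective_of_discPoly {ι κ : Type} [Fintype ι] [DecidableEq ι] [Fintype κ] {K : Type*}
    [Field K] (α : κ → ι → K)
    (h : MvPolynomial.aeval (fun t : κ × ι => α t.1 t.2) (discPoly ι κ) ≠ 0) (j : κ) :
    Function.Injective (α j) := by
  intro a b hab
  by_contra hne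
  apply h
  rw [discPoly, map_prod]
  refine Finset.prod_eq_zero (Finset.mem_univ (j, a, b)) ?_
  rw [if_neg hne, map_sub, MvPolynomial.aeval_X, MvPolynomial.aeval_X]
  exact sub_eq_zero.mpr hab

theorem discPoly_ne_zero_of {ι κ : Type} [Fintype ι] [DecidableEq ι] [Fintype κ] {K : Type*}
    [Field K] (α : κ → ι → K) (hα : ∀ j, Function.Injective (α j)) :
    MvPolynomial.aeval (fun t : κ × ι => α t.1 t.2) (discPoly ι κ) ≠ 0 := by
  rw [discPoly, map_prod, Finset.prod_ne_zero_iff]
  rintro ⟨j, a, b⟩ _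
  dsimp only
  split_ifs with h
  · rw [map_one]; exact one_ne_zero
  · rw [map_sub, MvPolynomial.aeval_X, MvPolynomial.aeval_X]
    exact sub_ne_zero.mpr fun h' => h (hα j h')

/-- The genericity condition. -/
theorem exists_generic (s : ℕ) : ∃ Φ : MvPolynomial (Fin (s + 1) × Fin (3 * s + 2)) ℤ, Φ ≠ 0 ∧
    ∀ (k : Type*) [Field k] (α : Fin (s + 1) → Fin (3 * s + 2) → k),
      MvPolynomial.aeval (fun t => α t.1 t.2) Φ ≠ 0 →
        (∀ j, Function.Injective (α j)) ∧ Core α := by
  refine ⟨corePoly (Fin (3 * s + 2)) (Fin (s + 1)) * discPoly (Fin (3 * s + 2)) (Fin (s + 1)),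
    ?_, ?_⟩
  · obtain ⟨α, α', h1, h2⟩ := exists_core_cluster (Fin s)
    let eι : (Fin s × Fin 3) ⊕ Fin 2 ≃ Fin (3 * s + 2) :=
      Fintype.equivOfCardEq (by simp [mul_comm])
    let eκ : Option (Fin s) ≃ Fin (s + 1) := Fintype.equivOfCardEq (by simp)
    let β : Fin (s + 1) → Fin (3 * s + 2) → ℚ := fun j a =>
      clusterParam α α' (eκ.symm j) (eι.symm a)
    have hβ1 : ∀ j, Function.Injective (β j) := fun j => (h1 _).comp eι.symm.injective
    have hβ2 : Core β := by
      refine core_reindex eι eκ β ?_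
      have : (fun j a => β (eκ j) (eι a)) = clusterParam α α' := by
        funext j a
        simp [β]
      rw [this]
      exact h2
    intro h0
    have h3 := aeval_ne_zero_of_core β hβ2
    have h4 := discPoly_ne_zero_of β hβ1
    refine mul_ne_zero h3 h4 ?_
    rw [← map_mul, h0, map_zero]
  · intro k _ α h
    rw [map_mul] at h
    exact ⟨injective_of_discPoly α (right_ne_zero_of_mul h),
      core_of_aeval_ne_zero α (left_ne_zero_of_mul h)⟩

section main

variable {ι κ k : Type*} [Fintype ι] [DecidableEq ι] [Fintype κ] [DecidableEq κ] [Nonempty κ]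
  [Field k] [CharZero k]

/-- Generation step on the special fibre. -/
theorem piece_step (α : κ → ι → k) (hα : ∀ j, Function.Injective (α j))
    (hcore : Core α) {r : ℕ} (hr : Fintype.card ι = r + 1) (hr3 : 3 ≤ r) (i0 i1 : ι)
    (h01 : i0 ≠ i1) (hnum : NumHyp (Fintype.card ι) (Fintype.card κ) r) (n : ℕ) (hn : 2 ≤ n)
    (F : MvPolynomial ι k) (hF : F ∈ piece (idealX α) (n + 1)) :
    ∃ Q : ι → MvPolynomial ι k, (∀ a, Q a ∈ piece (idealX α) n) ∧
      F = ∑ a, MvPolynomial.X a * Q a := by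
  rw [piece_idealX α hr] at hF
  simp only [piece_idealX α hr]
  obtain ⟨m, rfl⟩ : ∃ m, n = m + 2 := ⟨n - 2, by omega⟩
  rcases m with _ | m
  · exact IX_three α hα hcore hr hr3 i0 i1 h01 hnum F hF
  · exact IX_succ α hα hcore hr hr3 i0 i1 h01 hnum (m + 1) (by omega) F hF

theorem mul_finrank_piece (α : κ → ι → k) (hα : ∀ j, Function.Injective (α j))
    (hcore : Core α) {r : ℕ} (hr : Fintype.card ι = r + 1) (hr3 : 3 ≤ r) (i0 i1 : ι)
    (h01 : i0 ≠ i1) (hnum : NumHyp (Fintype.card ι) (Fintype.card κ) r) :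
    Fintype.card ι * Module.finrank k (piece (idealX α) 2) =
      Module.finrank k (piece (idealX α) 3) := by
  have h2 := finrank_piece α hα hcore hr hr3 i0 i1 h01 hnum 2 le_rfl
  have h3 := finrank_piece α hα hcore hr hr3 i0 i1 h01 hnum 3 (by norm_num)
  rw [show (2 - 1) * r = r by omega] at h2
  rw [show (3 - 1) * r = 2 * r by omega] at h3
  unfold NumHyp at hnum
  rw [hr] at hnum ⊢
  rw [show r + 1 + 1 = r + 2 by ring, show r + 1 + 2 = r + 3 by ring, ← h2, ← h3, mul_add] at hnum
  omega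

end main

section lift

variable {ι K : Type*} [Fintype ι] [DecidableEq ι] [Field K]

/-- Multiplication by the variables on the graded pieces of an ideal. -/
noncomputable def mulPiece (J : Ideal (MvPolynomial ι K)) (n : ℕ) :
    (ι → piece J n) →ₗ[K] piece J (n + 1) where
  toFun Q := ⟨∑ a, MvPolynomial.X a * (Q a : MvPolynomial ι K),
    Submodule.sum_mem _ fun a _ => by
      obtain ⟨h1, h2⟩ := mem_piece.mp (Q a).2
      refine mem_piece.mpr ⟨J.mul_mem_left _ h1, ?_⟩
      rw [add_comm]; exact (MvPolynomial.isHomogeneous_X K a).mul h2⟩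
  map_add' P Q := by
    ext1
    simp [mul_add, Finset.sum_add_distrib]
  map_smul' c Q := by
    ext1
    simp [Finset.smul_sum]

theorem eq_span_of_steps {J : Ideal (MvPolynomial ι K)}
    (hhom : ∀ F ∈ J, ∀ n, MvPolynomial.homogeneousComponent n F ∈ J)
    (hlow : ∀ n ≤ 1, piece J n = ⊥)
    (hstep : ∀ n, 2 ≤ n → ∀ F ∈ piece J (n + 1), ∃ Q : ι → MvPolynomial ι K,
      (∀ a, Q a ∈ piece J n) ∧ F = ∑ a, MvPolynomial.X a * Q a) :
    J = Ideal.span (piece J 2 : Set (MvPolynomial ι K)) := by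
  have key : ∀ n F, F ∈ piece J n → F ∈ Ideal.span (piece J 2 : Set (MvPolynomial ι K)) := by
    intro n
    induction n with
    | zero =>
      intro F hF
      rw [hlow 0 (by norm_num), Submodule.mem_bot] at hF
      rw [hF]; exact Ideal.zero_mem _
    | succ n ih =>
      intro F hF
      rcases n with _ | _ | n
      · rw [hlow 1 le_rfl, Submodule.mem_bot] at hF
        rw [hF]; exact Ideal.zero_mem _
      · exact Ideal.subset_span hF
      · obtain ⟨Q, hQ, rfl⟩ := hstep (n + 2) (by omega) F hF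
        exact Ideal.sum_mem _ fun a _ => Ideal.mul_mem_left _ _ (ih (Q a) (hQ a))
  apply le_antisymm
  · intro F hF
    rw [← MvPolynomial.sum_homogeneousComponent F]
    refine Ideal.sum_mem _ fun n _ => key n _ ?_
    exact mem_piece.mpr ⟨hhom F hF n, MvPolynomial.homogeneousComponent_isHomogeneous n F⟩
  · rw [Ideal.span_le]
    intro F hF
    exact (mem_piece.mp hF).1

theorem no_syz_of_finrank {J : Ideal (MvPolynomial ι K)}
    (hstep : ∀ F ∈ piece J 3, ∃ Q : ι → MvPolynomial ι K,
      (∀ a, Q a ∈ piece J 2) ∧ F = ∑ a, MvPolynomial.X a * Q a)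
    (hdim : Fintype.card ι * Module.finrank K (piece J 2) = Module.finrank K (piece J 3))
    (Q : ι → MvPolynomial ι K) (hQ : ∀ a, Q a ∈ piece J 2)
    (h0 : ∑ a, MvPolynomial.X a * Q a = 0) (a : ι) : Q a = 0 := by
  have hsurj : Function.Surjective (mulPiece J 2) := by
    rintro ⟨F, hF⟩
    obtain ⟨P, hP, hP'⟩ := hstep F hF
    refine ⟨fun a => ⟨P a, hP a⟩, ?_⟩
    exact Subtype.ext hP'.symm
  have hfin : Module.finrank K (ι → piece J 2) = Module.finrank K (piece J (2 + 1)) := by
    rw [Module.finrank_pi_fintype]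
    simp only [Finset.sum_const, Finset.card_univ, smul_eq_mul]
    exact hdim
  have hinj := (LinearMap.injective_iff_surjective_of_finrank_eq_finrank hfin).mpr hsurj
  have h1 : mulPiece J 2 (fun a => ⟨Q a, hQ a⟩) = 0 := Subtype.ext h0
  have h2 := hinj (h1.trans (map_zero _).symm)
  exact congrArg Subtype.val (congrFun h2 a)

end lift

end Run7.h971
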